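import Mathlib

set_option autoImplicit false
open scoped BigOperators

namespace Run7.h542.Kh

/-- `t, s₁, s₂` have no common divisor -/
def Cop (t : ℕ) (s1 s2 : ℤ) : Prop := Nat.Coprime t (Int.gcd s1 s2)

lemma exists_reduce (n : ℕ) (S1 S2 : ℤ) (hn : 1 ≤ n) :
    ∃ (g t : ℕ) (s1 s2 : ℤ), n = g * t ∧ 1 ≤ g ∧ S1 = g * s1 ∧ S2 = g * s2 ∧ Cop t s1 s2 := by
  set g := Nat.gcd n (Int.gcd S1 S2) with hg
  have hgpos : 0 < g := Nat.gcd_pos_of_pos_left _ (by omega)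
  have h1 : g ∣ n := Nat.gcd_dvd_left _ _
  have h2 : g ∣ Int.gcd S1 S2 := Nat.gcd_dvd_right _ _
  have h3 : (g : ℤ) ∣ S1 := (Int.natCast_dvd_natCast.2 h2).trans (Int.gcd_dvd_left _ _)
  have h4 : (g : ℤ) ∣ S2 := (Int.natCast_dvd_natCast.2 h2).trans (Int.gcd_dvd_right _ _)
  obtain ⟨t, ht⟩ := h1
  obtain ⟨s1, hs1⟩ := h3
  obtain ⟨s2, hs2⟩ := h4
  refine ⟨g, t, s1, s2, ht, hgpos, hs1, hs2, ?_⟩
  unfold Cop
  have h5 : Int.gcd S1 S2 = g * Int.gcd s1 s2 := by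
    rw [hs1, hs2, Int.gcd_mul_left]; simp
  have h6 : g = g * Nat.gcd t (Int.gcd s1 s2) := by
    calc g = Nat.gcd n (Int.gcd S1 S2) := hg
      _ = Nat.gcd (g * t) (g * Int.gcd s1 s2) := by rw [← ht, ← h5]
      _ = g * Nat.gcd t (Int.gcd s1 s2) := Nat.gcd_mul_left _ _ _
  have h7 : g * Nat.gcd t (Int.gcd s1 s2) = g * 1 := by rw [← h6, mul_one]
  exact Nat.eq_of_mul_eq_mul_left hgpos h7

/-- from proportionality to a multiple of the primitive vector -/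
lemma mult_of_prop {t n : ℕ} {s1 s2 S1 S2 : ℤ} (ht : 1 ≤ t) (hc : Cop t s1 s2)
    (h1 : (n : ℤ) * s1 = t * S1) (h2 : (n : ℤ) * s2 = t * S2) :
    ∃ c : ℕ, n = c * t ∧ S1 = c * s1 ∧ S2 = c * s2 := by
  have h3 : t ∣ n * Int.gcd s1 s2 := by
    have : Int.gcd ((n : ℤ) * s1) ((n : ℤ) * s2) = n * Int.gcd s1 s2 := by
      rw [Int.gcd_mul_left]; simp
    rw [← this, h1, h2, Int.gcd_mul_left]
    simp
  have h4 : t ∣ n := Nat.Coprime.dvd_of_dvd_mul_right hc h3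
  obtain ⟨c, hc'⟩ := h4
  have ht' : (t : ℤ) ≠ 0 := by positivity
  refine ⟨c, by rw [hc']; ring, ?_, ?_⟩
  · have : (t : ℤ) * (c * s1) = t * S1 := by rw [← h1, hc']; push_cast; ring
    exact (mul_left_cancel₀ ht' this).symm
  · have : (t : ℤ) * (c * s2) = t * S2 := by rw [← h2, hc']; push_cast; ring
    exact (mul_left_cancel₀ ht' this).symm

/-- uniqueness of the primitive vector -/
lemma prim_unique {g t c u : ℕ} {s1 s2 w1 w2 : ℤ} (hg : 1 ≤ g)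
    (hcop : Cop t s1 s2) (hcop' : Cop u w1 w2)
    (h : g * t = c * u) (h1 : (g : ℤ) * s1 = c * w1) (h2 : (g : ℤ) * s2 = c * w2) :
    t = u := by
  have e1 : Nat.gcd (g * t) (Int.gcd (g * s1) (g * s2)) = g := by
    rw [Int.gcd_mul_left]
    simp only [Int.natAbs_natCast]
    rw [Nat.gcd_mul_left, hcop.gcd_eq_one, mul_one]
  have e2 : Nat.gcd (c * u) (Int.gcd (c * w1) (c * w2)) = c := by
    rw [Int.gcd_mul_left]
    simp only [Int.natAbs_natCast]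
    rw [Nat.gcd_mul_left, hcop'.gcd_eq_one, mul_one]
  have e3 : g = c := by rw [← e1, ← e2, h, h1, h2]
  subst e3
  exact Nat.eq_of_mul_eq_mul_left (by omega) h

lemma int_eq_of_abs_lt {a b : ℤ} (h : |(a : ℝ) - b| < 1) : a = b := by
  have : |a - b| < 1 := by exact_mod_cast h
  have h0 : a - b = 0 := Int.abs_lt_one_iff.1 this
  omega

/-- Key: two good approximations are proportional. -/
lemma prop_of_close {y θ₁ θ₂ : ℝ} {n t : ℕ} {S s : ℤ}
    (h1 : |(n : ℝ) * y - S| < θ₁) (h2 : |(t : ℝ) * y - s| ≤ θ₂)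
    (h : (n : ℝ) * θ₂ + t * θ₁ ≤ 1) (ht : 1 ≤ t) : (n : ℤ) * s = t * S := by
  apply int_eq_of_abs_lt
  push_cast
  have e : (n : ℝ) * s - t * S = (t : ℝ) * (n * y - S) - n * (t * y - s) := by ring
  have ht' : (1 : ℝ) ≤ t := by exact_mod_cast ht
  rw [e]
  calc |(t : ℝ) * (n * y - S) - n * (t * y - s)|
      ≤ |(t : ℝ) * (n * y - S)| + |(n : ℝ) * (t * y - s)| := abs_sub _ _
    _ = (t : ℝ) * |(n : ℝ) * y - S| + (n : ℝ) * |(t : ℝ) * y - s| := by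
        rw [abs_mul, abs_mul, abs_of_nonneg (by positivity : (0 : ℝ) ≤ t),
          abs_of_nonneg (by positivity : (0 : ℝ) ≤ n)]
    _ < (t : ℝ) * θ₁ + n * θ₂ := by
        have a1 : (t : ℝ) * |(n : ℝ) * y - S| < t * θ₁ :=
          mul_lt_mul_of_pos_left h1 (by linarith)
        have a2 : (n : ℝ) * |(t : ℝ) * y - s| ≤ n * θ₂ :=
          mul_le_mul_of_nonneg_left h2 (by positivity)
        linarith
    _ ≤ 1 := by linarith

end Run7.h542.Kh
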