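import Mathlib
import Pool.Agent.Run7.h542.KhCount

set_option autoImplicit false
open scoped BigOperators

namespace Run7.h542.Kh

/-- the resonance condition for `n` at level `θ` and scale `M` -/
def Res (y1 y2 θ : ℝ) (M n : ℕ) : Prop :=
  ∃ (g t : ℕ) (s1 s2 : ℤ), n = g * t ∧ 1 ≤ g ∧ 1 ≤ t ∧ Cop t s1 s2 ∧
    |(n : ℝ) * y1 - ((g * s1 : ℤ) : ℝ)| < θ ∧ |(n : ℝ) * y2 - ((g * s2 : ℤ) : ℝ)| < θ ∧
    M ≤ 16 * t ^ 2

lemma abs_div_lt {y θ : ℝ} {g t m : ℕ} {s S : ℤ} (hg : 1 ≤ g) (hm : m = g * t)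
    (hS : S = g * s) (h : |(m : ℝ) * y - S| < θ) : |(t : ℝ) * y - s| < θ := by
  have e : (m : ℝ) * y - S = g * ((t : ℝ) * y - s) := by
    rw [hm, hS]; push_cast; ring
  rw [e, abs_mul, abs_of_nonneg (by positivity : (0 : ℝ) ≤ g)] at h
  have hg' : (1 : ℝ) ≤ g := by exact_mod_cast hg
  nlinarith [abs_nonneg ((t : ℝ) * y - s)]

/-- case without a very good approximation -/
lemma count_no (y1 y2 θ : ℝ) (hθ : 0 < θ) (M : ℕ) (N : Finset ℕ)
    (hN : ∀ n ∈ N, 1 ≤ n ∧ n < M ∧ Res y1 y2 θ M n)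
    (h : ¬ ∃ (t : ℕ) (s1 s2 : ℤ), 1 ≤ t ∧ Cop t s1 s2 ∧ (t : ℝ) ^ 2 * θ < 1 ∧
      |(t : ℝ) * y1 - s1| < 2 * θ ∧ |(t : ℝ) * y2 - s2| < 2 * θ) :
    (N.card : ℝ) ≤ M * √θ + 1 := by
  classical
  have hsq : 0 < √θ := Real.sqrt_pos.2 hθ
  have key : ∀ n1 ∈ N, ∀ n2 ∈ N, n1 < n2 → ⌊(n1 : ℝ) * √θ⌋₊ = ⌊(n2 : ℝ) * √θ⌋₊ → False := by
    intro n1 hn1 n2 hn2 hlt hfl
    obtain ⟨g1, t1, a1, a2, hna, hga, hta, hcopa, ha1, ha2, -⟩ := (hN n1 hn1).2.2
    obtain ⟨g2, t2, b1, b2, hnb, hgb, htb, hcopb, hb1, hb2, -⟩ := (hN n2 hn2).2.2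
    set m := n2 - n1 with hm
    have hm1 : 1 ≤ m := by omega
    have hmr : (m : ℝ) = n2 - n1 := by rw [hm, Nat.cast_sub hlt.le]
    have hmlt : (m : ℝ) * √θ < 1 := by
      have h1 := Nat.lt_floor_add_one ((n2 : ℝ) * √θ)
      have h2 := Nat.floor_le (by positivity : 0 ≤ (n1 : ℝ) * √θ)
      rw [hfl] at h2
      rw [hmr, sub_mul]; linarith
    obtain ⟨g, t, s1, s2, hmg, hg, hS1, hS2, hcop⟩ :=
      exists_reduce m (g2 * b1 - g1 * a1) (g2 * b2 - g1 * a2) hm1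
    have ht1 : 1 ≤ t := by
      rcases Nat.eq_zero_or_pos t with h0 | h0
      · rw [h0, mul_zero] at hmg; omega
      · exact h0
    apply h
    refine ⟨t, s1, s2, ht1, hcop, ?_, ?_, ?_⟩
    · have htm : (t : ℝ) ≤ m := by
        have : t ≤ m := by rw [hmg]; exact Nat.le_mul_of_pos_left t (by omega)
        exact_mod_cast this
      have h1 : (t : ℝ) * √θ < 1 := by nlinarith
      have h2 : (t : ℝ) ^ 2 * θ = ((t : ℝ) * √θ) ^ 2 := by
        rw [mul_pow, Real.sq_sqrt hθ.le]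
      rw [h2]
      exact pow_lt_one₀ (by positivity) h1 (by norm_num)
    · apply abs_div_lt hg hmg hS1
      have e : (m : ℝ) * y1 - ((g2 * b1 - g1 * a1 : ℤ) : ℝ)
          = ((n2 : ℝ) * y1 - ((g2 * b1 : ℤ) : ℝ)) - ((n1 : ℝ) * y1 - ((g1 * a1 : ℤ) : ℝ)) := by
        rw [hmr]; push_cast; ring
      rw [e]
      exact lt_of_le_of_lt (abs_sub _ _) (by linarith)
    · apply abs_div_lt hg hmg hS2
      have e : (m : ℝ) * y2 - ((g2 * b2 - g1 * a2 : ℤ) : ℝ)
          = ((n2 : ℝ) * y2 - ((g2 * b2 : ℤ) : ℝ)) - ((n1 : ℝ) * y2 - ((g1 * a2 : ℤ) : ℝ)) := by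
        rw [hmr]; push_cast; ring
      rw [e]
      exact lt_of_le_of_lt (abs_sub _ _) (by linarith)
  have hinj : Set.InjOn (fun n : ℕ => ⌊(n : ℝ) * √θ⌋₊) N := by
    intro n1 hn1 n2 hn2 heq
    rcases lt_trichotomy n1 n2 with hlt | heq' | hgt
    · exact (key n1 hn1 n2 hn2 hlt heq).elim
    · exact heq'
    · exact (key n2 hn2 n1 hn1 hgt heq.symm).elim
  have hsub : N.image (fun n : ℕ => ⌊(n : ℝ) * √θ⌋₊) ⊆ Finset.range (⌊(M : ℝ) * √θ⌋₊ + 1) := by
    intro v hv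
    obtain ⟨n, hn, rfl⟩ := Finset.mem_image.1 hv
    rw [Finset.mem_range]
    have : ⌊(n : ℝ) * √θ⌋₊ ≤ ⌊(M : ℝ) * √θ⌋₊ := by
      apply Nat.floor_le_floor
      have : (n : ℝ) ≤ M := by exact_mod_cast (hN n hn).2.1.le
      exact mul_le_mul_of_nonneg_right this hsq.le
    omega
  have hcard : N.card ≤ ⌊(M : ℝ) * √θ⌋₊ + 1 := by
    rw [← Finset.card_image_of_injOn hinj]
    simpa using Finset.card_le_card hsub
  have h1 := Nat.floor_le (by positivity : 0 ≤ (M : ℝ) * √θ)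
  have h2 : (N.card : ℝ) ≤ (⌊(M : ℝ) * √θ⌋₊ : ℝ) + 1 := by exact_mod_cast hcard
  linarith

/-- case with a very good approximation -/
lemma count_yes (y1 y2 θ : ℝ) (hθ : 0 < θ) (hθ' : θ ≤ 1 / 16) (M : ℕ) (N : Finset ℕ)
    (hN : ∀ n ∈ N, 1 ≤ n ∧ n < M ∧ Res y1 y2 θ M n)
    (t : ℕ) (s1 s2 : ℤ) (ht : 1 ≤ t) (hcop : Cop t s1 s2) (htθ : (t : ℝ) ^ 2 * θ < 1)
    (hs1 : |(t : ℝ) * y1 - s1| < 2 * θ) (hs2 : |(t : ℝ) * y2 - s2| < 2 * θ) :
    (N.card : ℝ) ≤ 4 * √M + 2 * M * √θ := by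
  classical
  have hsq : 0 < √θ := Real.sqrt_pos.2 hθ
  have hsq4 : √θ ≤ 1 / 4 := by
    rw [Real.sqrt_le_left (by norm_num)]; norm_num; linarith
  have hsqsq : √θ * √θ = θ := Real.mul_self_sqrt hθ.le
  have ht0 : (1 : ℝ) ≤ t := by exact_mod_cast ht
  have htsq : (t : ℝ) * √θ < 1 := by
    by_contra hcon
    push Not at hcon
    have : 1 ≤ ((t : ℝ) * √θ) ^ 2 := one_le_pow₀ hcon
    rw [mul_pow, Real.sq_sqrt hθ.le] at this
    linarith
  have htθ4 : (t : ℝ) * θ < 1 / 4 := by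
    rw [← hsqsq]; nlinarith
  set ε : ℝ := max |(t : ℝ) * y1 - s1| |(t : ℝ) * y2 - s2| with hε
  have hε0 : 0 ≤ ε := le_max_of_le_left (abs_nonneg _)
  have hε1 : |(t : ℝ) * y1 - s1| ≤ ε := le_max_left _ _
  have hε2 : |(t : ℝ) * y2 - s2| ≤ ε := le_max_right _ _
  have hεθ : ε < 2 * θ := max_lt hs1 hs2
  set N1 := N.filter (fun n : ℕ => 2 * ε * n < 1) with hN1
  set N2 := N.filter (fun n : ℕ => ¬ 2 * ε * n < 1) with hN2
  have hsplit : N.card = N1.card + N2.card := by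
    rw [hN1, hN2]; exact (Finset.card_filter_add_card_filter_not _).symm
  have hb1 : (N1.card : ℝ) ≤ 4 * √M := by
    rcases N1.eq_empty_or_nonempty with h0 | h0
    · rw [h0]; simp
    have hmain : ∀ n ∈ N1, (∃ c : ℕ, 1 ≤ c ∧ n = c * t) ∧ M ≤ 16 * t ^ 2 := by
      intro n hn
      obtain ⟨hnN, hnε⟩ := Finset.mem_filter.1 hn
      obtain ⟨hn1, hnM, g, t', w1, w2, hng, hg, ht', hcop', hw1, hw2, hMt⟩ := hN n hnN
      have hcl : (n : ℝ) * ε + t * θ ≤ 1 := by nlinarith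
      have e1 := prop_of_close hw1 hε1 hcl ht
      have e2 := prop_of_close hw2 hε2 hcl ht
      obtain ⟨c, hc, hc1, hc2⟩ := mult_of_prop ht hcop e1 e2
      have htt : t' = t := prim_unique hg hcop' hcop (by rw [← hng, hc]) hc1 hc2
      refine ⟨⟨c, ?_, hc⟩, by rw [← htt]; exact hMt⟩
      rcases Nat.eq_zero_or_pos c with h0 | h0
      · rw [h0, zero_mul] at hc; omega
      · exact h0
    obtain ⟨n₀, hn₀⟩ := h0
    have hMt := (hmain n₀ hn₀).2
    have hsub : N1 ⊆ (Finset.Icc 1 (M / t)).image (fun c => c * t) := by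
      intro n hn
      obtain ⟨⟨c, hc1, hc⟩, -⟩ := hmain n hn
      rw [Finset.mem_image]
      refine ⟨c, ?_, hc.symm⟩
      rw [Finset.mem_Icc]
      refine ⟨hc1, ?_⟩
      rw [Nat.le_div_iff_mul_le (by omega)]
      rw [← hc]
      exact (hN n (Finset.mem_filter.1 hn).1).2.1.le
    have hcard : N1.card ≤ M / t := by
      refine (Finset.card_le_card hsub).trans (Finset.card_image_le.trans ?_)
      simp
    have h1 : (N1.card : ℝ) ≤ M / t := by
      have : ((M / t : ℕ) : ℝ) ≤ (M : ℝ) / t := Nat.cast_div_le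
      exact le_trans (by exact_mod_cast hcard) this
    have h2 : √(M : ℝ) ≤ 4 * t := by
      rw [Real.sqrt_le_left (by positivity)]
      have : (M : ℝ) ≤ 16 * t ^ 2 := by exact_mod_cast hMt
      nlinarith
    have h3 : (M : ℝ) / t ≤ 4 * √M := by
      rw [div_le_iff₀ (by linarith)]
      have h4 : √(M : ℝ) * √M = M := Real.mul_self_sqrt (by positivity)
      nlinarith [Real.sqrt_nonneg (M : ℝ)]
    linarith
  have hb2 : (N2.card : ℝ) ≤ 2 * M * √θ := by
    rcases N2.eq_empty_or_nonempty with h0 | h0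
    · rw [h0]; simp; positivity
    have hεpos : 0 < ε := by
      obtain ⟨n₀, hn₀⟩ := h0
      have h7 := (Finset.mem_filter.1 hn₀).2
      rcases hε0.eq_or_lt with h8 | h8
      · exfalso
        apply h7
        rw [← h8]
        norm_num
      · exact h8
    set f : ℕ → ℕ := fun n => ⌊2 * ε * (n : ℝ)⌋₊ with hf
    set L : ℕ := ⌈2 * θ / ε⌉₊ with hL
    have hfib : ∀ v ∈ N2.image f, (N2.filter (fun n => f n = v)).card ≤ L := by
      intro v hv
      set Φ := N2.filter (fun n => f n = v) with hΦ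
      have hΦne : Φ.Nonempty := by
        obtain ⟨n, hn, hnv⟩ := Finset.mem_image.1 hv
        exact ⟨n, Finset.mem_filter.2 ⟨hn, hnv⟩⟩
      set n0 := Φ.min' hΦne with hn0
      have hn0mem : n0 ∈ Φ := Finset.min'_mem _ _
      have hLpos : 0 < L := Nat.ceil_pos.2 (by positivity)
      have hsub : Φ ⊆ (Finset.range L).image (fun c => n0 + c * t) := by
        intro n hn
        rw [Finset.mem_image]
        have hle : n0 ≤ n := Finset.min'_le _ _ hn
        rcases eq_or_lt_of_le hle with heq | hlt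
        · exact ⟨0, Finset.mem_range.2 hLpos, by rw [zero_mul, add_zero]; exact heq⟩
        obtain ⟨hnN2, hnv⟩ := Finset.mem_filter.1 hn
        obtain ⟨hn0N2, hn0v⟩ := Finset.mem_filter.1 hn0mem
        obtain ⟨g1, t1, a1, a2, hna, hga, hta, hcopa, ha1, ha2, -⟩ :=
          (hN n0 (Finset.mem_filter.1 hn0N2).1).2.2
        obtain ⟨g2, t2, b1, b2, hnb, hgb, htb, hcopb, hb1, hb2, -⟩ :=
          (hN n (Finset.mem_filter.1 hnN2).1).2.2
        set m := n - n0 with hm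
        have hmr : (m : ℝ) = n - n0 := by rw [hm, Nat.cast_sub hle]
        have hmlt : 2 * ε * (m : ℝ) < 1 := by
          have h1 := Nat.lt_floor_add_one (2 * ε * (n : ℝ))
          have h2 := Nat.floor_le (by positivity : 0 ≤ 2 * ε * (n0 : ℝ))
          have h3 : ⌊2 * ε * (n : ℝ)⌋₊ = ⌊2 * ε * (n0 : ℝ)⌋₊ := by
            have e1 : f n = v := hnv
            have e2 : f n0 = v := hn0v
            exact e1.trans e2.symm
          rw [h3] at h1
          rw [hmr, mul_sub]; linarith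
        have hcl : (m : ℝ) * ε + t * (2 * θ) ≤ 1 := by nlinarith
        have hm1 : |(m : ℝ) * y1 - ((g2 * b1 - g1 * a1 : ℤ) : ℝ)| < 2 * θ := by
          have e : (m : ℝ) * y1 - ((g2 * b1 - g1 * a1 : ℤ) : ℝ)
            = ((n : ℝ) * y1 - ((g2 * b1 : ℤ) : ℝ)) - ((n0 : ℝ) * y1 - ((g1 * a1 : ℤ) : ℝ)) := by
            rw [hmr]; push_cast; ring
          rw [e]
          exact lt_of_le_of_lt (abs_sub _ _) (by linarith)
        have hm2 : |(m : ℝ) * y2 - ((g2 * b2 - g1 * a2 : ℤ) : ℝ)| < 2 * θ := by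
          have e : (m : ℝ) * y2 - ((g2 * b2 - g1 * a2 : ℤ) : ℝ)
            = ((n : ℝ) * y2 - ((g2 * b2 : ℤ) : ℝ)) - ((n0 : ℝ) * y2 - ((g1 * a2 : ℤ) : ℝ)) := by
            rw [hmr]; push_cast; ring
          rw [e]
          exact lt_of_le_of_lt (abs_sub _ _) (by linarith)
        have e1 := prop_of_close hm1 hε1 hcl ht
        have e2 := prop_of_close hm2 hε2 hcl ht
        obtain ⟨c, hc, hc1, hc2⟩ := mult_of_prop ht hcop e1 e2
        refine ⟨c, ?_, by omega⟩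
        have hcε : (c : ℝ) * ε < 2 * θ := by
          rcases max_choice |(t : ℝ) * y1 - s1| |(t : ℝ) * y2 - s2| with hmx | hmx
          · have : (c : ℝ) * ε = |(m : ℝ) * y1 - ((g2 * b1 - g1 * a1 : ℤ) : ℝ)| := by
              rw [hε, hmx, hc1, hc, ← abs_of_nonneg (by positivity : (0 : ℝ) ≤ c), ← abs_mul]
              congr 1
              push_cast
              ring
            rw [this]; exact hm1
          · have : (c : ℝ) * ε = |(m : ℝ) * y2 - ((g2 * b2 - g1 * a2 : ℤ) : ℝ)| := by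
              rw [hε, hmx, hc2, hc, ← abs_of_nonneg (by positivity : (0 : ℝ) ≤ c), ← abs_mul]
              congr 1
              push_cast
              ring
            rw [this]; exact hm2
        rw [Finset.mem_range]
        have h5 : (c : ℝ) < 2 * θ / ε := by rw [lt_div_iff₀ hεpos]; exact hcε
        exact Nat.lt_ceil.2 h5
      refine (Finset.card_le_card hsub).trans (Finset.card_image_le.trans ?_)
      simp
    have hcard := Finset.card_le_mul_card_image N2 L hfib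
    have himg : (N2.image f).card ≤ ⌊2 * ε * (M : ℝ)⌋₊ := by
      have hsub : N2.image f ⊆ Finset.Icc 1 ⌊2 * ε * (M : ℝ)⌋₊ := by
        intro v hv
        obtain ⟨n, hn, rfl⟩ := Finset.mem_image.1 hv
        rw [Finset.mem_Icc]
        obtain ⟨hnN, hnε⟩ := Finset.mem_filter.1 hn
        constructor
        · rw [hf]
          simp only
          rw [Nat.le_floor_iff (by positivity)]
          push_cast
          linarith
        · apply Nat.floor_le_floor
          have : (n : ℝ) ≤ M := by exact_mod_cast (hN n hnN).2.1.le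
          exact mul_le_mul_of_nonneg_left this (by positivity)
      have := Finset.card_le_card hsub
      simpa using this
    have h1 : (N2.card : ℝ) ≤ L * (2 * ε * M) := by
      calc (N2.card : ℝ) ≤ ((L * (N2.image f).card : ℕ) : ℝ) := by exact_mod_cast hcard
        _ = (L : ℝ) * ((N2.image f).card : ℝ) := by push_cast; ring
        _ ≤ (L : ℝ) * (⌊2 * ε * (M : ℝ)⌋₊ : ℝ) := by
            apply mul_le_mul_of_nonneg_left _ (by positivity)
            exact_mod_cast himg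
        _ ≤ L * (2 * ε * M) := by
            apply mul_le_mul_of_nonneg_left _ (by positivity)
            exact Nat.floor_le (by positivity)
    have hL4 : (L : ℝ) * ε ≤ 4 * θ := by
      have h2 : (L : ℝ) < 2 * θ / ε + 1 := Nat.ceil_lt_add_one (by positivity)
      have h3 : 2 * θ / ε * ε = 2 * θ := by field_simp
      nlinarith
    have h4 : (L : ℝ) * (2 * ε * M) ≤ 8 * θ * M := by
      have hM0 : (0 : ℝ) ≤ M := by positivity
      nlinarith
    have h5 : 8 * θ * M ≤ 2 * M * √θ := by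
      have hM0 : (0 : ℝ) ≤ M := by positivity
      have h9 : √θ * √θ ≤ (1 / 4) * √θ := mul_le_mul_of_nonneg_right hsq4 hsq.le
      rw [hsqsq] at h9
      nlinarith
    linarith
  rw [hsplit]
  push_cast
  linarith

theorem count_res (y1 y2 θ : ℝ) (hθ : 0 < θ) (hθ' : θ ≤ 1 / 16) (M : ℕ) (N : Finset ℕ)
    (hN : ∀ n ∈ N, 1 ≤ n ∧ n < M ∧ Res y1 y2 θ M n) :
    (N.card : ℝ) ≤ 4 * √M + 2 * M * √θ := by
  classical
  rcases N.eq_empty_or_nonempty with h0 | h0
  · rw [h0]; simp; positivity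
  by_cases h : ∃ (t : ℕ) (s1 s2 : ℤ), 1 ≤ t ∧ Cop t s1 s2 ∧ (t : ℝ) ^ 2 * θ < 1 ∧
      |(t : ℝ) * y1 - s1| < 2 * θ ∧ |(t : ℝ) * y2 - s2| < 2 * θ
  · obtain ⟨t, s1, s2, ht, hcop, htθ, h1, h2⟩ := h
    exact count_yes y1 y2 θ hθ hθ' M N hN t s1 s2 ht hcop htθ h1 h2
  · have h1 := count_no y1 y2 θ hθ M N hN h
    obtain ⟨n, hn⟩ := h0
    have hM : 1 ≤ M := by have := (hN n hn).2.1; omega
    have hM' : (1 : ℝ) ≤ √M := by
      rw [Real.one_le_sqrt]; exact_mod_cast hM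
    have : 0 ≤ (M : ℝ) * √θ := by positivity
    linarith

end Run7.h542.Kh
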