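import Mathlib

set_option autoImplicit false
open MeasureTheory Filter Topology
open scoped BigOperators ENNReal

namespace Run7.h542.Kh

section
variable {X : Type*} [MeasurableSpace X] (μ : Measure X) [IsFiniteMeasure μ]
  (A : ℕ → Set X)

/-- counting function -/
noncomputable def Sfun (N : ℕ) (x : X) : ℝ := ∑ q ∈ Finset.range N, (A q).indicator (fun _ => (1 : ℝ)) x

lemma Sfun_nonneg (N : ℕ) (x : X) : 0 ≤ Sfun A N x :=
  Finset.sum_nonneg fun q _ => Set.indicator_nonneg (fun _ _ => zero_le_one) x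

lemma integral_Sfun (hA : ∀ q, MeasurableSet (A q)) (N : ℕ) (V : Set X) :
    ∫ x in V, Sfun A N x ∂μ = ∑ q ∈ Finset.range N, μ.real (A q ∩ V) := by
  unfold Sfun
  rw [integral_finsetSum]
  · apply Finset.sum_congr rfl
    intro q _
    rw [integral_indicator_const _ (hA q)]
    simp [measureReal_restrict_apply (hA q)]
  · intro q _
    exact (integrable_const (1 : ℝ)).indicator (hA q)

lemma integral_Sfun_sq (hA : ∀ q, MeasurableSet (A q)) (N : ℕ) :
    ∫ x, (Sfun A N x) ^ 2 ∂μ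
      = ∑ q ∈ Finset.range N, ∑ r ∈ Finset.range N, μ.real (A q ∩ A r) := by
  have h1 : ∀ x, (Sfun A N x) ^ 2 = ∑ q ∈ Finset.range N, ∑ r ∈ Finset.range N,
      (A q ∩ A r).indicator (fun _ => (1 : ℝ)) x := by
    intro x
    unfold Sfun
    rw [sq, Finset.sum_mul_sum]
    apply Finset.sum_congr rfl; intro q _
    apply Finset.sum_congr rfl; intro r _
    by_cases hq : x ∈ A q
    · by_cases hr : x ∈ A r
      · rw [Set.indicator_of_mem hq, Set.indicator_of_mem hr,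
          Set.indicator_of_mem (show x ∈ A q ∩ A r from ⟨hq, hr⟩)]; norm_num
      · rw [Set.indicator_of_notMem hr,
          Set.indicator_of_notMem (show x ∉ A q ∩ A r from fun h => hr h.2)]; simp
    · rw [Set.indicator_of_notMem hq,
        Set.indicator_of_notMem (show x ∉ A q ∩ A r from fun h => hq h.1)]; simp
  simp_rw [h1]
  rw [integral_finsetSum]
  · apply Finset.sum_congr rfl; intro q _
    rw [integral_finsetSum]
    · apply Finset.sum_congr rfl; intro r _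
      rw [integral_indicator_const _ ((hA q).inter (hA r))]
      simp
    · intro r _
      exact (integrable_const (1 : ℝ)).indicator ((hA q).inter (hA r))
  · intro q _
    apply integrable_finsetSum
    intro r _
    exact (integrable_const (1 : ℝ)).indicator ((hA q).inter (hA r))

lemma Sfun_integrable (hA : ∀ q, MeasurableSet (A q)) (N : ℕ) : Integrable (Sfun A N) μ := by
  unfold Sfun
  apply integrable_finsetSum
  intro q _
  exact (integrable_const (1 : ℝ)).indicator (hA q)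

lemma Sfun_measurable (hA : ∀ q, MeasurableSet (A q)) (N : ℕ) : Measurable (Sfun A N) := by
  unfold Sfun
  apply Finset.measurable_sum
  intro q _
  exact measurable_const.indicator (hA q)

lemma Sfun_le (N : ℕ) (x : X) : Sfun A N x ≤ N := by
  unfold Sfun
  calc ∑ q ∈ Finset.range N, (A q).indicator (fun _ => (1 : ℝ)) x
      ≤ ∑ q ∈ Finset.range N, (1 : ℝ) := Finset.sum_le_sum fun q _ =>
        Set.indicator_le_self' (fun _ _ => zero_le_one) x
    _ = N := by simp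

lemma Sfun_sq_integrable (hA : ∀ q, MeasurableSet (A q)) (N : ℕ) :
    Integrable (fun x => (Sfun A N x) ^ 2) μ := by
  refine Integrable.of_bound ((Sfun_measurable A hA N).pow_const 2).aestronglyMeasurable
    ((N : ℝ) ^ 2) ?_
  filter_upwards with x
  rw [Real.norm_of_nonneg (sq_nonneg _)]
  exact pow_le_pow_left₀ (Sfun_nonneg A N x) (Sfun_le A N x) 2

/-- Cauchy-Schwarz in the form used here. -/
lemma sum_le_of_second_moment (hA : ∀ q, MeasurableSet (A q)) (N : ℕ) (V : Set X) (a : ℝ)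
    (ha : 0 < a) :
    ∑ q ∈ Finset.range N, μ.real (A q ∩ V) ≤ a / 2 * μ.real V +
      1 / (2 * a) * ∑ q ∈ Finset.range N, ∑ r ∈ Finset.range N, μ.real (A q ∩ A r) := by
  rw [← integral_Sfun μ A hA N V, ← integral_Sfun_sq μ A hA N]
  have h1 : ∀ x, Sfun A N x ≤ a / 2 + 1 / (2 * a) * (Sfun A N x) ^ 2 := by
    intro x
    have h2 : 0 ≤ (a - Sfun A N x) ^ 2 := sq_nonneg _
    have h3 : a / 2 + 1 / (2 * a) * (Sfun A N x) ^ 2 - Sfun A N x
        = (a - Sfun A N x) ^ 2 / (2 * a) := by field_simp; ring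
    have h4 : 0 ≤ (a - Sfun A N x) ^ 2 / (2 * a) := by positivity
    linarith
  calc ∫ x in V, Sfun A N x ∂μ
      ≤ ∫ x in V, (a / 2 + 1 / (2 * a) * (Sfun A N x) ^ 2) ∂μ := by
        apply integral_mono (Sfun_integrable _ A hA N).restrict
        · exact ((integrable_const _).add ((Sfun_sq_integrable μ A hA N).const_mul _)).restrict
        · exact h1
    _ = a / 2 * μ.real V + 1 / (2 * a) * ∫ x in V, (Sfun A N x) ^ 2 ∂μ := by
        rw [integral_add (integrable_const _)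
          ((Sfun_sq_integrable μ A hA N).const_mul _).restrict, integral_const,
          integral_const_mul]
        simp
        ring
    _ ≤ a / 2 * μ.real V + 1 / (2 * a) * ∫ x, (Sfun A N x) ^ 2 ∂μ := by
        have h5 : ∫ x in V, (Sfun A N x) ^ 2 ∂μ ≤ ∫ x, (Sfun A N x) ^ 2 ∂μ :=
          setIntegral_le_integral (Sfun_sq_integrable μ A hA N)
            (Eventually.of_forall fun x => sq_nonneg _)
        have h6 : 0 ≤ 1 / (2 * a) := by positivity
        have := mul_le_mul_of_nonneg_left h5 h6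
        linarith

lemma sum_le_of_bounded (hA : ∀ q, MeasurableSet (A q)) (N : ℕ) (V : Set X)
    (hV : MeasurableSet V) (M : ℝ) (hM : ∀ x ∈ V, Sfun A N x ≤ M) :
    ∑ q ∈ Finset.range N, μ.real (A q ∩ V) ≤ M * μ.real V := by
  rw [← integral_Sfun μ A hA N V]
  calc ∫ x in V, Sfun A N x ∂μ ≤ ∫ x in V, M ∂μ := by
        apply setIntegral_mono_on (Sfun_integrable _ A hA N).integrableOn
          (integrable_const _).integrableOn hV hM
    _ = M * μ.real V := by rw [setIntegral_const]; simp [mul_comm]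

end

/-- half-open dyadic cell of the plane -/
def cell (n : ℕ) (i : ℤ × ℤ) : Set (ℝ × ℝ) :=
  Set.Ico ((i.1 : ℝ) / 2 ^ n) (((i.1 : ℝ) + 1) / 2 ^ n) ×ˢ
    Set.Ico ((i.2 : ℝ) / 2 ^ n) (((i.2 : ℝ) + 1) / 2 ^ n)

/-- the cell containing a point -/
noncomputable def cidx (n : ℕ) (x : ℝ × ℝ) : ℤ × ℤ := (⌊x.1 * 2 ^ n⌋, ⌊x.2 * 2 ^ n⌋)

lemma mem_cell_iff (n : ℕ) (i : ℤ × ℤ) (x : ℝ × ℝ) : x ∈ cell n i ↔ cidx n x = i := by
  have h2 : (0 : ℝ) < 2 ^ n := by positivity
  unfold cell cidx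
  rw [Set.mem_prod, Set.mem_Ico, Set.mem_Ico, Prod.ext_iff, Int.floor_eq_iff, Int.floor_eq_iff,
    div_le_iff₀ h2, div_le_iff₀ h2, lt_div_iff₀ h2, lt_div_iff₀ h2]

lemma measurableSet_cell' (n : ℕ) (i : ℤ × ℤ) : MeasurableSet (cell n i) :=
  measurableSet_Ico.prod measurableSet_Ico

lemma volume_cell (n : ℕ) (i : ℤ × ℤ) : volume (cell n i) = ENNReal.ofReal ((1 / 2 ^ n) ^ 2) := by
  unfold cell
  rw [Measure.volume_eq_prod, Measure.prod_prod, Real.volume_Ico, Real.volume_Ico,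
    ← ENNReal.ofReal_mul (by rw [← sub_div]; simp)]
  congr 1
  rw [← sub_div, ← sub_div]
  ring

lemma dist_cell (n : ℕ) (i : ℤ × ℤ) (x z : ℝ × ℝ) (hx : x ∈ cell n i) (hz : z ∈ cell n i) :
    dist x z ≤ 1 / 2 ^ n := by
  unfold cell at hx hz
  rw [Set.mem_prod, Set.mem_Ico, Set.mem_Ico] at hx hz
  obtain ⟨⟨a1, a2⟩, a3, a4⟩ := hx
  obtain ⟨⟨b1, b2⟩, b3, b4⟩ := hz
  rw [add_div] at a2 a4 b2 b4
  rw [Prod.dist_eq, max_le_iff, Real.dist_eq, Real.dist_eq, abs_le, abs_le]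
  refine ⟨⟨by linarith, by linarith⟩, by linarith, by linarith⟩

/-- Lebesgue measure on the closed unit square -/
noncomputable abbrev μsq : Measure (ℝ × ℝ) := volume.restrict (Set.Icc (0 : ℝ × ℝ) 1)

/-- half-open unit square -/
def Om : Set (ℝ × ℝ) := Set.Ico (0 : ℝ) 1 ×ˢ Set.Ico (0 : ℝ) 1

lemma Om_subset : Om ⊆ Set.Icc (0 : ℝ × ℝ) 1 := by
  rintro ⟨a, b⟩ ⟨h1, h2⟩
  exact ⟨⟨h1.1, h2.1⟩, ⟨h1.2.le, h2.2.le⟩⟩

lemma measurableSet_Om : MeasurableSet Om := measurableSet_Ico.prod measurableSet_Ico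

lemma μsq_compl_Om : μsq Omᶜ = 0 := by
  rw [Measure.restrict_apply measurableSet_Om.compl]
  have hsub : Omᶜ ∩ Set.Icc (0 : ℝ × ℝ) 1 ⊆
      (({1} : Set ℝ) ×ˢ (Set.univ : Set ℝ)) ∪ ((Set.univ : Set ℝ) ×ˢ ({1} : Set ℝ)) := by
    rintro ⟨a, b⟩ ⟨h1, ⟨h2, h3⟩, ⟨h4, h5⟩⟩
    simp only [Prod.fst_zero, Prod.snd_zero, Prod.fst_one, Prod.snd_one] at h2 h3 h4 h5
    by_contra hcon
    simp only [Set.mem_union, Set.mem_prod, Set.mem_singleton_iff, Set.mem_univ, and_true,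
      true_and, not_or] at hcon
    exact h1 ⟨⟨h2, lt_of_le_of_ne h4 hcon.1⟩, ⟨h3, lt_of_le_of_ne h5 hcon.2⟩⟩
  refine measure_mono_null hsub ?_
  rw [measure_union_null_iff]
  constructor
  · rw [Measure.volume_eq_prod, Measure.prod_prod]; simp
  · rw [Measure.volume_eq_prod, Measure.prod_prod]; simp

instance : IsFiniteMeasure μsq := by
  refine ⟨?_⟩
  rw [Measure.restrict_apply_univ]
  exact isCompact_Icc.measure_lt_top

lemma cidx_mem {n : ℕ} {x : ℝ × ℝ} (hx : x ∈ Om) :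
    (cidx n x).1 ∈ Finset.Ico (0 : ℤ) (2 ^ n) ∧ (cidx n x).2 ∈ Finset.Ico (0 : ℤ) (2 ^ n) := by
  obtain ⟨⟨h1, h2⟩, h3, h4⟩ := hx
  have hp : (0 : ℝ) < 2 ^ n := by positivity
  unfold cidx
  simp only [Finset.mem_Ico]
  refine ⟨⟨Int.floor_nonneg.2 (by positivity), ?_⟩, Int.floor_nonneg.2 (by positivity), ?_⟩
  · rw [Int.floor_lt]; push_cast; nlinarith
  · rw [Int.floor_lt]; push_cast; nlinarith

lemma cell_subset_Om {n : ℕ} {i : ℤ × ℤ} (h1 : i.1 ∈ Finset.Ico (0 : ℤ) (2 ^ n))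
    (h2 : i.2 ∈ Finset.Ico (0 : ℤ) (2 ^ n)) : cell n i ⊆ Om := by
  rintro x ⟨⟨a1, a2⟩, a3, a4⟩
  have hp : (0 : ℝ) < 2 ^ n := by positivity
  rw [Finset.mem_Ico] at h1 h2
  have e1 : (0 : ℝ) ≤ i.1 := by exact_mod_cast h1.1
  have e2 : (0 : ℝ) ≤ i.2 := by exact_mod_cast h2.1
  have e3 : (i.1 : ℝ) + 1 ≤ 2 ^ n := by
    have : i.1 + 1 ≤ 2 ^ n := by omega
    exact_mod_cast this
  have e4 : (i.2 : ℝ) + 1 ≤ 2 ^ n := by
    have : i.2 + 1 ≤ 2 ^ n := by omega
    exact_mod_cast this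
  refine ⟨⟨le_trans (by positivity) a1, lt_of_lt_of_le a2 ?_⟩,
    ⟨le_trans (by positivity) a3, lt_of_lt_of_le a4 ?_⟩⟩
  · rw [div_le_one hp]; exact e3
  · rw [div_le_one hp]; exact e4

end Run7.h542.Kh
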