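import Mathlib
import Pool.Agent.Run7.h542.KhProb

set_option autoImplicit false
open MeasureTheory Filter Topology
open scoped BigOperators ENNReal

namespace Run7.h542.Kh

/-- Global second moment bound plus local first moment bound give full measure. -/
theorem full_measure (A : ℕ → Set (ℝ × ℝ)) (hA : ∀ q, MeasurableSet (A q)) (w : ℕ → ℝ)
    (hw : ∀ q, 0 ≤ w q) (hdiv : ¬ Summable w) (C c : ℝ) (hC : 0 < C) (hc : 0 < c)
    (h2 : ∀ N, ∑ q ∈ Finset.range N, ∑ r ∈ Finset.range N, μsq.real (A q ∩ A r)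
      ≤ C * (1 + ∑ q ∈ Finset.range N, w q) ^ 2)
    (h1 : ∀ n : ℕ, ∃ q₀ : ℕ, ∀ q, q₀ ≤ q → ∀ i : ℤ × ℤ, i.1 ∈ Finset.Ico (0 : ℤ) (2 ^ n) →
      i.2 ∈ Finset.Ico (0 : ℤ) (2 ^ n) → c * w q * (1 / 2 ^ n) ^ 2 ≤ μsq.real (A q ∩ cell n i)) :
    ∀ᵐ x ∂μsq, {q | x ∈ A q}.Infinite := by
  classical
  set FM : ℕ → Set (ℝ × ℝ) := fun M => Om ∩ ⋂ N, {x | Sfun A N x ≤ M} with hFM
  have hFMm : ∀ M, MeasurableSet (FM M) := fun M =>
    measurableSet_Om.inter (MeasurableSet.iInter fun N =>
      measurableSet_le (Sfun_measurable A hA N) measurable_const)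
  have hcover : {x | ¬ {q | x ∈ A q}.Infinite} ⊆ Omᶜ ∪ ⋃ M, FM M := by
    intro x hx
    have hfin : {q | x ∈ A q}.Finite := Set.not_infinite.1 hx
    by_cases hOm : x ∈ Om
    · right
      rw [Set.mem_iUnion]
      refine ⟨hfin.toFinset.card, hOm, ?_⟩
      rw [Set.mem_iInter]
      intro N
      show Sfun A N x ≤ _
      unfold Sfun
      calc ∑ q ∈ Finset.range N, (A q).indicator (fun _ => (1 : ℝ)) x
          = ∑ q ∈ (Finset.range N).filter (fun q => x ∈ A q), (1 : ℝ) := by
            rw [Finset.sum_filter]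
            apply Finset.sum_congr rfl
            intro q _
            by_cases h : x ∈ A q
            · rw [Set.indicator_of_mem h, if_pos h]
            · rw [Set.indicator_of_notMem h, if_neg h]
        _ = (((Finset.range N).filter (fun q => x ∈ A q)).card : ℝ) := by simp
        _ ≤ (hfin.toFinset.card : ℝ) := by
            have hs : (Finset.range N).filter (fun q => x ∈ A q) ⊆ hfin.toFinset := by
              intro q hq
              rw [Set.Finite.mem_toFinset]
              exact (Finset.mem_filter.1 hq).2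
            exact_mod_cast Finset.card_le_card hs
    · left; exact hOm
  rw [ae_iff]
  refine measure_mono_null hcover ?_
  rw [measure_union_null_iff]
  refine ⟨μsq_compl_Om, ?_⟩
  rw [measure_iUnion_null_iff]
  intro M
  by_contra hpos
  have hpos' : 0 < μsq (FM M) := pos_iff_ne_zero.2 hpos
  obtain ⟨K, hKsub, hK, hKpos⟩ := (hFMm M).exists_lt_isCompact hpos'
  set κ : ℝ := μsq.real K with hκ
  have hκpos : 0 < κ := ENNReal.toReal_pos hKpos.ne' (measure_ne_top _ _)
  set τ : ℝ := 2 * C / (c * κ) with hτ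
  have hτpos : 0 < τ := by positivity
  set η : ℝ := c * κ / (2 * τ) with hη
  have hηpos : 0 < η := by positivity
  -- thickening
  have hth := tendsto_measure_cthickening_of_isCompact (μ := μsq) hK
  have hlt : μsq K < μsq K + ENNReal.ofReal η :=
    ENNReal.lt_add_right (measure_ne_top _ _) (by simpa using hηpos)
  have hev := (tendsto_order.1 hth).2 _ hlt
  obtain ⟨δ, hδpos, hδ⟩ : ∃ δ : ℝ, 0 < δ ∧ μsq (Metric.cthickening δ K) < μsq K + ENNReal.ofReal η := by
    obtain ⟨ε, hε, hball⟩ := Metric.eventually_nhds_iff.1 hev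
    refine ⟨ε / 2, by positivity, hball ?_⟩
    rw [Real.dist_eq, sub_zero, abs_of_pos (by positivity)]
    linarith
  obtain ⟨n, hn⟩ : ∃ n : ℕ, (1 / 2 : ℝ) ^ n < δ := exists_pow_lt_of_lt_one hδpos (by norm_num)
  have hn' : (1 : ℝ) / 2 ^ n ≤ δ := by rw [← one_div_pow]; exact hn.le
  set I : Finset (ℤ × ℤ) := ((Finset.Ico (0 : ℤ) (2 ^ n)) ×ˢ (Finset.Ico (0 : ℤ) (2 ^ n))).filter
    (fun i => ∃ x ∈ K, cidx n x = i) with hI
  set U : Set (ℝ × ℝ) := ⋃ i ∈ I, cell n i with hU
  have hIm : ∀ i ∈ I, i.1 ∈ Finset.Ico (0 : ℤ) (2 ^ n) ∧ i.2 ∈ Finset.Ico (0 : ℤ) (2 ^ n) := by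
    intro i hi
    exact Finset.mem_product.1 (Finset.mem_filter.1 hi).1
  have hKU : K ⊆ U := by
    intro x hx
    have hxOm : x ∈ Om := (hKsub hx).1
    rw [hU]
    simp only [Set.mem_iUnion]
    refine ⟨cidx n x, ?_, (mem_cell_iff _ _ _).2 rfl⟩
    rw [hI, Finset.mem_filter, Finset.mem_product]
    exact ⟨cidx_mem hxOm, x, hx, rfl⟩
  have hUth : U ⊆ Metric.cthickening δ K := by
    intro x hx
    rw [hU] at hx
    simp only [Set.mem_iUnion] at hx
    obtain ⟨i, hi, hxi⟩ := hx
    obtain ⟨z, hzK, hzi⟩ := (Finset.mem_filter.1 hi).2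
    have hz : z ∈ cell n i := (mem_cell_iff _ _ _).2 hzi
    exact Metric.mem_cthickening_of_dist_le x z δ K hzK
      ((dist_cell n i x z hxi hz).trans hn')
  have hUm : MeasurableSet U := by
    rw [hU]; exact Finset.measurableSet_biUnion _ fun i _ => measurableSet_cell' n i
  have hUK : μsq.real (U \ K) ≤ η := by
    have h3 : μsq (U \ K) ≤ μsq (Metric.cthickening δ K \ K) :=
      measure_mono (Set.sdiff_subset_sdiff_left hUth)
    have h4 : μsq (Metric.cthickening δ K \ K) = μsq (Metric.cthickening δ K) - μsq K :=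
      measure_sdiff (Metric.self_subset_cthickening K) hK.measurableSet.nullMeasurableSet
        (measure_ne_top _ _)
    have h5 : μsq (U \ K) ≤ ENNReal.ofReal η := by
      rw [h4] at h3
      refine h3.trans ?_
      rw [tsub_le_iff_left]
      exact hδ.le
    exact ENNReal.toReal_le_of_le_ofReal hηpos.le h5
  have hdisj : Set.PairwiseDisjoint (↑I) (cell n) := by
    intro i _ j _ hij
    rw [Function.onFun, Set.disjoint_left]
    intro x hx hx'
    rw [mem_cell_iff] at hx hx'
    exact hij (hx.symm.trans hx')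
  have hcellr : ∀ i ∈ I, μsq.real (cell n i) = (1 / 2 ^ n) ^ 2 := by
    intro i hi
    have hsub : cell n i ⊆ Set.Icc (0 : ℝ × ℝ) 1 :=
      (cell_subset_Om (hIm i hi).1 (hIm i hi).2).trans Om_subset
    rw [measureReal_def, Measure.restrict_apply (measurableSet_cell' n i),
      Set.inter_eq_left.2 hsub, volume_cell, ENNReal.toReal_ofReal (by positivity)]
  have hUr : κ ≤ I.card * (1 / 2 ^ n) ^ 2 := by
    have h3 : μsq.real U = I.card * (1 / 2 ^ n) ^ 2 := by
      rw [hU, measureReal_biUnion_finset hdisj (fun i _ => measurableSet_cell' n i),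
        Finset.sum_congr rfl hcellr, Finset.sum_const, nsmul_eq_mul]
    rw [← h3]
    exact measureReal_mono hKU (measure_ne_top _ _)
  obtain ⟨q₀, hq₀⟩ := h1 n
  set W : ℕ → ℝ := fun N => ∑ q ∈ Finset.range N, w q with hW
  have hWnn : ∀ N, 0 ≤ W N := fun N => Finset.sum_nonneg fun q _ => hw q
  have hWtop : Tendsto W atTop atTop := (not_summable_iff_tendsto_nat_atTop_of_nonneg hw).1 hdiv
  -- lower bound
  have hlow : ∀ N, q₀ ≤ N → c * κ * (W N - W q₀) ≤ ∑ q ∈ Finset.range N, μsq.real (A q ∩ U) := by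
    intro N hN
    have h3 : ∀ q, q₀ ≤ q → c * κ * w q ≤ μsq.real (A q ∩ U) := by
      intro q hq
      have h4 : A q ∩ U = ⋃ i ∈ I, (A q ∩ cell n i) := by
        rw [hU, Set.inter_iUnion₂]
      rw [h4, measureReal_biUnion_finset
        (fun i hi j hj hij => (hdisj hi hj hij).mono Set.inter_subset_right Set.inter_subset_right)
        (fun i _ => (hA q).inter (measurableSet_cell' n i))]
      calc c * κ * w q ≤ c * (I.card * (1 / 2 ^ n) ^ 2) * w q := by
            apply mul_le_mul_of_nonneg_right _ (hw q)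
            exact mul_le_mul_of_nonneg_left hUr hc.le
        _ = ∑ i ∈ I, c * w q * (1 / 2 ^ n) ^ 2 := by
            rw [Finset.sum_const, nsmul_eq_mul]; ring
        _ ≤ _ := Finset.sum_le_sum fun i hi => hq₀ q hq i (hIm i hi).1 (hIm i hi).2
    have h4 : W N - W q₀ = ∑ q ∈ Finset.Ico q₀ N, w q := by
      rw [Finset.sum_Ico_eq_sub _ hN]
    rw [h4, Finset.mul_sum]
    calc ∑ q ∈ Finset.Ico q₀ N, c * κ * w q ≤ ∑ q ∈ Finset.Ico q₀ N, μsq.real (A q ∩ U) :=
          Finset.sum_le_sum fun q hq => h3 q (Finset.mem_Ico.1 hq).1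
      _ ≤ ∑ q ∈ Finset.range N, μsq.real (A q ∩ U) := by
          apply Finset.sum_le_sum_of_subset_of_nonneg
          · intro q hq; exact Finset.mem_range.2 (Finset.mem_Ico.1 hq).2
          · intro q _ _; exact measureReal_nonneg
  have hup : ∀ N, ∑ q ∈ Finset.range N, μsq.real (A q ∩ U) ≤ M * κ + c * κ / 2 * (1 + W N) := by
    intro N
    have h3 : ∑ q ∈ Finset.range N, μsq.real (A q ∩ U)
        ≤ ∑ q ∈ Finset.range N, μsq.real (A q ∩ K) +
          ∑ q ∈ Finset.range N, μsq.real (A q ∩ (U \ K)) := by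
      rw [← Finset.sum_add_distrib]
      apply Finset.sum_le_sum
      intro q _
      have : A q ∩ U ⊆ (A q ∩ K) ∪ (A q ∩ (U \ K)) := by
        rintro x ⟨hx1, hx2⟩
        by_cases hxK : x ∈ K
        · exact Or.inl ⟨hx1, hxK⟩
        · exact Or.inr ⟨hx1, hx2, hxK⟩
      exact (measureReal_mono this).trans (measureReal_union_le _ _)
    have h4 := sum_le_of_bounded μsq A hA N K hK.measurableSet M (fun x hx => by
      have := (hKsub hx).2
      rw [Set.mem_iInter] at this
      exact this N)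
    have hapos : 0 < τ * (1 + W N) := mul_pos hτpos (by linarith [hWnn N])
    have h5 := sum_le_of_second_moment μsq A hA N (U \ K) (τ * (1 + W N)) hapos
    have h6 : τ * (1 + W N) / 2 * μsq.real (U \ K) ≤ c * κ / 4 * (1 + W N) := by
      have e : τ * (1 + W N) / 2 * η = c * κ / 4 * (1 + W N) := by
        rw [hη]; field_simp; norm_num
      rw [← e]
      exact mul_le_mul_of_nonneg_left hUK (by positivity)
    have h7 : 1 / (2 * (τ * (1 + W N))) * ∑ q ∈ Finset.range N, ∑ r ∈ Finset.range N,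
        μsq.real (A q ∩ A r) ≤ c * κ / 4 * (1 + W N) := by
      have h8 : (0 : ℝ) < 1 + W N := by linarith [hWnn N]
      calc 1 / (2 * (τ * (1 + W N))) * ∑ q ∈ Finset.range N, ∑ r ∈ Finset.range N,
            μsq.real (A q ∩ A r)
          ≤ 1 / (2 * (τ * (1 + W N))) * (C * (1 + W N) ^ 2) :=
            mul_le_mul_of_nonneg_left (h2 N) (by positivity)
        _ = c * κ / 4 * (1 + W N) := by rw [hτ]; field_simp; ring
    linarith
  -- contradiction
  have hck : 0 < c * κ := by positivity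
  obtain ⟨N, hN1, hN2⟩ := ((hWtop.eventually_gt_atTop
    ((2 * (M * κ + c * κ / 2 + c * κ * W q₀)) / (c * κ))).and (eventually_ge_atTop q₀)).exists
  have h3 := hlow N hN2
  have h4 := hup N
  rw [div_lt_iff₀ hck] at hN1
  nlinarith

end Run7.h542.Kh
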