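import Mathlib

set_option autoImplicit false
open MeasureTheory
open scoped BigOperators ENNReal

namespace Run7.h542.Kh

/-- points of the unit interval that are close to `y`-shifted fractions with both denominators -/
def Ov (y α β : ℝ) (q r : ℕ) : Set ℝ :=
  {x | 0 ≤ x ∧ x ≤ 1 ∧ ∃ a b : ℤ, |(q : ℝ) * x - y - a| < α ∧ |(r : ℝ) * x - y - b| < β}

lemma card_Icc_le (u v : ℝ) (h : u ≤ v) : ((Finset.Icc ⌈u⌉ ⌊v⌋).card : ℝ) ≤ v - u + 1 := by
  rw [Int.card_Icc]
  rcases le_total (⌊v⌋ + 1 - ⌈u⌉) 0 with h0 | h0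
  · rw [Int.toNat_of_nonpos h0]; simp; linarith
  · have h1 : (((⌊v⌋ + 1 - ⌈u⌉).toNat : ℤ) : ℝ) = ((⌊v⌋ + 1 - ⌈u⌉ : ℤ) : ℝ) := by
      rw [Int.toNat_of_nonneg h0]
    have h2 : (((⌊v⌋ + 1 - ⌈u⌉).toNat : ℕ) : ℝ) = ((⌊v⌋ + 1 - ⌈u⌉ : ℤ) : ℝ) := by
      rw [← h1]; push_cast; rfl
    rw [h2]
    push_cast
    have := Int.floor_le v
    have := Int.le_ceil u
    linarith

lemma cover_bound (d : ℕ) (hd : 1 ≤ d) (ρ : ℝ) (hρ : 0 < ρ) (hρ' : ρ ≤ 1 / 2) (E : Set ℝ)
    (hE : ∀ x ∈ E, 0 ≤ x ∧ x ≤ 1) (K : Finset ℤ) (c : ℤ → ℝ)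
    (h : ∀ x ∈ E, ∃ k ∈ K, ∃ v : ℤ, |x - (c k + v / d)| < ρ) :
    volume E ≤ ENNReal.ofReal (K.card * (6 * d * ρ)) := by
  have hd' : (1 : ℝ) ≤ d := by exact_mod_cast hd
  set V : ℤ → Finset ℤ := fun k => Finset.Icc ⌈(d : ℝ) * (-c k - ρ)⌉ ⌊(d : ℝ) * (1 - c k + ρ)⌋
    with hV
  have hsub : E ⊆ ⋃ k ∈ K, ⋃ v ∈ V k, Set.Ioo (c k + v / d - ρ) (c k + v / d + ρ) := by
    intro x hx
    obtain ⟨k, hk, v, hv⟩ := h x hx
    obtain ⟨h0, h1⟩ := hE x hx
    rw [abs_lt] at hv
    simp only [Set.mem_iUnion]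
    refine ⟨k, hk, v, ?_, ⟨by linarith, by linarith⟩⟩
    have hvd : (v : ℝ) / d * d = v := by field_simp
    simp only [hV, Finset.mem_Icc]
    constructor
    · rw [Int.ceil_le]
      have : -c k - ρ < v / d := by linarith
      nlinarith
    · rw [Int.le_floor]
      have : (v : ℝ) / d < 1 - c k + ρ := by linarith
      nlinarith
  have hcard : ∀ k, ((V k).card : ℝ) ≤ 3 * d := by
    intro k
    have := card_Icc_le ((d : ℝ) * (-c k - ρ)) ((d : ℝ) * (1 - c k + ρ)) (by nlinarith)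
    refine this.trans ?_
    nlinarith
  calc volume E ≤ volume (⋃ k ∈ K, ⋃ v ∈ V k, Set.Ioo (c k + v / d - ρ) (c k + v / d + ρ)) :=
        measure_mono hsub
    _ ≤ ∑ k ∈ K, volume (⋃ v ∈ V k, Set.Ioo (c k + v / d - ρ) (c k + v / d + ρ)) :=
        measure_biUnion_finset_le _ _
    _ ≤ ∑ k ∈ K, ∑ v ∈ V k, volume (Set.Ioo (c k + v / d - ρ) (c k + v / d + ρ)) :=
        Finset.sum_le_sum fun k _ => measure_biUnion_finset_le _ _
    _ = ∑ k ∈ K, ∑ v ∈ V k, ENNReal.ofReal (2 * ρ) := by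
        apply Finset.sum_congr rfl; intro k _
        apply Finset.sum_congr rfl; intro v _
        rw [Real.volume_Ioo]; congr 1; ring
    _ ≤ ∑ k ∈ K, ENNReal.ofReal (6 * d * ρ) := by
        apply Finset.sum_le_sum
        intro k _
        rw [Finset.sum_const, nsmul_eq_mul, ← ENNReal.ofReal_natCast, ← ENNReal.ofReal_mul (by positivity)]
        apply ENNReal.ofReal_le_ofReal
        have := hcard k
        nlinarith
    _ = ENNReal.ofReal (K.card * (6 * d * ρ)) := by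
        rw [Finset.sum_const, nsmul_eq_mul,
          ENNReal.ofReal_mul (by positivity : (0 : ℝ) ≤ (K.card : ℝ)), ENNReal.ofReal_natCast]

/-- the basic overlap bound -/
lemma ov_bound (y α β : ℝ) (hα : 0 < α) (hα' : α ≤ 1 / 2) (hβ : 0 < β) (hβ' : β ≤ 1 / 2)
    (d q r : ℕ) (hd : 1 ≤ d) (hq : 1 ≤ q) (hr : 1 ≤ r) (hcop : Nat.Coprime q r)
    (K : Finset ℤ)
    (hK : ∀ k : ℤ, |(k : ℝ) + ((r : ℝ) - q) * y| < r * α + q * β → k ∈ K) :
    volume (Ov y α β (d * q) (d * r))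
      ≤ ENNReal.ofReal (K.card * (6 * min (α / q) (β / r))) := by
  have hd' : (1 : ℝ) ≤ d := by exact_mod_cast hd
  have hq' : (1 : ℝ) ≤ q := by exact_mod_cast hq
  have hr' : (1 : ℝ) ≤ r := by exact_mod_cast hr
  have hdpos : (0 : ℝ) < d := by linarith
  have hqpos : (0 : ℝ) < q := by linarith
  have hrpos : (0 : ℝ) < r := by linarith
  -- Bezout
  obtain ⟨g, h, hgh⟩ : ∃ g h : ℤ, (r : ℤ) * g - q * h = 1 := by
    have : IsCoprime (r : ℤ) (q : ℤ) := (Nat.isCoprime_iff_coprime.2 hcop.symm)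
    obtain ⟨u, v, huv⟩ := this
    exact ⟨u, -v, by linarith⟩
  have hparam : ∀ a b k : ℤ, (r : ℤ) * a - q * b = k → ∃ v : ℤ, a = k * g + q * v ∧
      b = k * h + r * v := by
    intro a b k hk
    have h1 : (r : ℤ) * (a - k * g) = q * (b - k * h) := by
      have : k * ((r : ℤ) * g - q * h) = k := by rw [hgh, mul_one]
      linarith
    have h2 : (q : ℤ) ∣ r * (a - k * g) := ⟨_, h1⟩
    have h3 : (q : ℤ) ∣ a - k * g :=
      IsCoprime.dvd_of_dvd_mul_left (Nat.isCoprime_iff_coprime.2 hcop) h2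
    obtain ⟨v, hv⟩ := h3
    refine ⟨v, by linarith, ?_⟩
    have hq0 : (q : ℤ) ≠ 0 := by positivity
    have : (q : ℤ) * (r * v) = q * (b - k * h) := by rw [← h1, hv]; ring
    have := mul_left_cancel₀ hq0 this
    linarith
  have hmain : ∀ x ∈ Ov y α β (d * q) (d * r), ∃ k ∈ K, ∃ v : ℤ,
      |x - ((y + k * g) / (d * q) + v / d)| < α / (d * q) ∧
      |x - ((y + k * h) / (d * r) + v / d)| < β / (d * r) := by
    rintro x ⟨h0, h1, a, b, ha, hb⟩
    push_cast at ha hb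
    obtain ⟨v, hav, hbv⟩ := hparam a b _ rfl
    refine ⟨(r : ℤ) * a - q * b, ?_, v, ?_, ?_⟩
    · apply hK
      push_cast
      have e : ((r : ℝ) * a - q * b) + ((r : ℝ) - q) * y
          = q * ((d : ℝ) * r * x - y - b) - r * ((d : ℝ) * q * x - y - a) := by ring
      rw [e]
      calc |(q : ℝ) * ((d : ℝ) * r * x - y - b) - r * ((d : ℝ) * q * x - y - a)|
          ≤ |(q : ℝ) * ((d : ℝ) * r * x - y - b)| + |(r : ℝ) * ((d : ℝ) * q * x - y - a)| :=
            abs_sub _ _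
        _ = q * |(d : ℝ) * r * x - y - b| + r * |(d : ℝ) * q * x - y - a| := by
            rw [abs_mul, abs_mul, abs_of_pos hqpos, abs_of_pos hrpos]
        _ < r * α + q * β := by nlinarith
    · have hav' : (a : ℝ) = ((r : ℤ) * a - q * b : ℤ) * g + q * v := by exact_mod_cast hav
      have e : x - ((y + (((r : ℤ) * a - q * b : ℤ) : ℝ) * g) / (d * q) + v / d)
          = ((d : ℝ) * q * x - y - a) / (d * q) := by
        rw [hav']
        field_simp
        ring
      rw [e, abs_div, abs_of_pos (by positivity : (0 : ℝ) < d * q)]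
      exact div_lt_div_of_pos_right ha (by positivity)
    · have hbv' : (b : ℝ) = ((r : ℤ) * a - q * b : ℤ) * h + r * v := by exact_mod_cast hbv
      have e : x - ((y + (((r : ℤ) * a - q * b : ℤ) : ℝ) * h) / (d * r) + v / d)
          = ((d : ℝ) * r * x - y - b) / (d * r) := by
        rw [hbv']
        field_simp
        ring
      rw [e, abs_div, abs_of_pos (by positivity : (0 : ℝ) < d * r)]
      exact div_lt_div_of_pos_right hb (by positivity)
  have hE : ∀ x ∈ Ov y α β (d * q) (d * r), 0 ≤ x ∧ x ≤ 1 := fun x hx => ⟨hx.1, hx.2.1⟩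
  rcases le_total (α / q) (β / r) with hle | hle
  · rw [min_eq_left hle]
    have hb := cover_bound d hd (α / (d * q)) (by positivity)
      (by rw [div_le_iff₀ (by positivity)]; nlinarith) _ hE K (fun k => (y + k * g) / (d * q))
      (fun x hx => by
        obtain ⟨k, hk, v, h1, -⟩ := hmain x hx
        exact ⟨k, hk, v, h1⟩)
    have e : (6 : ℝ) * d * (α / (d * q)) = 6 * (α / q) := by field_simp
    rw [e] at hb
    exact hb
  · rw [min_eq_right hle]
    have hb := cover_bound d hd (β / (d * r)) (by positivity)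
      (by rw [div_le_iff₀ (by positivity)]; nlinarith) _ hE K (fun k => (y + k * h) / (d * r))
      (fun x hx => by
        obtain ⟨k, hk, v, -, h1⟩ := hmain x hx
        exact ⟨k, hk, v, h1⟩)
    have e : (6 : ℝ) * d * (β / (d * r)) = 6 * (β / r) := by field_simp
    rw [e] at hb
    exact hb

/-- the bound when the resonance parameter is small -/
lemma ov_small (y α β : ℝ) (hα : 0 < α) (hα' : α ≤ 1 / 2) (hβ : 0 < β) (hβ' : β ≤ 1 / 2)
    (d q r : ℕ) (hd : 1 ≤ d) (hq : 1 ≤ q) (hr : 1 ≤ r) (hcop : Nat.Coprime q r)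
    (hΔ : r * α + q * β ≤ 1 / 2) :
    volume (Ov y α β (d * q) (d * r)) ≤ ENNReal.ofReal (6 * min (α / q) (β / r)) := by
  classical
  set z : ℝ := ((r : ℝ) - q) * y with hz
  set K : Finset ℤ := {-round z} with hKdef
  have hK : ∀ k : ℤ, |(k : ℝ) + z| < r * α + q * β → k ∈ K := by
    intro k hk
    rw [hKdef, Finset.mem_singleton]
    have h1 : |z - round z| ≤ 1 / 2 := abs_sub_round z
    have h2 : |((k + round z : ℤ) : ℝ)| < 1 := by
      push_cast
      have e : (k : ℝ) + round z = (k + z) - (z - round z) := by ring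
      rw [e]
      exact lt_of_le_of_lt (abs_sub _ _) (by linarith)
    have h3 : |k + round z| < 1 := by exact_mod_cast h2
    have := Int.abs_lt_one_iff.1 h3
    omega
  have := ov_bound y α β hα hα' hβ hβ' d q r hd hq hr hcop K hK
  rw [hKdef, Finset.card_singleton] at this
  simpa using this

/-- the bound when the resonance parameter is not small -/
lemma ov_large (y α β : ℝ) (hα : 0 < α) (hα' : α ≤ 1 / 2) (hβ : 0 < β) (hβ' : β ≤ 1 / 2)
    (d q r : ℕ) (hd : 1 ≤ d) (hq : 1 ≤ q) (hr : 1 ≤ r) (hcop : Nat.Coprime q r)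
    (hΔ : 1 / 2 ≤ r * α + q * β) :
    volume (Ov y α β (d * q) (d * r)) ≤ ENNReal.ofReal (48 * α * β) := by
  have hqpos : (0 : ℝ) < q := by exact_mod_cast hq
  have hrpos : (0 : ℝ) < r := by exact_mod_cast hr
  set Δ : ℝ := r * α + q * β with hΔd
  set z : ℝ := ((r : ℝ) - q) * y with hz
  set K : Finset ℤ := Finset.Icc ⌈-z - Δ⌉ ⌊-z + Δ⌋ with hKdef
  have hK : ∀ k : ℤ, |(k : ℝ) + z| < Δ → k ∈ K := by
    intro k hk
    rw [abs_lt] at hk
    rw [hKdef, Finset.mem_Icc, Int.ceil_le, Int.le_floor]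
    constructor <;> linarith
  have h1 := ov_bound y α β hα hα' hβ hβ' d q r hd hq hr hcop K hK
  refine h1.trans (ENNReal.ofReal_le_ofReal ?_)
  have h2 : (K.card : ℝ) ≤ 4 * Δ := by
    have := card_Icc_le (-z - Δ) (-z + Δ) (by linarith)
    rw [← hKdef] at this
    linarith
  have h3 : Δ * min (α / q) (β / r) ≤ 2 * (α * β) := by
    have e1 : min (α / q) (β / r) ≤ α / q := min_le_left _ _
    have e2 : min (α / q) (β / r) ≤ β / r := min_le_right _ _
    have f1 : r * α * min (α / q) (β / r) ≤ r * α * (β / r) :=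
      mul_le_mul_of_nonneg_left e2 (by positivity)
    have f2 : q * β * min (α / q) (β / r) ≤ q * β * (α / q) :=
      mul_le_mul_of_nonneg_left e1 (by positivity)
    have g1 : r * α * (β / r) = α * β := by field_simp
    have g2 : q * β * (α / q) = α * β := by field_simp
    rw [hΔd, add_mul]
    linarith
  have h4 : 0 ≤ min (α / q) (β / r) := by positivity
  calc (K.card : ℝ) * (6 * min (α / q) (β / r)) ≤ 4 * Δ * (6 * min (α / q) (β / r)) :=
        mul_le_mul_of_nonneg_right h2 (by positivity)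
    _ = 24 * (Δ * min (α / q) (β / r)) := by ring
    _ ≤ 48 * α * β := by nlinarith

end Run7.h542.Kh
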