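import Mathlib
import Pool.Agent.Run7.h542.KhCount2

set_option autoImplicit false
open scoped BigOperators

namespace Run7.h542.Kh

/-- admissible pair of cofactors for the radius `α` -/
def Pair (y1 y2 α : ℝ) (p : ℕ × ℕ) : Prop :=
  1 ≤ p.1 ∧ 1 ≤ p.2 ∧ p.1 ≠ p.2 ∧ (p.2 : ℝ) * α < 1 / 2 ∧
    Res y1 y2 (2 * ((max p.1 p.2 : ℕ) : ℝ) * α) (max p.1 p.2) (max p.1 p.2 - min p.1 p.2)

lemma sum_sqrt (X : ℕ) : ∑ M ∈ Finset.Icc 1 X, 1 / √(M : ℝ) ≤ 2 * √X := by
  induction X with
  | zero => simp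
  | succ X ih =>
    rw [Finset.sum_Icc_succ_top (by omega)]
    have h1 : 0 < √((X + 1 : ℕ) : ℝ) := Real.sqrt_pos.2 (by positivity)
    have h2 : √(X : ℝ) ≤ √((X + 1 : ℕ) : ℝ) := Real.sqrt_le_sqrt (by push_cast; linarith)
    have h3 : √((X + 1 : ℕ) : ℝ) * √((X + 1 : ℕ) : ℝ) = X + 1 := by
      rw [Real.mul_self_sqrt (by positivity)]; push_cast; ring
    have h4 : √(X : ℝ) * √(X : ℝ) = X := Real.mul_self_sqrt (by positivity)
    have h5 : 1 / √((X + 1 : ℕ) : ℝ) ≤ 2 * (√((X + 1 : ℕ) : ℝ) - √(X : ℝ)) := by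
      rw [div_le_iff₀ h1]
      nlinarith [Real.sqrt_nonneg (X : ℝ)]
    linarith

lemma sum_threehalf (X : ℕ) (hX : 1 ≤ X) :
    ∑ M ∈ Finset.Icc 1 X, 1 / ((M : ℝ) * √(M : ℝ)) ≤ 3 - 2 / √X := by
  induction X, hX using Nat.le_induction with
  | base => norm_num
  | succ X hX ih =>
    rw [Finset.sum_Icc_succ_top (by omega)]
    set a := √(X : ℝ) with ha
    set b := √((X + 1 : ℕ) : ℝ) with hb
    have hX' : (1 : ℝ) ≤ X := by exact_mod_cast hX
    have ha0 : 0 < a := Real.sqrt_pos.2 (by linarith)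
    have hab : a ≤ b := Real.sqrt_le_sqrt (by push_cast; linarith)
    have hb0 : 0 < b := lt_of_lt_of_le ha0 hab
    have hb2 : b * b = ((X + 1 : ℕ) : ℝ) := Real.mul_self_sqrt (by positivity)
    have ha2 : a * a = (X : ℝ) := Real.mul_self_sqrt (by positivity)
    have h5 : 1 / ((((X + 1 : ℕ) : ℝ)) * b) ≤ 2 / a - 2 / b := by
      rw [div_sub_div _ _ ha0.ne' hb0.ne', div_le_div_iff₀ (by positivity) (by positivity), ← hb2]
      have h6 : b * b - a * a = 1 := by rw [hb2, ha2]; push_cast; ring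
      have h7 : (2 * b - a * 2) * (b + a) = 2 := by linarith [h6, mul_comm a b]
      have h8 : a * b * (b + a) ≤ 2 * (b * b * b) := by nlinarith [mul_pos ha0 hb0]
      have h9 : 0 < b + a := by positivity
      by_contra hcon
      push Not at hcon
      have h10 := mul_lt_mul_of_pos_right hcon h9
      have h11 : (2 * b - a * 2) * (b * b * b) * (b + a) = 2 * (b * b * b) := by
        calc (2 * b - a * 2) * (b * b * b) * (b + a)
            = ((2 * b - a * 2) * (b + a)) * (b * b * b) := by ring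
          _ = 2 * (b * b * b) := by rw [h7]
      rw [h11, one_mul] at h10
      linarith
    linarith

lemma fiber_small (y1 y2 α : ℝ) (hα : 0 < α) (P : Finset (ℕ × ℕ))
    (hP : ∀ p ∈ P, Pair y1 y2 α p) (M : ℕ) (hM : 32 * α * M ≤ 1) :
    ((P.filter (fun p => max p.1 p.2 = M)).card : ℝ) ≤ 8 * √M + 4 * M * √(2 * M * α) := by
  classical
  rcases Nat.eq_zero_or_pos M with h0 | h0
  · have : P.filter (fun p => max p.1 p.2 = M) = ∅ := by
      rw [Finset.filter_eq_empty_iff]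
      intro p hp h
      have := (hP p hp).1
      have h2 : p.1 ≤ max p.1 p.2 := le_max_left _ _
      omega
    rw [this]; simp; positivity
  have hMr : (0 : ℝ) < M := by exact_mod_cast h0
  have hθ : 0 < 2 * (M : ℝ) * α := by positivity
  have hθ' : 2 * (M : ℝ) * α ≤ 1 / 16 := by linarith
  set A := P.filter (fun p => p.1 = M ∧ p.2 < M) with hA
  set B := P.filter (fun p => p.2 = M ∧ p.1 < M) with hB
  have hsub : P.filter (fun p => max p.1 p.2 = M) ⊆ A ∪ B := by
    intro p hp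
    obtain ⟨hpP, hpm⟩ := Finset.mem_filter.1 hp
    have hne := (hP p hpP).2.2.1
    rw [Finset.mem_union, hA, hB, Finset.mem_filter, Finset.mem_filter]
    rcases lt_or_gt_of_ne hne with h | h
    · right; rw [max_eq_right h.le] at hpm; exact ⟨hpP, hpm, by omega⟩
    · left; rw [max_eq_left h.le] at hpm; exact ⟨hpP, hpm, by omega⟩
  have hcA : (A.card : ℝ) ≤ 4 * √M + 2 * M * √(2 * M * α) := by
    have hinj : Set.InjOn (fun p : ℕ × ℕ => M - p.2) A := by
      intro p hp p' hp' h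
      obtain ⟨-, h1, h2⟩ := Finset.mem_filter.1 hp
      obtain ⟨-, h3, h4⟩ := Finset.mem_filter.1 hp'
      simp only at h
      ext
      · rw [h1, h3]
      · omega
    rw [← Finset.card_image_of_injOn hinj]
    apply count_res y1 y2 _ hθ hθ' M
    intro n hn
    obtain ⟨p, hp, rfl⟩ := Finset.mem_image.1 hn
    obtain ⟨hpP, h1, h2⟩ := Finset.mem_filter.1 hp
    have hpp := hP p hpP
    refine ⟨by omega, by have := hpp.2.1; omega, ?_⟩
    have h5 := hpp.2.2.2.2
    have h3 : max p.1 p.2 = M := by rw [max_eq_left (by omega)]; exact h1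
    have h4 : min p.1 p.2 = p.2 := min_eq_right (by omega)
    rw [h3, h4] at h5
    exact h5
  have hcB : (B.card : ℝ) ≤ 4 * √M + 2 * M * √(2 * M * α) := by
    have hinj : Set.InjOn (fun p : ℕ × ℕ => M - p.1) B := by
      intro p hp p' hp' h
      obtain ⟨-, h1, h2⟩ := Finset.mem_filter.1 hp
      obtain ⟨-, h3, h4⟩ := Finset.mem_filter.1 hp'
      simp only at h
      ext
      · omega
      · rw [h1, h3]
    rw [← Finset.card_image_of_injOn hinj]
    apply count_res y1 y2 _ hθ hθ' M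
    intro n hn
    obtain ⟨p, hp, rfl⟩ := Finset.mem_image.1 hn
    obtain ⟨hpP, h1, h2⟩ := Finset.mem_filter.1 hp
    have hpp := hP p hpP
    refine ⟨by omega, by have := hpp.1; omega, ?_⟩
    have h5 := hpp.2.2.2.2
    have h3 : max p.1 p.2 = M := by rw [max_eq_right (by omega)]; exact h1
    have h4 : min p.1 p.2 = p.1 := min_eq_left (by omega)
    rw [h3, h4] at h5
    exact h5
  have h1 : (P.filter (fun p => max p.1 p.2 = M)).card ≤ A.card + B.card :=
    (Finset.card_le_card hsub).trans (Finset.card_union_le _ _)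
  have h2 : ((P.filter (fun p => max p.1 p.2 = M)).card : ℝ) ≤ A.card + B.card := by
    exact_mod_cast h1
  linarith

lemma fiber_large (y1 y2 α : ℝ) (hα : 0 < α) (P : Finset (ℕ × ℕ))
    (hP : ∀ p ∈ P, Pair y1 y2 α p) (M : ℕ) :
    ((P.filter (fun p => max p.1 p.2 = M)).card : ℝ) ≤ 1 / α := by
  classical
  set A := P.filter (fun p => p.1 = M ∧ p.2 < M) with hA
  set B := P.filter (fun p => p.2 = M ∧ p.1 < M) with hB
  have hsub : P.filter (fun p => max p.1 p.2 = M) ⊆ A ∪ B := by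
    intro p hp
    obtain ⟨hpP, hpm⟩ := Finset.mem_filter.1 hp
    have hne := (hP p hpP).2.2.1
    rw [Finset.mem_union, hA, hB, Finset.mem_filter, Finset.mem_filter]
    rcases lt_or_gt_of_ne hne with h | h
    · right; rw [max_eq_right h.le] at hpm; exact ⟨hpP, hpm, by omega⟩
    · left; rw [max_eq_left h.le] at hpm; exact ⟨hpP, hpm, by omega⟩
  have hfl : ∀ r : ℕ, (r : ℝ) * α < 1 / 2 → r ≤ ⌊1 / (2 * α)⌋₊ := by
    intro r hr
    rw [Nat.le_floor_iff (by positivity), le_div_iff₀ (by positivity)]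
    linarith
  have hfl2 : (⌊1 / (2 * α)⌋₊ : ℝ) ≤ 1 / (2 * α) := Nat.floor_le (by positivity)
  have hcA : (A.card : ℝ) ≤ 1 / (2 * α) := by
    have hinj : Set.InjOn (fun p : ℕ × ℕ => p.2) A := by
      intro p hp p' hp' h
      obtain ⟨-, h1, h2⟩ := Finset.mem_filter.1 hp
      obtain ⟨-, h3, h4⟩ := Finset.mem_filter.1 hp'
      simp only at h
      ext
      · rw [h1, h3]
      · exact h
    have : A.card ≤ ⌊1 / (2 * α)⌋₊ := by
      rw [← Finset.card_image_of_injOn hinj]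
      have hs : A.image (fun p : ℕ × ℕ => p.2) ⊆ Finset.Icc 1 ⌊1 / (2 * α)⌋₊ := by
        intro n hn
        obtain ⟨p, hp, rfl⟩ := Finset.mem_image.1 hn
        have hpp := hP p (Finset.mem_filter.1 hp).1
        exact Finset.mem_Icc.2 ⟨hpp.2.1, hfl _ hpp.2.2.2.1⟩
      simpa using Finset.card_le_card hs
    exact le_trans (by exact_mod_cast this) hfl2
  have hcB : (B.card : ℝ) ≤ 1 / (2 * α) := by
    have hinj : Set.InjOn (fun p : ℕ × ℕ => p.1) B := by
      intro p hp p' hp' h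
      obtain ⟨-, h1, h2⟩ := Finset.mem_filter.1 hp
      obtain ⟨-, h3, h4⟩ := Finset.mem_filter.1 hp'
      simp only at h
      ext
      · exact h
      · rw [h1, h3]
    have : B.card ≤ ⌊1 / (2 * α)⌋₊ := by
      rw [← Finset.card_image_of_injOn hinj]
      have hs : B.image (fun p : ℕ × ℕ => p.1) ⊆ Finset.Icc 1 ⌊1 / (2 * α)⌋₊ := by
        intro n hn
        obtain ⟨p, hp, rfl⟩ := Finset.mem_image.1 hn
        obtain ⟨hpP, h1, h2⟩ := Finset.mem_filter.1 hp
        have hpp := hP p hpP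
        have := hfl _ hpp.2.2.2.1
        exact Finset.mem_Icc.2 ⟨hpp.1, by omega⟩
      simpa using Finset.card_le_card hs
    exact le_trans (by exact_mod_cast this) hfl2
  have h1 : (P.filter (fun p => max p.1 p.2 = M)).card ≤ A.card + B.card :=
    (Finset.card_le_card hsub).trans (Finset.card_union_le _ _)
  have h2 : ((P.filter (fun p => max p.1 p.2 = M)).card : ℝ) ≤ A.card + B.card := by
    exact_mod_cast h1
  have h3 : 1 / (2 * α) + 1 / (2 * α) = 1 / α := by field_simp; norm_num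
  linarith

theorem pair_sum (y1 y2 α : ℝ) (hα : 0 < α) (P : Finset (ℕ × ℕ))
    (hP : ∀ p ∈ P, Pair y1 y2 α p) :
    ∑ p ∈ P, 1 / ((max p.1 p.2 : ℕ) : ℝ) ^ 2 ≤ 90 := by
  classical
  obtain ⟨K, hK⟩ : ∃ K : ℕ, ∀ p ∈ P, max p.1 p.2 < K := by
    refine ⟨P.sup (fun p => max p.1 p.2) + 1, fun p hp => ?_⟩
    exact Nat.lt_succ_of_le (Finset.le_sup (f := fun p : ℕ × ℕ => max p.1 p.2) hp)
  have h1 : ∑ p ∈ P, 1 / ((max p.1 p.2 : ℕ) : ℝ) ^ 2
      = ∑ M ∈ Finset.Ioo 0 K, ((P.filter (fun p => max p.1 p.2 = M)).card : ℝ) / (M : ℝ) ^ 2 := by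
    rw [← Finset.sum_fiberwise_of_maps_to (s := P) (t := Finset.Ioo 0 K)
      (g := fun p : ℕ × ℕ => max p.1 p.2)]
    · apply Finset.sum_congr rfl
      intro M _
      rw [Finset.sum_congr rfl (g := fun _ => 1 / (M : ℝ) ^ 2)]
      · rw [Finset.sum_const, nsmul_eq_mul]; ring
      · intro p hp
        rw [(Finset.mem_filter.1 hp).2]
    · intro p hp
      rw [Finset.mem_Ioo]
      refine ⟨?_, hK p hp⟩
      have := (hP p hp).1
      have h2 : p.1 ≤ max p.1 p.2 := le_max_left _ _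
      omega
  rw [h1]
  set X : ℕ := ⌊1 / (32 * α)⌋₊ with hX
  have hX1 : (X : ℝ) ≤ 1 / (32 * α) := Nat.floor_le (by positivity)
  have hX2 : 1 / (32 * α) < X + 1 := Nat.lt_floor_add_one _
  -- bound each term
  have hterm : ∀ M ∈ Finset.Ioo 0 K,
      ((P.filter (fun p => max p.1 p.2 = M)).card : ℝ) / (M : ℝ) ^ 2
        ≤ (if M ≤ X then 8 * (1 / ((M : ℝ) * √M)) + 4 * √(2 * α) * (1 / √M) else 0)
          + (if M ≤ X then 0 else (1 / α) * ((M : ℝ) ^ 2)⁻¹) := by
    intro M hM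
    have hM0 : 0 < M := (Finset.mem_Ioo.1 hM).1
    have hMr : (0 : ℝ) < M := by exact_mod_cast hM0
    have hsM : 0 < √(M : ℝ) := Real.sqrt_pos.2 hMr
    have hsM2 : √(M : ℝ) * √M = M := Real.mul_self_sqrt hMr.le
    split_ifs with h
    · rw [add_zero]
      have h32 : 32 * α * M ≤ 1 := by
        have : (M : ℝ) ≤ 1 / (32 * α) := le_trans (by exact_mod_cast h) hX1
        rw [le_div_iff₀ (by positivity)] at this
        linarith
      have hf := fiber_small y1 y2 α hα P hP M h32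
      rw [div_le_iff₀ (by positivity)]
      refine hf.trans (le_of_eq ?_)
      have e1 : √(2 * (M : ℝ) * α) = √(2 * α) * √M := by
        rw [← Real.sqrt_mul (by positivity)]; congr 1; ring
      rw [e1]
      have e2 : (M : ℝ) ^ 2 = (√(M : ℝ) * √M) * M := by rw [hsM2]; ring
      rw [e2]
      field_simp
    · rw [zero_add]
      have hf := fiber_large y1 y2 α hα P hP M
      rw [div_eq_mul_inv]
      exact mul_le_mul_of_nonneg_right hf (by positivity)
  refine (Finset.sum_le_sum hterm).trans ?_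
  rw [Finset.sum_add_distrib]
  have hA : ∑ M ∈ Finset.Ioo 0 K,
      (if M ≤ X then 8 * (1 / ((M : ℝ) * √M)) + 4 * √(2 * α) * (1 / √M) else 0) ≤ 26 := by
    rw [← Finset.sum_filter]
    have hsub : (Finset.Ioo 0 K).filter (fun M => M ≤ X) ⊆ Finset.Icc 1 X := by
      intro M hM
      obtain ⟨h1, h2⟩ := Finset.mem_filter.1 hM
      have := (Finset.mem_Ioo.1 h1).1
      exact Finset.mem_Icc.2 ⟨by omega, h2⟩
    refine (Finset.sum_le_sum_of_subset_of_nonneg hsub (fun M _ _ => by positivity)).trans ?_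
    rw [Finset.sum_add_distrib, ← Finset.mul_sum, ← Finset.mul_sum]
    have h24 : 8 * ∑ M ∈ Finset.Icc 1 X, 1 / ((M : ℝ) * √(M : ℝ)) ≤ 24 := by
      rcases Nat.eq_zero_or_pos X with h0 | h0
      · rw [h0]; simp
      · have := sum_threehalf X h0
        have h5 : 0 ≤ 2 / √(X : ℝ) := by positivity
        linarith
    have h2 : 4 * √(2 * α) * ∑ M ∈ Finset.Icc 1 X, 1 / √(M : ℝ) ≤ 2 := by
      have h5 := sum_sqrt X
      have h6 : √(X : ℝ) ≤ √(1 / (32 * α)) := Real.sqrt_le_sqrt hX1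
      have h7 : √(2 * α) * √(1 / (32 * α)) = 1 / 4 := by
        rw [← Real.sqrt_mul (by positivity)]
        have : 2 * α * (1 / (32 * α)) = (1 / 4) ^ 2 := by field_simp; norm_num
        rw [this, Real.sqrt_sq (by norm_num)]
      have h8 : 0 ≤ √(2 * α) := Real.sqrt_nonneg _
      calc 4 * √(2 * α) * ∑ M ∈ Finset.Icc 1 X, 1 / √(M : ℝ)
          ≤ 4 * √(2 * α) * (2 * √(1 / (32 * α))) :=
            mul_le_mul_of_nonneg_left (by linarith) (by positivity)
        _ = 8 * (√(2 * α) * √(1 / (32 * α))) := by ring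
        _ = 2 := by rw [h7]; norm_num
    linarith
  have hB : ∑ M ∈ Finset.Ioo 0 K, (if M ≤ X then 0 else (1 / α) * ((M : ℝ) ^ 2)⁻¹) ≤ 64 := by
    have e : ∀ M ∈ Finset.Ioo 0 K, (if M ≤ X then 0 else (1 / α) * ((M : ℝ) ^ 2)⁻¹)
        = (if X < M then (1 / α) * ((M : ℝ) ^ 2)⁻¹ else 0) := by
      intro M _
      by_cases h : M ≤ X
      · rw [if_pos h, if_neg (by omega)]
      · rw [if_neg h, if_pos (by omega)]
    rw [Finset.sum_congr rfl e, ← Finset.sum_filter]
    have hsub : (Finset.Ioo 0 K).filter (fun M => X < M) ⊆ Finset.Ioo X K := by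
      intro M hM
      obtain ⟨h1, h2⟩ := Finset.mem_filter.1 hM
      exact Finset.mem_Ioo.2 ⟨h2, (Finset.mem_Ioo.1 h1).2⟩
    refine (Finset.sum_le_sum_of_subset_of_nonneg hsub (fun M _ _ => by positivity)).trans ?_
    rw [← Finset.mul_sum]
    have h5 : ∑ M ∈ Finset.Ioo X K, ((M : ℝ) ^ 2)⁻¹ ≤ 2 / (X + 1) := sum_Ioo_inv_sq_le X K
    have h6 : (2 : ℝ) / (X + 1) ≤ 64 * α := by
      rw [div_le_iff₀ (by positivity)]
      have : 1 ≤ 32 * α * (X + 1) := by
        rw [div_lt_iff₀ (by positivity)] at hX2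
        linarith
      linarith
    calc 1 / α * ∑ M ∈ Finset.Ioo X K, ((M : ℝ) ^ 2)⁻¹ ≤ 1 / α * (64 * α) :=
          mul_le_mul_of_nonneg_left (h5.trans h6) (by positivity)
      _ = 64 := by field_simp
  linarith

end Run7.h542.Kh
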