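import Mathlib
import Pool.Agent.Run7.h542.KhPair
import Pool.Agent.Run7.h542.KhOverlap
import Pool.Agent.Run7.h542.KhProb

set_option autoImplicit false
open MeasureTheory Filter Topology
open scoped BigOperators ENNReal

namespace Run7.h542.Kh

/-- good numerators -/
def Good (y1 y2 : ℝ) (q : ℕ) (a1 a2 : ℤ) : Prop :=
  ∀ (t : ℕ) (s1 s2 : ℤ), 1 ≤ t → Cop t s1 s2 → |(t : ℝ) * y1 - s1| < 1 / 2 →
    |(t : ℝ) * y2 - s2| < 1 / 2 →
    ∀ m : ℕ, m ∣ q → (m : ℤ) ∣ t * a1 + s1 → (m : ℤ) ∣ t * a2 + s2 → m ≤ 16 * t ^ 2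

/-- the restricted set -/
def AS (y1 y2 : ℝ) (ψ : ℕ → ℝ) (q : ℕ) : Set (ℝ × ℝ) :=
  {x | ∃ a1 a2 : ℤ, |(q : ℝ) * x.1 - y1 - a1| < ψ q ∧ |(q : ℝ) * x.2 - y2 - a2| < ψ q ∧
    Good y1 y2 q a1 a2}

lemma measurableSet_AS (y1 y2 : ℝ) (ψ : ℕ → ℝ) (q : ℕ) : MeasurableSet (AS y1 y2 ψ q) := by
  have : AS y1 y2 ψ q = ⋃ a1 : ℤ, ⋃ a2 : ℤ, {x : ℝ × ℝ | |(q : ℝ) * x.1 - y1 - a1| < ψ q ∧
      |(q : ℝ) * x.2 - y2 - a2| < ψ q ∧ Good y1 y2 q a1 a2} := by
    ext x; simp [AS]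
  rw [this]
  refine MeasurableSet.iUnion fun a1 => MeasurableSet.iUnion fun a2 => ?_
  by_cases h : Good y1 y2 q a1 a2
  · simp only [h, and_true]
    have o1 : IsOpen {x : ℝ × ℝ | |(q : ℝ) * x.1 - y1 - a1| < ψ q} :=
      isOpen_lt (by fun_prop) continuous_const
    have o2 : IsOpen {x : ℝ × ℝ | |(q : ℝ) * x.2 - y2 - a2| < ψ q} :=
      isOpen_lt (by fun_prop) continuous_const
    exact (o1.inter o2).measurableSet
  · simp [h]

/-- arithmetic core: an intersection with small resonance parameter gives an admissible pair -/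
lemma pair_of_inter (y1 y2 : ℝ) (ψ : ℕ → ℝ) (d q r : ℕ) (hq : 1 ≤ q) (hr : 1 ≤ r)
    (hcop : Nat.Coprime q r) (hne : q ≠ r) (hα : 0 < ψ (d * q)) (hβ : 0 < ψ (d * r))
    (hβα : ψ (d * r) ≤ ψ (d * q))
    (hΔ : r * ψ (d * q) + q * ψ (d * r) < 1 / 2) (x : ℝ × ℝ)
    (hx1 : x ∈ AS y1 y2 ψ (d * q)) (hx2 : x ∈ AS y1 y2 ψ (d * r)) :
    Pair y1 y2 (ψ (d * q)) (q, r) := by
  set α := ψ (d * q) with hαd
  set β := ψ (d * r) with hβd
  obtain ⟨a1, a2, ha1, ha2, hga⟩ := hx1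
  obtain ⟨b1, b2, hb1, hb2, hgb⟩ := hx2
  push_cast at ha1 ha2 hb1 hb2
  have hqr : (1 : ℝ) ≤ q := by exact_mod_cast hq
  have hrr : (1 : ℝ) ≤ r := by exact_mod_cast hr
  have hqpos : (0 : ℝ) < q := by linarith
  have hrpos : (0 : ℝ) < r := by linarith
  -- basic closeness
  have close : ∀ (y z : ℝ) (a b : ℤ), |(d : ℝ) * q * z - y - a| < α →
      |(d : ℝ) * r * z - y - b| < β →
      |((r : ℝ) - q) * y - ((q * b - r * a : ℤ) : ℝ)| < r * α + q * β := by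
    intro y z a b ha hb
    push_cast
    have e : ((r : ℝ) - q) * y - ((q : ℝ) * b - r * a)
        = q * ((d : ℝ) * r * z - y - b) - r * ((d : ℝ) * q * z - y - a) := by ring
    rw [e]
    calc |(q : ℝ) * ((d : ℝ) * r * z - y - b) - r * ((d : ℝ) * q * z - y - a)|
        ≤ |(q : ℝ) * ((d : ℝ) * r * z - y - b)| + |(r : ℝ) * ((d : ℝ) * q * z - y - a)| :=
          abs_sub _ _
      _ = q * |(d : ℝ) * r * z - y - b| + r * |(d : ℝ) * q * z - y - a| := by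
          rw [abs_mul, abs_mul, abs_of_pos hqpos, abs_of_pos hrpos]
      _ < r * α + q * β := by nlinarith
  have c1 := close y1 x.1 a1 b1 ha1 hb1
  have c2 := close y2 x.2 a2 b2 ha2 hb2
  set Δ : ℝ := r * α + q * β with hΔd
  -- the divisibility consequence
  have div : ∀ (t : ℕ) (s1 s2 : ℤ), 1 ≤ t → Cop t s1 s2 → |(t : ℝ) * y1 - s1| < 1 / 2 →
      |(t : ℝ) * y2 - s2| < 1 / 2 → (r : ℤ) * (t * a1 + s1) = q * (t * b1 + s1) →
      (r : ℤ) * (t * a2 + s2) = q * (t * b2 + s2) → max q r ≤ 16 * t ^ 2 := by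
    intro t s1 s2 ht hc h1 h2 e1 e2
    have hqr' : IsCoprime (q : ℤ) (r : ℤ) := Nat.isCoprime_iff_coprime.2 hcop
    have d1 : (q : ℤ) ∣ t * a1 + s1 := hqr'.dvd_of_dvd_mul_left ⟨_, e1⟩
    have d2 : (q : ℤ) ∣ t * a2 + s2 := hqr'.dvd_of_dvd_mul_left ⟨_, e2⟩
    have d3 : (r : ℤ) ∣ t * b1 + s1 := hqr'.symm.dvd_of_dvd_mul_left ⟨_, e1.symm⟩
    have d4 : (r : ℤ) ∣ t * b2 + s2 := hqr'.symm.dvd_of_dvd_mul_left ⟨_, e2.symm⟩
    have m1 := hga t s1 s2 ht hc h1 h2 q (Dvd.intro_left d rfl) d1 d2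
    have m2 := hgb t s1 s2 ht hc h1 h2 r (Dvd.intro_left d rfl) d3 d4
    exact max_le m1 m2
  refine ⟨hq, hr, hne, ?_, ?_⟩
  · have : 0 < (q : ℝ) * β := by positivity
    linarith
  have hM1 : (q : ℝ) ≤ ((max q r : ℕ) : ℝ) := by exact_mod_cast le_max_left q r
  have hM2 : (r : ℝ) ≤ ((max q r : ℕ) : ℝ) := by exact_mod_cast le_max_right q r
  have hΔM : Δ ≤ 2 * ((max q r : ℕ) : ℝ) * α := by
    have h1 : (r : ℝ) * α ≤ ((max q r : ℕ) : ℝ) * α := mul_le_mul_of_nonneg_right hM2 hα.le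
    have h2 : (q : ℝ) * β ≤ ((max q r : ℕ) : ℝ) * α :=
      mul_le_mul hM1 hβα hβ.le (by positivity)
    linarith
  rcases lt_or_gt_of_ne hne with hlt | hgt
  · -- q < r
    have hn : ((max q r - min q r : ℕ) : ℝ) = (r : ℝ) - q := by
      rw [max_eq_right hlt.le, min_eq_left hlt.le, Nat.cast_sub hlt.le]
    have hn1 : 1 ≤ max q r - min q r := by
      rw [max_eq_right hlt.le, min_eq_left hlt.le]; omega
    obtain ⟨g, t, s1, s2, hng, hg, hS1, hS2, hc⟩ :=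
      exists_reduce (max q r - min q r) (q * b1 - r * a1) (q * b2 - r * a2) hn1
    have ht : 1 ≤ t := by
      rcases Nat.eq_zero_or_pos t with h0 | h0
      · rw [h0, mul_zero] at hng; omega
      · exact h0
    rw [← hn] at c1 c2
    have t1 : |(t : ℝ) * y1 - s1| < Δ := abs_div_lt hg hng hS1 c1
    have t2 : |(t : ℝ) * y2 - s2| < Δ := abs_div_lt hg hng hS2 c2
    have hgt : ((r : ℤ) - q) = g * t := by
      have : ((max q r - min q r : ℕ) : ℤ) = (r : ℤ) - q := by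
        rw [max_eq_right hlt.le, min_eq_left hlt.le, Nat.cast_sub hlt.le]
      rw [← this, hng]; push_cast; ring
    have e1 : (r : ℤ) * (t * a1 + s1) = q * (t * b1 + s1) := by
      have h5 : ((r : ℤ) - q) * s1 = t * (q * b1 - r * a1) := by rw [hgt, hS1]; ring
      linarith
    have e2 : (r : ℤ) * (t * a2 + s2) = q * (t * b2 + s2) := by
      have h5 : ((r : ℤ) - q) * s2 = t * (q * b2 - r * a2) := by rw [hgt, hS2]; ring
      linarith
    refine ⟨g, t, s1, s2, hng, hg, ht, hc, ?_, ?_, ?_⟩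
    · rw [← hS1]; exact lt_of_lt_of_le c1 hΔM
    · rw [← hS2]; exact lt_of_lt_of_le c2 hΔM
    · exact div t s1 s2 ht hc (by linarith) (by linarith) e1 e2
  · -- r < q
    have hn : ((max q r - min q r : ℕ) : ℝ) = (q : ℝ) - r := by
      rw [max_eq_left hgt.le, min_eq_right hgt.le, Nat.cast_sub hgt.le]
    have hn1 : 1 ≤ max q r - min q r := by
      rw [max_eq_left hgt.le, min_eq_right hgt.le]; omega
    obtain ⟨g, t, s1, s2, hng, hg, hS1, hS2, hc⟩ :=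
      exists_reduce (max q r - min q r) (r * a1 - q * b1) (r * a2 - q * b2) hn1
    have ht : 1 ≤ t := by
      rcases Nat.eq_zero_or_pos t with h0 | h0
      · rw [h0, mul_zero] at hng; omega
      · exact h0
    have c1' : |((max q r - min q r : ℕ) : ℝ) * y1 - ((r * a1 - q * b1 : ℤ) : ℝ)| < Δ := by
      rw [hn, ← abs_neg]
      push_cast at c1 ⊢
      have e : -(((q : ℝ) - r) * y1 - ((r : ℝ) * a1 - q * b1))
          = ((r : ℝ) - q) * y1 - ((q : ℝ) * b1 - r * a1) := by ring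
      rw [e]; exact c1
    have c2' : |((max q r - min q r : ℕ) : ℝ) * y2 - ((r * a2 - q * b2 : ℤ) : ℝ)| < Δ := by
      rw [hn, ← abs_neg]
      push_cast at c2 ⊢
      have e : -(((q : ℝ) - r) * y2 - ((r : ℝ) * a2 - q * b2))
          = ((r : ℝ) - q) * y2 - ((q : ℝ) * b2 - r * a2) := by ring
      rw [e]; exact c2
    have t1 : |(t : ℝ) * y1 - s1| < Δ := abs_div_lt hg hng hS1 c1'
    have t2 : |(t : ℝ) * y2 - s2| < Δ := abs_div_lt hg hng hS2 c2'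
    have hgt' : ((q : ℤ) - r) = g * t := by
      have : ((max q r - min q r : ℕ) : ℤ) = (q : ℤ) - r := by
        rw [max_eq_left hgt.le, min_eq_right hgt.le, Nat.cast_sub hgt.le]
      rw [← this, hng]; push_cast; ring
    have e1 : (r : ℤ) * (t * a1 + s1) = q * (t * b1 + s1) := by
      have h5 : ((q : ℤ) - r) * s1 = t * (r * a1 - q * b1) := by rw [hgt', hS1]; ring
      linarith
    have e2 : (r : ℤ) * (t * a2 + s2) = q * (t * b2 + s2) := by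
      have h5 : ((q : ℤ) - r) * s2 = t * (r * a2 - q * b2) := by rw [hgt', hS2]; ring
      linarith
    refine ⟨g, t, s1, s2, hng, hg, ht, hc, ?_, ?_, ?_⟩
    · rw [← hS1]; exact lt_of_lt_of_le c1' hΔM
    · rw [← hS2]; exact lt_of_lt_of_le c2' hΔM
    · exact div t s1 s2 ht hc (by linarith) (by linarith) e1 e2

/-- product bound for an intersection -/
lemma inter_le_prod (y1 y2 : ℝ) (ψ : ℕ → ℝ) (q r : ℕ) :
    μsq (AS y1 y2 ψ q ∩ AS y1 y2 ψ r)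
      ≤ volume (Ov y1 (ψ q) (ψ r) q r) * volume (Ov y2 (ψ q) (ψ r) q r) := by
  rw [Measure.restrict_apply ((measurableSet_AS y1 y2 ψ q).inter (measurableSet_AS y1 y2 ψ r)),
    ← Measure.prod_prod, ← Measure.volume_eq_prod]
  apply measure_mono
  rintro x ⟨⟨⟨a1, a2, ha1, ha2, -⟩, ⟨b1, b2, hb1, hb2, -⟩⟩, ⟨h0, h1⟩⟩
  exact ⟨⟨h0.1, h1.1, a1, b1, ha1, hb1⟩, ⟨h0.2, h1.2, a2, b2, ha2, hb2⟩⟩

end Run7.h542.Kh
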