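import Mathlib
import Pool.Agent.Run7.h542.KhSieve

set_option autoImplicit false
open MeasureTheory Filter Topology
open scoped BigOperators ENNReal

namespace Run7.h542.Kh

lemma class_count (S : Finset ℤ) (A B : ℤ) (L : ℝ) (hL : 0 ≤ L) (m : ℕ) (hm : 1 ≤ m)
    (hS : ∀ a ∈ S, A ≤ a ∧ a ≤ B) (hAB : ((B : ℝ) - A) ≤ L)
    (hcong : ∀ a ∈ S, ∀ b ∈ S, (m : ℤ) ∣ a - b) : (S.card : ℝ) ≤ L / m + 1 := by
  classical
  have hm' : (0 : ℝ) < m := by exact_mod_cast hm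
  rcases S.eq_empty_or_nonempty with h0 | h0
  · rw [h0]; simp; positivity
  set a0 := S.min' h0 with ha0
  have ha0m : a0 ∈ S := Finset.min'_mem _ _
  have hsub : S ⊆ (Finset.range (⌊L / m⌋₊ + 1)).image (fun c : ℕ => a0 + c * m) := by
    intro a ha
    obtain ⟨c, hc⟩ := hcong a ha a0 ha0m
    have hle : a0 ≤ a := Finset.min'_le _ _ ha
    have hmz : (0 : ℤ) < m := by exact_mod_cast hm
    have hc0 : 0 ≤ c := by
      by_contra hcon
      push Not at hcon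
      have : (m : ℤ) * c < 0 := mul_neg_of_pos_of_neg hmz hcon
      omega
    obtain ⟨k, rfl⟩ := Int.eq_ofNat_of_zero_le hc0
    rw [Finset.mem_image]
    refine ⟨k, ?_, by linarith⟩
    rw [Finset.mem_range, Nat.lt_succ_iff, Nat.le_floor_iff (by positivity), le_div_iff₀ hm']
    have h1 : a - a0 ≤ B - A := by linarith [(hS a ha).2, (hS a0 ha0m).1]
    have h2 : ((a - a0 : ℤ) : ℝ) ≤ B - A := by exact_mod_cast h1
    rw [hc] at h2
    push_cast at h2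
    linarith
  have h1 : S.card ≤ ⌊L / m⌋₊ + 1 := by
    refine (Finset.card_le_card hsub).trans (Finset.card_image_le.trans ?_)
    simp
  have h2 : (⌊L / m⌋₊ : ℝ) ≤ L / m := Nat.floor_le (by positivity)
  have h3 : (S.card : ℝ) ≤ (⌊L / m⌋₊ : ℝ) + 1 := by exact_mod_cast h1
  linarith

lemma bad_count (A1 B1 A2 B2 : ℤ) (L : ℝ) (hL : 0 ≤ L) (h1 : ((B1 : ℝ) - A1) ≤ L)
    (h2 : ((B2 : ℝ) - A2) ≤ L) (t m : ℕ) (hm : 1 ≤ m) (s1 s2 : ℤ) (hc : Cop t s1 s2) :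
    ((((Finset.Icc A1 B1) ×ˢ (Finset.Icc A2 B2)).filter (fun a : ℤ × ℤ =>
      (m : ℤ) ∣ t * a.1 + s1 ∧ (m : ℤ) ∣ t * a.2 + s2)).card : ℝ) ≤ (L / m + 1) ^ 2 := by
  classical
  have hm' : (0 : ℝ) < m := by exact_mod_cast hm
  set S1 := (Finset.Icc A1 B1).filter (fun a : ℤ => (m : ℤ) ∣ t * a + s1) with hS1
  set S2 := (Finset.Icc A2 B2).filter (fun a : ℤ => (m : ℤ) ∣ t * a + s2) with hS2
  have hprod : ((Finset.Icc A1 B1) ×ˢ (Finset.Icc A2 B2)).filter (fun a : ℤ × ℤ =>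
      (m : ℤ) ∣ t * a.1 + s1 ∧ (m : ℤ) ∣ t * a.2 + s2) = S1 ×ˢ S2 := by
    ext a
    simp only [hS1, hS2, Finset.mem_filter, Finset.mem_product]
    tauto
  rw [hprod, Finset.card_product]
  rcases S1.eq_empty_or_nonempty with h0 | h0
  · rw [h0]; simp; positivity
  rcases S2.eq_empty_or_nonempty with h0' | h0'
  · rw [h0']; simp; positivity
  obtain ⟨x1, hx1⟩ := h0
  obtain ⟨x2, hx2⟩ := h0'
  have hd1 := (Finset.mem_filter.1 hx1).2
  have hd2 := (Finset.mem_filter.1 hx2).2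
  have hcop : Nat.Coprime m t := by
    have hg1 : ((Nat.gcd m t : ℕ) : ℤ) ∣ (m : ℤ) := by exact_mod_cast Nat.gcd_dvd_left m t
    have hg2 : ((Nat.gcd m t : ℕ) : ℤ) ∣ (t : ℤ) := by exact_mod_cast Nat.gcd_dvd_right m t
    have e1 : ((Nat.gcd m t : ℕ) : ℤ) ∣ s1 := by
      have := hg1.trans hd1
      exact (Int.dvd_add_right (hg2.mul_right _)).1 this
    have e2 : ((Nat.gcd m t : ℕ) : ℤ) ∣ s2 := by
      have := hg1.trans hd2
      exact (Int.dvd_add_right (hg2.mul_right _)).1 this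
    have e3 : Nat.gcd m t ∣ Int.gcd s1 s2 := by
      have := Int.dvd_coe_gcd e1 e2
      exact_mod_cast this
    exact Nat.eq_one_of_dvd_coprimes hc (Nat.gcd_dvd_right m t) e3
  have hcopz : IsCoprime (m : ℤ) (t : ℤ) := Nat.isCoprime_iff_coprime.2 hcop
  have c1 : (S1.card : ℝ) ≤ L / m + 1 := by
    apply class_count S1 A1 B1 L hL m hm _ h1
    · intro a ha b hb
      have f1 := (Finset.mem_filter.1 ha).2
      have f2 := (Finset.mem_filter.1 hb).2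
      have f3 := dvd_sub f1 f2
      have : (t : ℤ) * a + s1 - (t * b + s1) = t * (a - b) := by ring
      rw [this] at f3
      exact hcopz.dvd_of_dvd_mul_left f3
    · intro a ha
      exact Finset.mem_Icc.1 (Finset.mem_filter.1 ha).1
  have c2 : (S2.card : ℝ) ≤ L / m + 1 := by
    apply class_count S2 A2 B2 L hL m hm _ h2
    · intro a ha b hb
      have f1 := (Finset.mem_filter.1 ha).2
      have f2 := (Finset.mem_filter.1 hb).2
      have f3 := dvd_sub f1 f2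
      have : (t : ℤ) * a + s2 - (t * b + s2) = t * (a - b) := by ring
      rw [this] at f3
      exact hcopz.dvd_of_dvd_mul_left f3
    · intro a ha
      exact Finset.mem_Icc.1 (Finset.mem_filter.1 ha).1
  push_cast
  rw [sq]
  exact mul_le_mul c1 c2 (by positivity) (by positivity)

lemma round_unique {y : ℝ} {t : ℕ} {s : ℤ} (h : |(t : ℝ) * y - s| < 1 / 2) :
    s = round ((t : ℝ) * y) := by
  apply int_eq_of_abs_lt
  have h1 := abs_sub_round ((t : ℝ) * y)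
  have e : (s : ℝ) - round ((t : ℝ) * y)
      = ((t : ℝ) * y - round ((t : ℝ) * y)) - ((t : ℝ) * y - s) := by ring
  rw [e]
  exact lt_of_le_of_lt (abs_sub _ _) (by linarith)

/-- number of bad numerators in a box -/
lemma notGood_count (y1 y2 : ℝ) (q : ℕ) (hq : 1 ≤ q) (A1 B1 A2 B2 : ℤ) (L : ℝ) (hL : 0 ≤ L)
    (h1 : ((B1 : ℝ) - A1) ≤ L) (h2 : ((B2 : ℝ) - A2) ≤ L) (S : Finset (ℤ × ℤ))
    (hS : S ⊆ (Finset.Icc A1 B1) ×ˢ (Finset.Icc A2 B2))
    (hSbad : ∀ a ∈ S, ¬ Good y1 y2 q a.1 a.2) :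
    (S.card : ℝ) ≤ L ^ 2 / 4 + 2 * q * √q := by
  classical
  set G : ℕ → ℕ → Finset (ℤ × ℤ) := fun t m =>
    if Cop t (round ((t : ℝ) * y1)) (round ((t : ℝ) * y2)) then
      ((Finset.Icc A1 B1) ×ˢ (Finset.Icc A2 B2)).filter (fun a : ℤ × ℤ =>
      (m : ℤ) ∣ t * a.1 + round ((t : ℝ) * y1) ∧ (m : ℤ) ∣ t * a.2 + round ((t : ℝ) * y2))
    else ∅ with hG
  have hsub : S ⊆ (Finset.Icc 1 (Nat.sqrt q)).biUnion (fun t =>
      (Finset.Ioc (16 * t ^ 2) q).biUnion (fun m => G t m)) := by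
    intro a ha
    have hb := hSbad a ha
    unfold Good at hb
    push Not at hb
    obtain ⟨t, s1, s2, ht, hc, e1, e2, m, hmq, hm1, hm2, hm3⟩ := hb
    have r1 := round_unique e1
    have r2 := round_unique e2
    have hmle : m ≤ q := Nat.le_of_dvd hq hmq
    rw [Finset.mem_biUnion]
    refine ⟨t, ?_, ?_⟩
    · rw [Finset.mem_Icc]
      refine ⟨ht, ?_⟩
      rw [Nat.le_sqrt]
      nlinarith
    · rw [Finset.mem_biUnion]
      refine ⟨m, Finset.mem_Ioc.2 ⟨hm3, hmle⟩, ?_⟩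
      simp only [hG]
      rw [← r1, ← r2, if_pos hc, Finset.mem_filter]
      exact ⟨hS ha, hm1, hm2⟩
  have hGc : ∀ t m, 1 ≤ m → ((G t m).card : ℝ) ≤ 2 * L ^ 2 * ((m : ℝ) ^ 2)⁻¹ + 2 := by
    intro t m hm
    have hm' : (0 : ℝ) < m := by exact_mod_cast hm
    simp only [hG]
    split_ifs with hc
    · have := bad_count A1 B1 A2 B2 L hL h1 h2 t m hm _ _ hc
      refine this.trans ?_
      have e : 2 * L ^ 2 * ((m : ℝ) ^ 2)⁻¹ = 2 * (L / m) ^ 2 := by field_simp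
      rw [e]
      nlinarith [sq_nonneg (L / m - 1)]
    · simp; positivity
  have hcard : (S.card : ℝ) ≤ ∑ t ∈ Finset.Icc 1 (Nat.sqrt q), ∑ m ∈ Finset.Ioc (16 * t ^ 2) q,
      (2 * L ^ 2 * ((m : ℝ) ^ 2)⁻¹ + 2) := by
    have c1 : S.card ≤ ∑ t ∈ Finset.Icc 1 (Nat.sqrt q), ∑ m ∈ Finset.Ioc (16 * t ^ 2) q,
        (G t m).card :=
      (Finset.card_le_card hsub).trans (Finset.card_biUnion_le.trans
        (Finset.sum_le_sum fun t _ => Finset.card_biUnion_le))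
    calc (S.card : ℝ) ≤ ((∑ t ∈ Finset.Icc 1 (Nat.sqrt q), ∑ m ∈ Finset.Ioc (16 * t ^ 2) q,
        (G t m).card : ℕ) : ℝ) := by exact_mod_cast c1
      _ = ∑ t ∈ Finset.Icc 1 (Nat.sqrt q), ∑ m ∈ Finset.Ioc (16 * t ^ 2) q,
        ((G t m).card : ℝ) := by push_cast; rfl
      _ ≤ _ := by
        apply Finset.sum_le_sum; intro t _
        apply Finset.sum_le_sum; intro m hm
        exact hGc t m (by have := (Finset.mem_Ioc.1 hm).1; omega)
  have hinner : ∀ t ∈ Finset.Icc 1 (Nat.sqrt q), ∑ m ∈ Finset.Ioc (16 * t ^ 2) q,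
      (2 * L ^ 2 * ((m : ℝ) ^ 2)⁻¹ + 2) ≤ L ^ 2 / 8 * ((t : ℝ) ^ 2)⁻¹ + 2 * q := by
    intro t ht
    have ht1 := (Finset.mem_Icc.1 ht).1
    have ht' : (0 : ℝ) < t := by exact_mod_cast ht1
    rw [Finset.sum_add_distrib, ← Finset.mul_sum]
    have p1 : ∑ m ∈ Finset.Ioc (16 * t ^ 2) q, ((m : ℝ) ^ 2)⁻¹ ≤ ((16 : ℝ) * t ^ 2)⁻¹ := by
      rcases le_or_gt (16 * t ^ 2) q with hle | hgt
      · have := sum_Ioc_inv_sq_le_sub (α := ℝ) (k := 16 * t ^ 2) (n := q) (by positivity) hle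
        refine this.trans ?_
        push_cast
        have : (0 : ℝ) ≤ (q : ℝ)⁻¹ := by positivity
        linarith
      · rw [Finset.Ioc_eq_empty (by omega), Finset.sum_empty]; positivity
    have p2 : ∑ m ∈ Finset.Ioc (16 * t ^ 2) q, (2 : ℝ) ≤ 2 * q := by
      rw [Finset.sum_const, Nat.card_Ioc, nsmul_eq_mul]
      have : ((q - 16 * t ^ 2 : ℕ) : ℝ) ≤ q := by exact_mod_cast Nat.sub_le _ _
      linarith
    have p3 : 2 * L ^ 2 * ((16 : ℝ) * t ^ 2)⁻¹ = L ^ 2 / 8 * ((t : ℝ) ^ 2)⁻¹ := by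
      field_simp; ring
    have p4 := mul_le_mul_of_nonneg_left p1 (by positivity : 0 ≤ 2 * L ^ 2)
    linarith
  have hout : ∑ t ∈ Finset.Icc 1 (Nat.sqrt q), (L ^ 2 / 8 * ((t : ℝ) ^ 2)⁻¹ + 2 * q)
      ≤ L ^ 2 / 4 + 2 * q * √q := by
    rw [Finset.sum_add_distrib, ← Finset.mul_sum]
    have p1 : ∑ t ∈ Finset.Icc 1 (Nat.sqrt q), ((t : ℝ) ^ 2)⁻¹ ≤ 2 := by
      have := sum_Ioo_inv_sq_le (α := ℝ) 0 (Nat.sqrt q + 1)
      have e : Finset.Ioo 0 (Nat.sqrt q + 1) = Finset.Icc 1 (Nat.sqrt q) := by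
        ext x; simp only [Finset.mem_Ioo, Finset.mem_Icc]; omega
      rw [e] at this
      simpa using this
    have p2 : ∑ t ∈ Finset.Icc 1 (Nat.sqrt q), (2 * (q : ℝ)) ≤ 2 * q * √q := by
      rw [Finset.sum_const, Nat.card_Icc, nsmul_eq_mul, Nat.add_sub_cancel]
      have : ((Nat.sqrt q : ℕ) : ℝ) ≤ √q := Real.nat_sqrt_le_real_sqrt
      have hq0 : (0 : ℝ) ≤ 2 * q := by positivity
      nlinarith
    have p3 := mul_le_mul_of_nonneg_left p1 (by positivity : 0 ≤ L ^ 2 / 8)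
    linarith
  exact hcard.trans ((Finset.sum_le_sum hinner).trans hout)


lemma card_Icc_ge (u v : ℝ) : v - u - 1 ≤ ((Finset.Icc ⌈u⌉ ⌊v⌋).card : ℝ) := by
  rw [Int.card_Icc]
  have h1 : ((⌊v⌋ + 1 - ⌈u⌉ : ℤ) : ℝ) ≤ (((⌊v⌋ + 1 - ⌈u⌉).toNat : ℕ) : ℝ) := by
    have := Int.self_le_toNat (⌊v⌋ + 1 - ⌈u⌉)
    exact_mod_cast this
  refine le_trans ?_ h1
  push_cast
  have := Int.lt_floor_add_one v
  have := Int.ceil_lt_add_one u
  linarith

/-- the local lower bound -/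
theorem local_lower (y1 y2 : ℝ) (ψ : ℕ → ℝ) (h0 : ∀ q, 0 ≤ ψ q) (h1 : ∀ q, ψ q ≤ 1 / 2)
    (l : ℝ) (hl : 0 < l) (hl1 : l ≤ 1) :
    ∃ q₀ : ℕ, ∀ q, q₀ ≤ q → ∀ u1 u2 : ℝ,
      ENNReal.ofReal (2 * ψ q ^ 2 * l ^ 2) ≤
        volume (AS y1 y2 ψ q ∩ (Set.Ico u1 (u1 + l) ×ˢ Set.Ico u2 (u2 + l))) := by
  classical
  obtain ⟨q₀, hq₀⟩ := exists_nat_ge ((32 / l ^ 2) ^ 2 + 1)
  refine ⟨q₀, fun q hq u1 u2 => ?_⟩
  have hqr : (32 / l ^ 2) ^ 2 + 1 ≤ (q : ℝ) := hq₀.trans (by exact_mod_cast hq)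
  have hq1r : (1 : ℝ) ≤ q := by
    have : 0 ≤ (32 / l ^ 2) ^ 2 := by positivity
    linarith
  have hq1 : 1 ≤ q := by exact_mod_cast hq1r
  have hqpos : (0 : ℝ) < q := by linarith
  have hsq : 32 / l ^ 2 ≤ √q := by
    apply Real.le_sqrt_of_sq_le; linarith
  have hsq' : 32 ≤ √q * l ^ 2 := by
    rw [div_le_iff₀ (by positivity)] at hsq
    exact hsq
  have hsq2 : √(q : ℝ) * √q = q := Real.mul_self_sqrt hqpos.le
  have hsq1 : 1 ≤ √(q : ℝ) := by rw [Real.one_le_sqrt]; exact hq1r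
  set r := ψ q with hr
  rcases (h0 q).eq_or_lt with hz | hpos
  · rw [← hr] at hz
    rw [← hz]; simp
  set A1 : ℤ := ⌈(q : ℝ) * u1 - y1 + 1 / 2⌉ with hA1
  set B1 : ℤ := ⌊(q : ℝ) * (u1 + l) - y1 - 1 / 2⌋ with hB1
  set A2 : ℤ := ⌈(q : ℝ) * u2 - y2 + 1 / 2⌉ with hA2
  set B2 : ℤ := ⌊(q : ℝ) * (u2 + l) - y2 - 1 / 2⌋ with hB2
  set box := (Finset.Icc A1 B1) ×ˢ (Finset.Icc A2 B2) with hbox
  set G := box.filter (fun a : ℤ × ℤ => Good y1 y2 q a.1 a.2) with hG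
  set Bd := box.filter (fun a : ℤ × ℤ => ¬ Good y1 y2 q a.1 a.2) with hBd
  have hL : 0 ≤ (q : ℝ) * l := by positivity
  have hAB1 : (B1 : ℝ) - A1 ≤ q * l := by
    have e1 := Int.floor_le ((q : ℝ) * (u1 + l) - y1 - 1 / 2)
    have e2 := Int.le_ceil ((q : ℝ) * u1 - y1 + 1 / 2)
    rw [← hB1] at e1
    rw [← hA1] at e2
    linarith
  have hAB2 : (B2 : ℝ) - A2 ≤ q * l := by
    have e1 := Int.floor_le ((q : ℝ) * (u2 + l) - y2 - 1 / 2)
    have e2 := Int.le_ceil ((q : ℝ) * u2 - y2 + 1 / 2)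
    rw [← hB2] at e1
    rw [← hA2] at e2
    linarith
  have hbad := notGood_count y1 y2 q hq1 A1 B1 A2 B2 (q * l) hL hAB1 hAB2 Bd
    (Finset.filter_subset _ _) (fun a ha => (Finset.mem_filter.1 ha).2)
  have hc1 := card_Icc_ge ((q : ℝ) * u1 - y1 + 1 / 2) ((q : ℝ) * (u1 + l) - y1 - 1 / 2)
  have hc2 := card_Icc_ge ((q : ℝ) * u2 - y2 + 1 / 2) ((q : ℝ) * (u2 + l) - y2 - 1 / 2)
  rw [← hA1, ← hB1] at hc1
  rw [← hA2, ← hB2] at hc2
  have hc1' : (q : ℝ) * l - 2 ≤ ((Finset.Icc A1 B1).card : ℝ) := by linarith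
  have hc2' : (q : ℝ) * l - 2 ≤ ((Finset.Icc A2 B2).card : ℝ) := by linarith
  have hql : 2 ≤ (q : ℝ) * l := by nlinarith
  have hboxc : ((q : ℝ) * l - 2) ^ 2 ≤ (box.card : ℝ) := by
    rw [hbox, Finset.card_product]
    push_cast
    rw [sq]
    exact mul_le_mul hc1' hc2' (by linarith) (by linarith)
  have hsum : (box.card : ℝ) = G.card + Bd.card := by
    rw [hG, hBd]
    exact_mod_cast (Finset.card_filter_add_card_filter_not _).symm
  have hGc : ((q : ℝ) * l) ^ 2 / 2 ≤ (G.card : ℝ) := by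
    have e1 : 4 * ((q : ℝ) * l) ≤ ((q : ℝ) * l) ^ 2 / 8 := by
      have : 32 ≤ (q : ℝ) * l := by nlinarith
      nlinarith
    have e2 : 2 * (q : ℝ) * √q ≤ ((q : ℝ) * l) ^ 2 / 8 := by
      have : ((q : ℝ) * l) ^ 2 / 8 = q * √q * (√q * l ^ 2) / 8 := by
        rw [mul_pow, sq (q : ℝ)]
        nth_rewrite 2 [← hsq2]
        ring
      rw [this]
      have h3 : 0 ≤ (q : ℝ) * √q := by positivity
      nlinarith
    nlinarith
  -- the boxes
  set Sq : ℤ × ℤ → Set (ℝ × ℝ) := fun a =>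
    Set.Ioo ((y1 + a.1 - r) / q) ((y1 + a.1 + r) / q) ×ˢ
      Set.Ioo ((y2 + a.2 - r) / q) ((y2 + a.2 + r) / q) with hSq
  have hmemIoo : ∀ (y x : ℝ) (a : ℤ), x ∈ Set.Ioo ((y + a - r) / q) ((y + a + r) / q) ↔
      |(q : ℝ) * x - y - a| < r := by
    intro y x a
    rw [Set.mem_Ioo, div_lt_iff₀ hqpos, lt_div_iff₀ hqpos, abs_lt]
    constructor
    · rintro ⟨e1, e2⟩; constructor <;> linarith
    · rintro ⟨e1, e2⟩; constructor <;> linarith
  have hr2 : r ≤ 1 / 2 := h1 q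
  have hdisj : Set.PairwiseDisjoint (↑G) Sq := by
    intro a _ b _ hab
    rw [Function.onFun, Set.disjoint_left]
    rintro x ⟨hx1, hx2⟩ ⟨hx3, hx4⟩
    rw [hmemIoo] at hx1 hx2 hx3 hx4
    apply hab
    ext
    · apply int_eq_of_abs_lt
      have e : (a.1 : ℝ) - b.1 = ((q : ℝ) * x.1 - y1 - b.1) - ((q : ℝ) * x.1 - y1 - a.1) := by ring
      rw [e]; exact lt_of_le_of_lt (abs_sub _ _) (by linarith)
    · apply int_eq_of_abs_lt
      have e : (a.2 : ℝ) - b.2 = ((q : ℝ) * x.2 - y2 - b.2) - ((q : ℝ) * x.2 - y2 - a.2) := by ring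
      rw [e]; exact lt_of_le_of_lt (abs_sub _ _) (by linarith)
  have hsub : (⋃ a ∈ G, Sq a) ⊆ AS y1 y2 ψ q ∩ (Set.Ico u1 (u1 + l) ×ˢ Set.Ico u2 (u2 + l)) := by
    intro x hx
    simp only [Set.mem_iUnion] at hx
    obtain ⟨a, ha, hx1, hx2⟩ := hx
    rw [hmemIoo] at hx1 hx2
    obtain ⟨habox, hagood⟩ := Finset.mem_filter.1 ha
    obtain ⟨ha1, ha2⟩ := Finset.mem_product.1 habox
    rw [Finset.mem_Icc, hA1, hB1, Int.ceil_le, Int.le_floor] at ha1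
    rw [Finset.mem_Icc, hA2, hB2, Int.ceil_le, Int.le_floor] at ha2
    refine ⟨⟨a.1, a.2, hx1, hx2, hagood⟩, ?_, ?_⟩
    · rw [abs_lt] at hx1
      rw [Set.mem_Ico]
      constructor
      · by_contra hcon
        push Not at hcon
        have := mul_lt_mul_of_pos_left hcon hqpos
        linarith [hx1.1, ha1.1]
      · by_contra hcon
        push Not at hcon
        have := mul_le_mul_of_nonneg_left hcon hqpos.le
        linarith [hx1.2, ha1.2]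
    · rw [abs_lt] at hx2
      rw [Set.mem_Ico]
      constructor
      · by_contra hcon
        push Not at hcon
        have := mul_lt_mul_of_pos_left hcon hqpos
        linarith [hx2.1, ha2.1]
      · by_contra hcon
        push Not at hcon
        have := mul_le_mul_of_nonneg_left hcon hqpos.le
        linarith [hx2.2, ha2.2]
  refine le_trans ?_ (measure_mono hsub)
  rw [measure_biUnion_finset hdisj (fun a _ => measurableSet_Ioo.prod measurableSet_Ioo)]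
  have hvol : ∀ a ∈ G, volume (Sq a) = ENNReal.ofReal ((2 * r / q) ^ 2) := by
    intro a _
    simp only [hSq]
    rw [Measure.volume_eq_prod, Measure.prod_prod, Real.volume_Ioo, Real.volume_Ioo, sq,
      ENNReal.ofReal_mul (by positivity)]
    congr 2 <;> ring
  rw [Finset.sum_congr rfl hvol, Finset.sum_const, nsmul_eq_mul, ← ENNReal.ofReal_natCast,
    ← ENNReal.ofReal_mul (by positivity)]
  apply ENNReal.ofReal_le_ofReal
  have e3 : 2 * r ^ 2 * l ^ 2 = ((q : ℝ) * l) ^ 2 / 2 * (2 * r / q) ^ 2 := by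
    field_simp
  rw [e3]
  exact mul_le_mul_of_nonneg_right hGc (by positivity)

end Run7.h542.Kh
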