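import Mathlib
import Pool.Agent.Run7.h542.KhSieve

set_option autoImplicit false
open MeasureTheory Filter Topology
open scoped BigOperators ENNReal

namespace Run7.h542.Kh

/-- a common upper bound for the two coordinates gives the bound for the intersection -/
lemma inter_real_le (y1 y2 : ℝ) (ψ : ℕ → ℝ) (q r : ℕ) (B : ℝ) (hB : 0 ≤ B)
    (h1 : volume (Ov y1 (ψ q) (ψ r) q r) ≤ ENNReal.ofReal B)
    (h2 : volume (Ov y2 (ψ q) (ψ r) q r) ≤ ENNReal.ofReal B) :
    μsq.real (AS y1 y2 ψ q ∩ AS y1 y2 ψ r) ≤ B ^ 2 := by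
  apply ENNReal.toReal_le_of_le_ofReal (by positivity)
  refine (inter_le_prod y1 y2 ψ q r).trans ?_
  rw [sq, ENNReal.ofReal_mul hB]
  exact mul_le_mul' h1 h2

lemma diag_bound (y1 y2 : ℝ) (ψ : ℕ → ℝ) (q : ℕ) (hq : 1 ≤ q) (h0 : 0 < ψ q)
    (h1 : ψ q ≤ 1 / 2) : μsq.real (AS y1 y2 ψ q ∩ AS y1 y2 ψ q) ≤ 576 * ψ q ^ 2 := by
  have key : ∀ y : ℝ, volume (Ov y (ψ q) (ψ q) q q) ≤ ENNReal.ofReal (24 * ψ q) := by
    intro y
    rcases le_total ((1 : ℕ) * ψ q + (1 : ℕ) * ψ q) (1 / 2) with h | h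
    · have := ov_small y (ψ q) (ψ q) h0 h1 h0 h1 q 1 1 hq le_rfl le_rfl (by norm_num) h
      rw [mul_one] at this
      refine this.trans (ENNReal.ofReal_le_ofReal ?_)
      simp; linarith
    · have := ov_large y (ψ q) (ψ q) h0 h1 h0 h1 q 1 1 hq le_rfl le_rfl (by norm_num) h
      rw [mul_one] at this
      refine this.trans (ENNReal.ofReal_le_ofReal ?_)
      nlinarith
  have := inter_real_le y1 y2 ψ q q (24 * ψ q) (by positivity) (key y1) (key y2)
  linarith

lemma off_bound (y1 y2 : ℝ) (ψ : ℕ → ℝ) (q r : ℕ) (hq : 1 ≤ q) (hr : 1 ≤ r) (hne : q ≠ r)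
    (hα : 0 < ψ q) (hα' : ψ q ≤ 1 / 2) (hβ : 0 < ψ r) (hβα : ψ r ≤ ψ q) :
    μsq.real (AS y1 y2 ψ q ∩ AS y1 y2 ψ r) ≤ 2304 * ψ q ^ 2 * ψ r ^ 2 ∨
    (Pair y1 y2 (ψ q) (q / Nat.gcd q r, r / Nat.gcd q r) ∧
      μsq.real (AS y1 y2 ψ q ∩ AS y1 y2 ψ r)
        ≤ 36 * ψ q ^ 2 * (1 / ((max (q / Nat.gcd q r) (r / Nat.gcd q r) : ℕ) : ℝ) ^ 2)) := by
  set d := Nat.gcd q r with hd
  have hdpos : 0 < d := Nat.gcd_pos_of_pos_left _ hq
  obtain ⟨q', hq'⟩ : d ∣ q := Nat.gcd_dvd_left _ _
  obtain ⟨r', hr'⟩ : d ∣ r := Nat.gcd_dvd_right _ _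
  have hqd : q / d = q' := by rw [hq']; exact Nat.mul_div_cancel_left _ hdpos
  have hrd : r / d = r' := by rw [hr']; exact Nat.mul_div_cancel_left _ hdpos
  have hcop : Nat.Coprime q' r' := by
    have := Nat.coprime_div_gcd_div_gcd (m := q) (n := r) (Nat.gcd_pos_of_pos_left _ hq)
    rw [← hd, hqd, hrd] at this
    exact this
  have hq'1 : 1 ≤ q' := by
    rcases Nat.eq_zero_or_pos q' with h | h
    · rw [h, mul_zero] at hq'; omega
    · exact h
  have hr'1 : 1 ≤ r' := by
    rcases Nat.eq_zero_or_pos r' with h | h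
    · rw [h, mul_zero] at hr'; omega
    · exact h
  have hne' : q' ≠ r' := by
    intro h; apply hne; rw [hq', hr', h]
  rw [hqd, hrd]
  have hβ' : ψ r ≤ 1 / 2 := hβα.trans hα'
  rcases le_or_gt (1 / 2) (r' * ψ q + q' * ψ r) with hΔ | hΔ
  · left
    have key : ∀ y : ℝ, volume (Ov y (ψ q) (ψ r) q r) ≤ ENNReal.ofReal (48 * ψ q * ψ r) := by
      intro y
      have := ov_large y (ψ q) (ψ r) hα hα' hβ hβ' d q' r' hdpos hq'1 hr'1 hcop hΔ
      rw [← hq', ← hr'] at this
      exact this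
    have := inter_real_le y1 y2 ψ q r (48 * ψ q * ψ r) (by positivity) (key y1) (key y2)
    calc _ ≤ (48 * ψ q * ψ r) ^ 2 := this
      _ = 2304 * ψ q ^ 2 * ψ r ^ 2 := by ring
  · by_cases hemp : (AS y1 y2 ψ q ∩ AS y1 y2 ψ r) = ∅
    · left
      rw [hemp]; simp; positivity
    · right
      obtain ⟨x, hx1, hx2⟩ := Set.nonempty_iff_ne_empty.2 hemp
      constructor
      · have := pair_of_inter y1 y2 ψ d q' r' hq'1 hr'1 hcop hne'
          (by rw [← hq']; exact hα) (by rw [← hr']; exact hβ) (by rw [← hq', ← hr']; exact hβα)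
          (by rw [← hq', ← hr']; exact hΔ) x (by rw [← hq']; exact hx1)
          (by rw [← hr']; exact hx2)
        rw [← hq'] at this
        exact this
      · set M : ℝ := ((max q' r' : ℕ) : ℝ) with hM
        have hMpos : 0 < M := by
          rw [hM]
          have : 1 ≤ max q' r' := le_max_of_le_left hq'1
          exact_mod_cast this
        have hq'r : (0 : ℝ) < q' := by exact_mod_cast hq'1
        have hr'r : (0 : ℝ) < r' := by exact_mod_cast hr'1
        have hmin : min (ψ q / q') (ψ r / r') ≤ ψ q / M := by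
          rcases le_total q' r' with h | h
          · have : M = r' := by rw [hM, max_eq_right h]
            rw [this]
            exact (min_le_right _ _).trans (div_le_div_of_nonneg_right hβα hr'r.le)
          · have : M = q' := by rw [hM, max_eq_left h]
            rw [this]
            exact min_le_left _ _
        have key : ∀ y : ℝ, volume (Ov y (ψ q) (ψ r) q r) ≤ ENNReal.ofReal (6 * (ψ q / M)) := by
          intro y
          have := ov_small y (ψ q) (ψ r) hα hα' hβ hβ' d q' r' hdpos hq'1 hr'1 hcop hΔ.le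
          rw [← hq', ← hr'] at this
          refine this.trans (ENNReal.ofReal_le_ofReal ?_)
          linarith
        have := inter_real_le y1 y2 ψ q r (6 * (ψ q / M)) (by positivity) (key y1) (key y2)
        calc _ ≤ (6 * (ψ q / M)) ^ 2 := this
          _ = 36 * ψ q ^ 2 * (1 / M ^ 2) := by field_simp; norm_num

theorem second_moment (y1 y2 : ℝ) (ψ : ℕ → ℝ) (hz : ψ 0 = 0) (h0 : ∀ q, 0 ≤ ψ q)
    (h1 : ∀ q, ψ q ≤ 1 / 2) (N : ℕ) :
    ∑ q ∈ Finset.range N, ∑ r ∈ Finset.range N, μsq.real (AS y1 y2 ψ q ∩ AS y1 y2 ψ r)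
      ≤ 8000 * (1 + ∑ q ∈ Finset.range N, ψ q ^ 2) ^ 2 := by
  classical
  set f : ℕ → ℕ → ℝ := fun q r => μsq.real (AS y1 y2 ψ q ∩ AS y1 y2 ψ r) with hf
  have hf0 : ∀ q r, 0 ≤ f q r := fun q r => measureReal_nonneg
  have hsymm : ∀ q r, f q r = f r q := fun q r => by
    simp only [hf]; rw [Set.inter_comm]
  have hzero : ∀ q r, ψ q = 0 → f q r = 0 := by
    intro q r h
    have : AS y1 y2 ψ q = ∅ := by
      rw [Set.eq_empty_iff_forall_notMem]
      rintro x ⟨a1, a2, h2, -⟩
      rw [h] at h2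
      exact absurd h2 (not_lt.2 (abs_nonneg _))
    simp only [hf]
    rw [this]; simp
  set Ψ : ℝ := ∑ q ∈ Finset.range N, ψ q ^ 2 with hΨ
  have hΨ0 : 0 ≤ Ψ := Finset.sum_nonneg fun q _ => sq_nonneg _
  -- main row bound
  have hrow : ∀ q ∈ Finset.range N, ∑ r ∈ (Finset.range N).filter (fun r => ψ r ≤ ψ q), f q r
      ≤ ψ q ^ 2 * (3816 + 2304 * Ψ) := by
    intro q hq
    rcases (h0 q).eq_or_lt with hq0 | hq0
    · rw [Finset.sum_eq_zero]
      · rw [← hq0]; simp
      · intro r _; exact hzero q r hq0.symm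
    have hq1 : 1 ≤ q := by
      rcases Nat.eq_zero_or_pos q with h | h
      · rw [h, hz] at hq0; exact absurd hq0 (lt_irrefl _)
      · exact h
    set R := ((Finset.range N).filter (fun r => ψ r ≤ ψ q)).filter (fun r => 1 ≤ r ∧
      Pair y1 y2 (ψ q) (q / Nat.gcd q r, r / Nat.gcd q r)) with hR
    have hterm : ∀ r ∈ (Finset.range N).filter (fun r => ψ r ≤ ψ q), f q r
        ≤ (if r = q then 576 * ψ q ^ 2 else 0) + 2304 * ψ q ^ 2 * ψ r ^ 2 +
          (if 1 ≤ r ∧ Pair y1 y2 (ψ q) (q / Nat.gcd q r, r / Nat.gcd q r) then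
            36 * ψ q ^ 2 * (1 / ((max (q / Nat.gcd q r) (r / Nat.gcd q r) : ℕ) : ℝ) ^ 2)
            else 0) := by
      intro r hr
      have hrq := (Finset.mem_filter.1 hr).2
      have hthird : 0 ≤ (if 1 ≤ r ∧ Pair y1 y2 (ψ q) (q / Nat.gcd q r, r / Nat.gcd q r) then
            36 * ψ q ^ 2 * (1 / ((max (q / Nat.gcd q r) (r / Nat.gcd q r) : ℕ) : ℝ) ^ 2)
            else 0) := by split_ifs <;> positivity
      have hsec : 0 ≤ 2304 * ψ q ^ 2 * ψ r ^ 2 := by positivity
      rcases (h0 r).eq_or_lt with hr0 | hr0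
      · rw [hsymm, hzero r q hr0.symm]
        have : 0 ≤ (if r = q then 576 * ψ q ^ 2 else 0) := by split_ifs <;> positivity
        linarith
      have hr1 : 1 ≤ r := by
        rcases Nat.eq_zero_or_pos r with h | h
        · rw [h, hz] at hr0; exact absurd hr0 (lt_irrefl _)
        · exact h
      by_cases hrq' : r = q
      · subst hrq'
        rw [if_pos rfl]
        have := diag_bound y1 y2 ψ r hq1 hq0 (h1 r)
        simp only [hf]
        linarith
      · rw [if_neg hrq']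
        rcases off_bound y1 y2 ψ q r hq1 hr1 (Ne.symm hrq') hq0 (h1 q) hr0 hrq with hb | ⟨hp, hb⟩
        · simp only [hf]; linarith
        · rw [if_pos ⟨hr1, hp⟩]
          simp only [hf]; linarith
    refine (Finset.sum_le_sum hterm).trans ?_
    rw [Finset.sum_add_distrib, Finset.sum_add_distrib]
    have e1 : ∑ r ∈ (Finset.range N).filter (fun r => ψ r ≤ ψ q),
        (if r = q then 576 * ψ q ^ 2 else 0) ≤ 576 * ψ q ^ 2 := by
      rw [Finset.sum_ite_eq']
      split_ifs
      · exact le_rfl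
      · positivity
    have e2 : ∑ r ∈ (Finset.range N).filter (fun r => ψ r ≤ ψ q), 2304 * ψ q ^ 2 * ψ r ^ 2
        ≤ 2304 * ψ q ^ 2 * Ψ := by
      rw [← Finset.mul_sum]
      apply mul_le_mul_of_nonneg_left _ (by positivity)
      exact Finset.sum_le_sum_of_subset_of_nonneg (Finset.filter_subset _ _)
        (fun r _ _ => sq_nonneg _)
    have e3 : ∑ r ∈ (Finset.range N).filter (fun r => ψ r ≤ ψ q),
        (if 1 ≤ r ∧ Pair y1 y2 (ψ q) (q / Nat.gcd q r, r / Nat.gcd q r) then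
            36 * ψ q ^ 2 * (1 / ((max (q / Nat.gcd q r) (r / Nat.gcd q r) : ℕ) : ℝ) ^ 2)
            else 0) ≤ 36 * ψ q ^ 2 * 90 := by
      rw [← Finset.sum_filter, ← hR, ← Finset.mul_sum]
      apply mul_le_mul_of_nonneg_left _ (by positivity)
      set F : ℕ → ℕ × ℕ := fun r => (q / Nat.gcd q r, r / Nat.gcd q r) with hF
      have hinj : Set.InjOn F R := by
        intro r hr r' hr' h
        simp only [hF, Prod.mk.injEq] at h
        obtain ⟨h2, h3⟩ := h
        have g1 : Nat.gcd q r ∣ q := Nat.gcd_dvd_left _ _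
        have g2 : Nat.gcd q r' ∣ q := Nat.gcd_dvd_left _ _
        have hgg : Nat.gcd q r = Nat.gcd q r' := by
          have p1 := Nat.div_mul_cancel g1
          have p2 := Nat.div_mul_cancel g2
          rw [← h2] at p2
          have hpos : 0 < q / Nat.gcd q r := Nat.div_pos (Nat.le_of_dvd hq1 g1)
            (Nat.gcd_pos_of_pos_left _ hq1)
          exact Nat.eq_of_mul_eq_mul_left hpos (p1.trans p2.symm)
        rw [← hgg] at h3
        have d1 : Nat.gcd q r ∣ r := Nat.gcd_dvd_right _ _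
        have d2 : Nat.gcd q r ∣ r' := by rw [hgg]; exact Nat.gcd_dvd_right _ _
        rw [← Nat.div_mul_cancel d1, ← Nat.div_mul_cancel d2, h3]
      have := pair_sum y1 y2 (ψ q) hq0 (R.image F) (by
        intro p hp
        obtain ⟨r, hr, rfl⟩ := Finset.mem_image.1 hp
        exact (Finset.mem_filter.1 hr).2.2)
      rw [Finset.sum_image hinj] at this
      exact this
    nlinarith
  have hsplit : ∑ q ∈ Finset.range N, ∑ r ∈ Finset.range N, f q r
      ≤ 2 * ∑ q ∈ Finset.range N, ∑ r ∈ (Finset.range N).filter (fun r => ψ r ≤ ψ q), f q r := by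
    have h2 : ∀ q r, f q r ≤ (if ψ r ≤ ψ q then f q r else 0) + (if ψ q ≤ ψ r then f r q else 0) := by
      intro q r
      rcases le_total (ψ r) (ψ q) with h | h
      · rw [if_pos h]
        have : 0 ≤ (if ψ q ≤ ψ r then f r q else 0) := by
          split_ifs
          · exact hf0 _ _
          · exact le_rfl
        linarith
      · rw [if_pos h, ← hsymm q r]
        have : 0 ≤ (if ψ r ≤ ψ q then f q r else 0) := by
          split_ifs
          · exact hf0 _ _
          · exact le_rfl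
        linarith
    calc ∑ q ∈ Finset.range N, ∑ r ∈ Finset.range N, f q r
        ≤ ∑ q ∈ Finset.range N, ∑ r ∈ Finset.range N,
          ((if ψ r ≤ ψ q then f q r else 0) + (if ψ q ≤ ψ r then f r q else 0)) :=
          Finset.sum_le_sum fun q _ => Finset.sum_le_sum fun r _ => h2 q r
      _ = ∑ q ∈ Finset.range N, ∑ r ∈ Finset.range N, (if ψ r ≤ ψ q then f q r else 0)
          + ∑ q ∈ Finset.range N, ∑ r ∈ Finset.range N, (if ψ q ≤ ψ r then f r q else 0) := by
          simp_rw [Finset.sum_add_distrib]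
      _ = ∑ q ∈ Finset.range N, ∑ r ∈ Finset.range N, (if ψ r ≤ ψ q then f q r else 0)
          + ∑ q ∈ Finset.range N, ∑ r ∈ Finset.range N, (if ψ r ≤ ψ q then f q r else 0) := by
          congr 1
          rw [Finset.sum_comm]
      _ = _ := by simp_rw [Finset.sum_filter]; ring
  have hfin : ∑ q ∈ Finset.range N, ∑ r ∈ (Finset.range N).filter (fun r => ψ r ≤ ψ q), f q r
      ≤ Ψ * (3816 + 2304 * Ψ) := by
    refine (Finset.sum_le_sum hrow).trans ?_
    rw [← Finset.sum_mul]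
  nlinarith

end Run7.h542.Kh
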