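import Mathlib

set_option autoImplicit false
open scoped BigOperators

namespace Run7.h542.Spec

/-- Pure combinatorics: if the average of shifts of a summable nonnegative `f` takes only one
nonzero value, and the family of shifts has a unique lexicographic maximum, then the family is
injective. -/
theorem inj_of_two_valued {d : ℕ} {ι : Type} [Fintype ι] [DecidableEq ι]
    (D : ι → (Fin d → ℤ)) (i₀ : ι) (hmax : ∀ i, i ≠ i₀ → toLex (D i) < toLex (D i₀))
    (c : ℝ) (hc : 0 < c)
    (f : (Fin d → ℤ) → ℝ) (hf0 : ∀ n, 0 ≤ f n) (hfs : Summable f) (hfne : ∃ n, f n ≠ 0)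
    (F : (Fin d → ℤ) → ℝ) (hF : ∀ n, F n = c * ∑ i, f (n - D i))
    (h2 : ∀ n m, F n * F m * (F n - F m) = 0) : Function.Injective D := by
  classical
  have hF0 : ∀ n, 0 ≤ F n := fun n => by
    rw [hF]; exact mul_nonneg hc.le (Finset.sum_nonneg fun i _ => hf0 _)
  -- F dominates shifted f
  have hdom : ∀ n i, c * f n ≤ F (n + D i) := by
    intro n i
    rw [hF]
    apply mul_le_mul_of_nonneg_left _ hc.le
    have := Finset.single_le_sum (f := fun j => f (n + D i - D j)) (fun j _ => hf0 _)
      (Finset.mem_univ i)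
    simpa using this
  have hFs : Summable F := by
    have : F = fun n => c * ∑ i, f (n - D i) := funext hF
    rw [this]
    apply Summable.mul_left
    apply summable_sum
    intro i _
    exact (Equiv.subRight (D i)).summable_iff.2 hfs
  obtain ⟨n₁, hn₁⟩ := hfne
  have hn₁' : 0 < f n₁ := lt_of_le_of_ne (hf0 _) (Ne.symm hn₁)
  have hFn₁ : 0 < F (n₁ + D i₀) := lt_of_lt_of_le (mul_pos hc hn₁') (hdom _ _)
  set v := F (n₁ + D i₀) with hv
  have hval : ∀ n, F n ≠ 0 → F n = v := by
    intro n hn
    have := h2 n (n₁ + D i₀)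
    rcases mul_eq_zero.1 this with h | h
    · rcases mul_eq_zero.1 h with h | h
      · exact absurd h hn
      · exact absurd h hFn₁.ne'
    · linarith
  have hfin : {n | F n ≠ 0}.Finite := by
    by_contra hinf
    have htend := hFs.tendsto_cofinite_zero
    have hev : ∀ᶠ n in Filter.cofinite, F n < v := htend.eventually (gt_mem_nhds hFn₁)
    rw [Filter.eventually_cofinite] at hev
    apply hinf
    apply hev.subset
    intro n hn
    simp only [Set.mem_setOf_eq, not_lt]
    exact (hval n hn).ge
  have hfinf : {n | f n ≠ 0}.Finite := by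
    have : {n | f n ≠ 0} ⊆ (fun n => n + D i₀) ⁻¹' {n | F n ≠ 0} := by
      intro n hn
      have : 0 < f n := lt_of_le_of_ne (hf0 _) (Ne.symm hn)
      exact (lt_of_lt_of_le (mul_pos hc this) (hdom n i₀)).ne'
    exact (hfin.preimage (fun a _ b _ h => by simpa using h)).subset this
  -- lexicographic maximum of the support of f
  obtain ⟨g₀, hg₀, hg₀max⟩ := Set.exists_max_image {n | f n ≠ 0} (fun n => toLex n) hfinf ⟨n₁, hn₁⟩
  have hfg : 0 < f g₀ := lt_of_le_of_ne (hf0 _) (Ne.symm hg₀)
  have hFg : F (g₀ + D i₀) = c * f g₀ := by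
    rw [hF]
    congr 1
    rw [Finset.sum_eq_single i₀]
    · simp
    · intro i _ hi
      by_contra hne
      have h1 := hg₀max _ hne
      have h2' := hmax i hi
      have : toLex g₀ + toLex (D i) < toLex g₀ + toLex (D i₀) := by
        exact add_lt_add_right h2' _
      have h3 : toLex (g₀ + D i₀ - D i) = toLex g₀ + toLex (D i₀) - toLex (D i) := rfl
      rw [h3] at h1
      have h4 : toLex g₀ + toLex (D i₀) ≤ toLex g₀ + toLex (D i) := by
        exact sub_le_iff_le_add.1 h1
      exact absurd this (not_lt.2 h4)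
    · simp
  intro i j hij
  by_contra hne
  have h1 : 2 * (c * f g₀) ≤ F (g₀ + D i) := by
    rw [hF]
    have : f g₀ + f g₀ ≤ ∑ k, f (g₀ + D i - D k) := by
      calc f g₀ + f g₀ = ∑ k ∈ ({i, j} : Finset ι), f (g₀ + D i - D k) := by
            rw [Finset.sum_pair hne]; simp [hij]
        _ ≤ _ := Finset.sum_le_sum_of_subset_of_nonneg (Finset.subset_univ _)
            (fun k _ _ => hf0 _)
    nlinarith
  have h2' : F (g₀ + D i) = v := hval _ (by
    have : 0 < c * f g₀ := mul_pos hc hfg
    linarith)
  have h3 : F (g₀ + D i₀) = v := hval _ (by rw [hFg]; exact (mul_pos hc hfg).ne')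
  have : 0 < c * f g₀ := mul_pos hc hfg
  linarith

end Run7.h542.Spec
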