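import Mathlib

set_option autoImplicit false
open MeasureTheory Matrix
open scoped BigOperators ENNReal

namespace Run7.h542.Spec

variable {d : ℕ}

/-- integer vector as a real vector -/
noncomputable def ic (n : Fin d → ℤ) : Fin d → ℝ := fun i => (n i : ℝ)
/-- coordinatewise floor -/
noncomputable def fl (x : Fin d → ℝ) : Fin d → ℤ := fun i => ⌊x i⌋
/-- coordinatewise fractional part -/
noncomputable def fr (x : Fin d → ℝ) : Fin d → ℝ := fun i => Int.fract (x i)

lemma fr_add_ic (x : Fin d → ℝ) : fr x + ic (fl x) = x := by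
  funext i; exact Int.fract_add_floor (x i)

lemma measurable_fl : Measurable (fl : (Fin d → ℝ) → (Fin d → ℤ)) :=
  measurable_pi_lambda _ fun i => (measurable_pi_apply i).floor

lemma measurable_fr : Measurable (fr : (Fin d → ℝ) → (Fin d → ℝ)) :=
  measurable_pi_lambda _ fun i => (measurable_pi_apply i).fract

lemma fl_add_ic (x : Fin d → ℝ) (n : Fin d → ℤ) : fl (x + ic n) = fl x + n := by
  funext i; simp [ic, fl]

lemma fr_add_ic' (x : Fin d → ℝ) (n : Fin d → ℤ) : fr (x + ic n) = fr x := by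
  funext i; simp [ic, fr]

/-- the slice of `ρ` over the integer cell `n`, moved to the unit cube -/
noncomputable def slice (ρ : Measure (Fin d → ℝ)) (n : Fin d → ℤ) : Measure (Fin d → ℝ) :=
  (ρ.restrict {y | fl y = n}).map fr

/-- projection to the unit cube -/
noncomputable def bar (ρ : Measure (Fin d → ℝ)) : Measure (Fin d → ℝ) := ρ.map fr

lemma measurableSet_cell (n : Fin d → ℤ) : MeasurableSet {y : Fin d → ℝ | fl y = n} :=
  measurable_fl (measurableSet_singleton n)

lemma slice_le (ρ : Measure (Fin d → ℝ)) (n : Fin d → ℤ) : slice ρ n ≤ bar ρ :=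
  Measure.map_mono Measure.restrict_le_self measurable_fr

instance (ρ : Measure (Fin d → ℝ)) [IsFiniteMeasure ρ] (n : Fin d → ℤ) :
    IsFiniteMeasure (slice ρ n) := by unfold slice; infer_instance

instance (ρ : Measure (Fin d → ℝ)) [IsFiniteMeasure ρ] :
    IsFiniteMeasure (bar ρ) := by unfold bar; infer_instance

/-- bounded measurable density of a slice -/
noncomputable def dens (ρ : Measure (Fin d → ℝ)) (n : Fin d → ℤ) (q : Fin d → ℝ) : ℝ :=
  min (((slice ρ n).rnDeriv (bar ρ) q).toReal) 1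

lemma measurable_dens (ρ : Measure (Fin d → ℝ)) (n : Fin d → ℤ) : Measurable (dens ρ n) :=
  ((Measure.measurable_rnDeriv _ _).ennreal_toReal).min measurable_const

lemma dens_nonneg (ρ : Measure (Fin d → ℝ)) (n : Fin d → ℤ) (q : Fin d → ℝ) : 0 ≤ dens ρ n q :=
  le_min ENNReal.toReal_nonneg zero_le_one

lemma dens_le_one (ρ : Measure (Fin d → ℝ)) (n : Fin d → ℤ) (q : Fin d → ℝ) : dens ρ n q ≤ 1 :=
  min_le_right _ _

lemma dens_ae (ρ : Measure (Fin d → ℝ)) [IsFiniteMeasure ρ] (n : Fin d → ℤ) :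
    ∀ᵐ q ∂bar ρ, ENNReal.ofReal (dens ρ n q) = (slice ρ n).rnDeriv (bar ρ) q := by
  filter_upwards [Measure.rnDeriv_le_one_of_le (slice_le ρ n)] with q hq
  have h1 : (slice ρ n).rnDeriv (bar ρ) q ≤ 1 := hq
  have h2 : (slice ρ n).rnDeriv (bar ρ) q ≠ ⊤ := ne_top_of_le_ne_top (by simp) h1
  have h3 : ((slice ρ n).rnDeriv (bar ρ) q).toReal ≤ 1 := by
    have := ENNReal.toReal_mono (by simp) h1
    simpa using this
  unfold dens
  rw [min_eq_left h3, ENNReal.ofReal_toReal h2]

lemma slice_eq (ρ : Measure (Fin d → ℝ)) [IsFiniteMeasure ρ] (n : Fin d → ℤ) :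
    slice ρ n = (bar ρ).withDensity (fun q => ENNReal.ofReal (dens ρ n q)) := by
  have : (slice ρ n).HaveLebesgueDecomposition (bar ρ) :=
    Measure.haveLebesgueDecomposition_of_sigmaFinite _ _
  rw [withDensity_congr_ae (dens_ae ρ n), Measure.withDensity_rnDeriv_eq _ _
    (slice_le ρ n).absolutelyContinuous]

lemma integral_slice (ρ : Measure (Fin d → ℝ)) [IsFiniteMeasure ρ] (n : Fin d → ℤ)
    (φ : (Fin d → ℝ) → ℂ) :
    ∫ q, φ q ∂slice ρ n = ∫ q, (dens ρ n q : ℂ) * φ q ∂bar ρ := by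
  rw [slice_eq, integral_withDensity_eq_integral_toReal_smul]
  · apply integral_congr_ae
    filter_upwards with q
    rw [ENNReal.toReal_ofReal (dens_nonneg _ _ _)]
    simp
  · exact (measurable_dens ρ n).ennreal_ofReal
  · filter_upwards with q using ENNReal.ofReal_lt_top

/-- integral over the cell `n` -/
lemma integral_cell (ρ : Measure (Fin d → ℝ)) [IsFiniteMeasure ρ] (n : Fin d → ℤ)
    (φ : (Fin d → ℝ) → ℂ) (hφ : Measurable φ) :
    ∫ y in {y | fl y = n}, φ y ∂ρ = ∫ q, (dens ρ n q : ℂ) * φ (q + ic n) ∂bar ρ := by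
  rw [← integral_slice ρ n (fun q => φ (q + ic n))]
  unfold slice
  rw [integral_map measurable_fr.aemeasurable]
  · apply setIntegral_congr_fun (measurableSet_cell n)
    intro y hy
    have hy' : fl y = n := hy
    simp only
    rw [← hy', fr_add_ic]
  · exact (hφ.comp (measurable_id.add_const _)).aestronglyMeasurable


/-- Two vectors with the same absolute Fourier coefficients have the same norm. -/
lemma norm_eq_of_coeff {Λ E : Type*} [NormedAddCommGroup E] [InnerProductSpace ℂ E]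
    [CompleteSpace E] (e : Λ → E) (he : Orthonormal ℂ e)
    (hsp : (Submodule.span ℂ (Set.range e)).topologicalClosure = ⊤) (G H : E)
    (h : ∀ l, ‖inner ℂ (e l) G‖ = ‖inner ℂ (e l) H‖) : ‖G‖ = ‖H‖ := by
  let b := HilbertBasis.mk he hsp.ge
  have hb : ∀ l, b l = e l := fun l => by
    have := HilbertBasis.coe_mk he hsp.ge
    exact congrFun this l
  have key : ∀ G : E, inner ℂ G G = ∑' l, ((‖inner ℂ (e l) G‖ ^ 2 : ℝ) : ℂ) := by
    intro G
    rw [← b.tsum_inner_mul_inner G G]
    congr 1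
    funext l
    rw [hb l]
    rw [← inner_conj_symm G (e l)]
    rw [mul_comm, Complex.mul_conj, Complex.normSq_eq_norm_sq]
  have h1 : inner ℂ G G = inner ℂ H H := by
    rw [key G, key H]
    simp_rw [h]
  have h2 : ‖G‖ ^ 2 = ‖H‖ ^ 2 := by
    rw [← @inner_self_eq_norm_sq ℂ, ← @inner_self_eq_norm_sq ℂ, h1]
  exact (sq_eq_sq₀ (norm_nonneg _) (norm_nonneg _)).1 h2


/-- the character `exp(2 π i ⟨l, x⟩)` -/
noncomputable def chr (l x : Fin d → ℝ) : ℂ :=
  Complex.exp (2 * Real.pi * Complex.I * ((∑ i, l i * x i : ℝ) : ℂ))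

lemma chr_add (l x y : Fin d → ℝ) : chr l (x + y) = chr l x * chr l y := by
  unfold chr
  rw [← Complex.exp_add]
  congr 1
  have : (∑ i, l i * (x + y) i : ℝ) = (∑ i, l i * x i) + ∑ i, l i * y i := by
    rw [← Finset.sum_add_distrib]
    exact Finset.sum_congr rfl fun i _ => by simp [mul_add]
  rw [this]
  push_cast
  ring

lemma norm_chr (l x : Fin d → ℝ) : ‖chr l x‖ = 1 := by
  unfold chr
  rw [Complex.norm_exp]
  simp

lemma measurable_chr (l : Fin d → ℝ) : Measurable (chr l) := by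
  unfold chr
  apply Complex.measurable_exp.comp
  apply Measurable.const_mul
  apply Complex.measurable_ofReal.comp
  exact Finset.measurable_sum _ fun i _ => (measurable_pi_apply i).const_mul _

section
variable (μ : Measure (Fin d → ℝ)) [IsProbabilityMeasure μ] (M : Matrix (Fin d) (Fin d) ℝ)

lemma measurable_mulVec : Measurable (fun x : Fin d → ℝ => M *ᵥ x) :=
  (Continuous.matrix_mulVec continuous_const continuous_id).measurable

lemma cell_int (n : Fin d → ℤ) (φ : (Fin d → ℝ) → ℂ) (hφ : Measurable φ) :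
    ∫ x, (if fl (M *ᵥ x) = n then φ (M *ᵥ x) else 0) ∂μ
      = ∫ q, (dens (μ.map (fun x => M *ᵥ x)) n q : ℂ) * φ (q + ic n)
          ∂bar (μ.map (fun x => M *ᵥ x)) := by
  classical
  have : IsFiniteMeasure (μ.map (fun x => M *ᵥ x)) := by infer_instance
  rw [← integral_cell _ n φ hφ, ← integral_indicator (measurableSet_cell n)]
  rw [integral_map (measurable_mulVec M).aemeasurable]
  · apply integral_congr_ae
    filter_upwards with x
    by_cases h : fl (M *ᵥ x) = n
    · rw [if_pos h, Set.indicator_of_mem (show M *ᵥ x ∈ {y | fl y = n} from h)]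
    · rw [if_neg h, Set.indicator_of_notMem (show M *ᵥ x ∉ {y | fl y = n} from h)]
  · exact (hφ.indicator (measurableSet_cell n)).aestronglyMeasurable

lemma ae_fr (ρ : Measure (Fin d → ℝ)) : ∀ᵐ q ∂bar ρ, fr q = q := by
  unfold bar
  rw [ae_map_iff measurable_fr.aemeasurable]
  · filter_upwards with x
    funext i; simp [fr]
  · exact measurableSet_eq_fun measurable_fr measurable_id

/-- test vectors -/
noncomputable def tv (n : Fin d → ℤ) (g : (Fin d → ℝ) → ℝ) (x : Fin d → ℝ) : ℂ :=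
  if fl (M *ᵥ x) = n then (g (fr (M *ᵥ x)) : ℂ) else 0

lemma measurable_tv (n : Fin d → ℤ) (g : (Fin d → ℝ) → ℝ) (hg : Measurable g) :
    Measurable (tv M n g) := by
  unfold tv
  refine Measurable.ite ?_ ?_ measurable_const
  · exact (measurable_fl.comp (measurable_mulVec M)) (measurableSet_singleton n)
  · exact Complex.measurable_ofReal.comp (hg.comp (measurable_fr.comp (measurable_mulVec M)))

lemma memLp_tv (n : Fin d → ℤ) (g : (Fin d → ℝ) → ℝ) (hg : Measurable g)
    (hb : ∀ q, ‖g q‖ ≤ 1) : MemLp (tv M n g) 2 μ := by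
  refine MemLp.of_bound (measurable_tv M n g hg).aestronglyMeasurable 1 ?_
  filter_upwards with x
  unfold tv
  split_ifs
  · rw [Complex.norm_real]; exact hb _
  · simp

lemma inner_chr_tv (hM : IsUnit M.det) (l : Fin d → ℝ) (el : Lp ℂ 2 μ)
    (hel : (el : (Fin d → ℝ) → ℂ) =ᵐ[μ] chr l)
    (n : Fin d → ℤ) (g : (Fin d → ℝ) → ℝ) (hg : Measurable g) (hb : ∀ q, ‖g q‖ ≤ 1) :
    inner ℂ el ((memLp_tv μ M n g hg hb).toLp (tv M n g))
      = (starRingEnd ℂ) (chr l (M⁻¹ *ᵥ ic n)) *
        ∫ q, (starRingEnd ℂ) (chr l (M⁻¹ *ᵥ q)) *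
          ((dens (μ.map (fun x => M *ᵥ x)) n q * g q : ℝ) : ℂ) ∂bar (μ.map (fun x => M *ᵥ x)) := by
  rw [L2.inner_def]
  have h1 : ∫ a, inner ℂ ((el : (Fin d → ℝ) → ℂ) a)
      (((memLp_tv μ M n g hg hb).toLp (tv M n g) : Lp ℂ 2 μ) a) ∂μ
      = ∫ x, (if fl (M *ᵥ x) = n then
          (starRingEnd ℂ) (chr l (M⁻¹ *ᵥ (M *ᵥ x))) * (g (fr (M *ᵥ x)) : ℂ) else 0) ∂μ := by
    apply integral_congr_ae
    filter_upwards [hel, (memLp_tv μ M n g hg hb).coeFn_toLp] with x h1 h2
    rw [h1, h2]
    rw [Matrix.mulVec_mulVec, Matrix.nonsing_inv_mul _ hM, Matrix.one_mulVec]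
    unfold tv
    split_ifs
    · simp [mul_comm]
    · simp
  rw [h1]
  rw [cell_int μ M n (fun y => (starRingEnd ℂ) (chr l (M⁻¹ *ᵥ y)) * (g (fr y) : ℂ))]
  · rw [← integral_const_mul]
    apply integral_congr_ae
    filter_upwards [ae_fr (μ.map (fun x => M *ᵥ x))] with q hq
    rw [fr_add_ic', hq, Matrix.mulVec_add, chr_add]
    push_cast
    simp only [map_mul]
    ring
  · apply Measurable.mul
    · exact Complex.continuous_conj.measurable.comp
        ((measurable_chr l).comp (measurable_mulVec M⁻¹))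
    · exact Complex.measurable_ofReal.comp (hg.comp measurable_fr)

lemma inner_tv_tv (n : Fin d → ℤ) (g : (Fin d → ℝ) → ℝ) (hg : Measurable g)
    (hb : ∀ q, ‖g q‖ ≤ 1) :
    ((‖(memLp_tv μ M n g hg hb).toLp (tv M n g)‖ ^ 2 : ℝ) : ℂ)
      = ∫ q, ((dens (μ.map (fun x => M *ᵥ x)) n q * (g q) ^ 2 : ℝ) : ℂ)
        ∂bar (μ.map (fun x => M *ᵥ x)) := by
  have h0 : ((‖(memLp_tv μ M n g hg hb).toLp (tv M n g)‖ ^ 2 : ℝ) : ℂ)
      = inner ℂ ((memLp_tv μ M n g hg hb).toLp (tv M n g))
        ((memLp_tv μ M n g hg hb).toLp (tv M n g)) := by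
    rw [inner_self_eq_norm_sq_to_K]; push_cast; rfl
  rw [h0, L2.inner_def]
  have h1 : ∫ a, inner ℂ (((memLp_tv μ M n g hg hb).toLp (tv M n g) : Lp ℂ 2 μ) a)
      (((memLp_tv μ M n g hg hb).toLp (tv M n g) : Lp ℂ 2 μ) a) ∂μ
      = ∫ x, (if fl (M *ᵥ x) = n then (((g (fr (M *ᵥ x))) ^ 2 : ℝ) : ℂ) else 0) ∂μ := by
    apply integral_congr_ae
    filter_upwards [(memLp_tv μ M n g hg hb).coeFn_toLp] with x h2
    rw [h2]
    unfold tv
    split_ifs
    · rw [RCLike.inner_apply, Complex.conj_ofReal]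
      push_cast
      ring
    · simp
  rw [h1]
  rw [cell_int μ M n (fun y => (((g (fr y)) ^ 2 : ℝ) : ℂ))]
  · apply integral_congr_ae
    filter_upwards [ae_fr (μ.map (fun x => M *ᵥ x))] with q hq
    rw [fr_add_ic', hq]
    push_cast
    ring
  · exact Complex.measurable_ofReal.comp ((hg.comp measurable_fr).pow_const 2)

/-- The key identity: two slices have the same density wherever both are positive. -/
theorem spectral_key (hM : IsUnit M.det) (Λ : Set (Fin d → ℝ)) (e : Λ → Lp ℂ 2 μ)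
    (hel : ∀ l : Λ, (e l : (Fin d → ℝ) → ℂ) =ᵐ[μ] chr (l : Fin d → ℝ))
    (he : Orthonormal ℂ e)
    (hsp : (Submodule.span ℂ (Set.range e)).topologicalClosure = ⊤) (n m : Fin d → ℤ) :
    ∀ᵐ q ∂bar (μ.map (fun x => M *ᵥ x)),
      dens (μ.map (fun x => M *ᵥ x)) n q * dens (μ.map (fun x => M *ᵥ x)) m q *
        (dens (μ.map (fun x => M *ᵥ x)) n q - dens (μ.map (fun x => M *ᵥ x)) m q) = 0 := by
  set ρ := μ.map (fun x => M *ᵥ x) with hρ
  have hfin : IsFiniteMeasure ρ := by rw [hρ]; infer_instance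
  -- the test functions
  have key : ∀ E : Set (Fin d → ℝ), MeasurableSet E →
      ∫ q in E, (dens ρ n q * (dens ρ m q) ^ 2) ∂bar ρ
        = ∫ q in E, (dens ρ m q * (dens ρ n q) ^ 2) ∂bar ρ := by
    intro E hE
    have hgm : ∀ k, Measurable (E.indicator (dens ρ k)) :=
      fun k => (measurable_dens ρ k).indicator hE
    have hgb : ∀ k q, ‖E.indicator (dens ρ k) q‖ ≤ 1 := by
      intro k q
      by_cases hq : q ∈ E
      · rw [Set.indicator_of_mem hq, Real.norm_of_nonneg (dens_nonneg _ _ _)]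
        exact dens_le_one _ _ _
      · rw [Set.indicator_of_notMem hq]; simp
    have hnorm := norm_eq_of_coeff e he hsp
      ((memLp_tv μ M n _ (hgm m) (hgb m)).toLp (tv M n (E.indicator (dens ρ m))))
      ((memLp_tv μ M m _ (hgm n) (hgb n)).toLp (tv M m (E.indicator (dens ρ n)))) (by
        intro l
        rw [inner_chr_tv μ M hM l (e l) (hel l) n _ (hgm m) (hgb m),
          inner_chr_tv μ M hM l (e l) (hel l) m _ (hgm n) (hgb n)]
        rw [norm_mul, norm_mul, RCLike.norm_conj, RCLike.norm_conj, norm_chr, norm_chr]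
        congr 2
        apply integral_congr_ae
        filter_upwards with q
        congr 2
        by_cases hq : q ∈ E
        · rw [Set.indicator_of_mem hq, Set.indicator_of_mem hq, mul_comm]
        · rw [Set.indicator_of_notMem hq, Set.indicator_of_notMem hq]; simp)
    have h1 := inner_tv_tv μ M n (E.indicator (dens ρ m)) (hgm m) (hgb m)
    have h2 := inner_tv_tv μ M m (E.indicator (dens ρ n)) (hgm n) (hgb n)
    rw [hnorm, h2, integral_complex_ofReal, integral_complex_ofReal] at h1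
    have h3 := Complex.ofReal_injective h1
    rw [← integral_indicator hE, ← integral_indicator hE]
    rw [← hρ] at h3
    have e1 : ∀ a b : Fin d → ℤ, ∀ q, E.indicator (fun q => dens ρ a q * (dens ρ b q) ^ 2) q
        = dens ρ a q * (E.indicator (dens ρ b) q) ^ 2 := by
      intro a b q
      by_cases hq : q ∈ E
      · rw [Set.indicator_of_mem hq, Set.indicator_of_mem hq]
      · rw [Set.indicator_of_notMem hq, Set.indicator_of_notMem hq]; simp
    simp_rw [e1]
    exact h3.symm
  have hint : ∀ a b : Fin d → ℤ, Integrable (fun q => dens ρ a q * (dens ρ b q) ^ 2) (bar ρ) := by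
    intro a b
    refine Integrable.of_bound
      ((measurable_dens ρ a).mul ((measurable_dens ρ b).pow_const 2)).aestronglyMeasurable 1 ?_
    filter_upwards with q
    rw [Real.norm_of_nonneg (mul_nonneg (dens_nonneg _ _ _) (sq_nonneg _))]
    have h1 := dens_nonneg ρ a q
    have h2 := dens_le_one ρ a q
    have h3 := dens_nonneg ρ b q
    have h4 := dens_le_one ρ b q
    have h5 : dens ρ b q ^ 2 ≤ 1 := pow_le_one₀ h3 h4
    nlinarith [sq_nonneg (dens ρ b q)]
  have hae := Integrable.ae_eq_of_forall_setIntegral_eq _ _ (hint n m) (hint m n)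
    (fun E hE _ => key E hE)
  filter_upwards [hae] with q hq
  linarith

end

end Run7.h542.Spec
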