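import Mathlib
import Pool.Agent.Run7.h542.SpecComb
import Pool.Agent.Run7.h542.SpecKey

set_option autoImplicit false
open MeasureTheory Matrix
open scoped BigOperators ENNReal

namespace Run7.h542.Spec

variable {d : ℕ}

lemma slice_apply (ρ : Measure (Fin d → ℝ)) (n : Fin d → ℤ) {s : Set (Fin d → ℝ)}
    (hs : MeasurableSet s) : slice ρ n s = ρ (fr ⁻¹' s ∩ {y | fl y = n}) := by
  unfold slice
  rw [Measure.map_apply measurable_fr hs, Measure.restrict_apply (measurable_fr hs)]

lemma bar_apply (ρ : Measure (Fin d → ℝ)) {s : Set (Fin d → ℝ)}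
    (hs : MeasurableSet s) : bar ρ s = ρ (fr ⁻¹' s) := by
  unfold bar
  rw [Measure.map_apply measurable_fr hs]

lemma measurable_shift (m : Fin d → ℤ) : Measurable (fun x : Fin d → ℝ => x + ic m) :=
  measurable_id.add_const _

lemma slice_shift (μ : Measure (Fin d → ℝ)) (m n : Fin d → ℤ) :
    slice (μ.map (fun x => x + ic m)) n = slice μ (n - m) := by
  ext s hs
  rw [slice_apply _ _ hs, slice_apply _ _ hs, Measure.map_apply (measurable_shift m)
    ((measurable_fr hs).inter (measurableSet_cell n))]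
  congr 1
  ext x
  simp only [Set.mem_preimage, Set.mem_inter_iff, fr_add_ic']
  apply and_congr_right
  intro _
  show fl (x + ic m) = n ↔ fl x = n - m
  rw [fl_add_ic]
  exact eq_sub_iff_add_eq.symm

lemma bar_shift (μ : Measure (Fin d → ℝ)) (m : Fin d → ℤ) :
    bar (μ.map (fun x => x + ic m)) = bar μ := by
  ext s hs
  rw [bar_apply _ hs, bar_apply _ hs, Measure.map_apply (measurable_shift m) (measurable_fr hs)]
  congr 1
  ext x
  simp only [Set.mem_preimage, fr_add_ic']

lemma ofReal_dens_measurable (ρ : Measure (Fin d → ℝ)) (n : Fin d → ℤ) :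
    Measurable (fun q => ENNReal.ofReal (dens ρ n q)) := (measurable_dens ρ n).ennreal_ofReal

lemma tsum_dens (μ : Measure (Fin d → ℝ)) [IsFiniteMeasure μ] :
    ∀ᵐ q ∂bar μ, ∑' n, ENNReal.ofReal (dens μ n q) = 1 := by
  have h1 : (bar μ).withDensity (fun q => ∑' n, ENNReal.ofReal (dens μ n q))
      = (bar μ).withDensity 1 := by
    have h2 : (fun q => ∑' n, ENNReal.ofReal (dens μ n q))
        = ∑' n, fun q => ENNReal.ofReal (dens μ n q) := by
      funext q
      rw [ENNReal.tsum_apply]
    rw [h2, withDensity_tsum (fun n => ofReal_dens_measurable μ n), withDensity_one]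
    simp_rw [← slice_eq]
    ext s hs
    rw [Measure.sum_apply _ hs, bar_apply _ hs]
    simp_rw [slice_apply _ _ hs]
    rw [← measure_iUnion]
    · congr 1
      rw [← Set.inter_iUnion]
      have : (⋃ n : Fin d → ℤ, {y : Fin d → ℝ | fl y = n}) = Set.univ := by
        ext x; simp only [Set.mem_iUnion, Set.mem_univ, iff_true]; exact ⟨fl x, rfl⟩
      rw [this, Set.inter_univ]
    · intro a b hab
      refine Disjoint.mono Set.inter_subset_right Set.inter_subset_right ?_
      rw [Set.disjoint_left]
      intro x hx hx'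
      exact hab ((show fl x = a from hx).symm.trans hx')
    · intro n
      exact (measurable_fr hs).inter (measurableSet_cell n)
  have h3 := (withDensity_eq_iff (μ := bar μ)
    (Measurable.tsum fun n => ofReal_dens_measurable μ n).aemeasurable
    (aemeasurable_const (b := (1 : ℝ≥0∞))) (by
      rw [← setLIntegral_univ, ← withDensity_apply _ MeasurableSet.univ, h1, withDensity_one]
      exact measure_ne_top _ _)).1 h1
  exact h3

section avg
variable {ι : Type} [Fintype ι] (D : ι → (Fin d → ℤ)) (c : ℝ≥0∞) (μ ρ : Measure (Fin d → ℝ))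

lemma bar_avg (hc : c * Fintype.card ι = 1)
    (hρ : ρ = c • ∑ i, μ.map (fun x => x + ic (D i))) : bar ρ = bar μ := by
  ext s hs
  rw [bar_apply _ hs, hρ, Measure.smul_apply, Measure.finsetSum_apply]
  simp_rw [← bar_apply _ hs, bar_shift]
  rw [Finset.sum_const, Finset.card_univ, smul_eq_mul, nsmul_eq_mul, ← mul_assoc, hc, one_mul]

lemma dens_avg [IsFiniteMeasure μ] [IsFiniteMeasure ρ] (hc : c * Fintype.card ι = 1)
    (hρ : ρ = c • ∑ i, μ.map (fun x => x + ic (D i))) (n : Fin d → ℤ) :
    ∀ᵐ q ∂bar μ, dens ρ n q = c.toReal * ∑ i, dens μ (n - D i) q := by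
  have hbar := bar_avg D c μ ρ hc hρ
  have hcm : Measurable (fun q => c * ∑ i, ENNReal.ofReal (dens μ (n - D i) q)) :=
    (Finset.measurable_sum _ fun i _ => ofReal_dens_measurable μ _).const_mul c
  have h1 : (bar μ).withDensity (fun q => ENNReal.ofReal (dens ρ n q))
      = (bar μ).withDensity (fun q => c * ∑ i, ENNReal.ofReal (dens μ (n - D i) q)) := by
    rw [← hbar, ← slice_eq, hbar]
    ext s hs
    rw [withDensity_apply _ hs, lintegral_const_mul _
      (Finset.measurable_sum _ fun i _ => ofReal_dens_measurable μ _),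
      lintegral_finsetSum _ (fun i _ => ofReal_dens_measurable μ _)]
    simp_rw [← withDensity_apply _ hs, ← slice_eq]
    rw [slice_apply _ _ hs, hρ, Measure.smul_apply, Measure.finsetSum_apply]
    simp_rw [← slice_apply _ _ hs, slice_shift]
    rfl
  have h3 := (withDensity_eq_iff (μ := bar μ)
    (ofReal_dens_measurable ρ n).aemeasurable hcm.aemeasurable (by
      rw [← setLIntegral_univ, ← withDensity_apply _ MeasurableSet.univ, ← hbar, ← slice_eq]
      exact measure_ne_top _ _)).1 h1
  filter_upwards [h3] with q hq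
  have h4 := congrArg ENNReal.toReal hq
  rw [ENNReal.toReal_ofReal (dens_nonneg _ _ _), ENNReal.toReal_mul,
    ENNReal.toReal_sum (fun i _ => ENNReal.ofReal_ne_top)] at h4
  rw [h4]
  congr 1
  exact Finset.sum_congr rfl fun i _ => ENNReal.toReal_ofReal (dens_nonneg _ _ _)

end avg

/-- The injectivity of the digit family follows from the spectral property. -/
theorem D_injective (μ : Measure (Fin d → ℝ)) [IsProbabilityMeasure μ]
    (M : Matrix (Fin d) (Fin d) ℝ) (hM : IsUnit M.det) (Λ : Set (Fin d → ℝ)) (e : Λ → Lp ℂ 2 μ)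
    (hel : ∀ l : Λ, (e l : (Fin d → ℝ) → ℂ) =ᵐ[μ] chr (l : Fin d → ℝ))
    (he : Orthonormal ℂ e)
    (hsp : (Submodule.span ℂ (Set.range e)).topologicalClosure = ⊤)
    {ι : Type} [Fintype ι] [DecidableEq ι] (D : ι → (Fin d → ℤ)) (c : ℝ≥0∞)
    (hc : c * Fintype.card ι = 1)
    (hρ : μ.map (fun x => M *ᵥ x) = c • ∑ i, μ.map (fun x => x + ic (D i)))
    (i₀ : ι) (hmax : ∀ i, i ≠ i₀ → toLex (D i) < toLex (D i₀)) : Function.Injective D := by
  have hbar := bar_avg D c μ _ hc hρ
  have h1 := ae_all_iff.2 fun n => ae_all_iff.2 fun m => spectral_key μ M hM Λ e hel he hsp n m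
  rw [hbar] at h1
  have hfin : IsFiniteMeasure (μ.map (fun x => M *ᵥ x)) := by infer_instance
  have h2 := ae_all_iff.2 fun n => dens_avg D c μ (μ.map (fun x => M *ᵥ x)) hc hρ n
  have h3 := tsum_dens μ
  have hne : (ae (bar μ)).NeBot := by
    rw [ae_neBot]
    intro h0
    have : bar μ Set.univ = 1 := by
      rw [bar_apply _ MeasurableSet.univ]; simp
    rw [h0] at this
    simp at this
  obtain ⟨q, hq1, hq2, hq3⟩ := (h1.and (h2.and h3)).exists
  have hcpos : 0 < c.toReal := by
    apply ENNReal.toReal_pos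
    · rintro rfl
      simp at hc
    · rintro rfl
      by_cases h : (Fintype.card ι : ℝ≥0∞) = 0
      · rw [h] at hc; simp at hc
      · rw [ENNReal.top_mul h] at hc; simp at hc
  refine inj_of_two_valued D i₀ hmax c.toReal hcpos (fun n => dens μ n q)
    (fun n => dens_nonneg _ _ _) ?_ ?_ (fun n => dens (μ.map (fun x => M *ᵥ x)) n q) hq2 hq1
  · have : Summable fun n => (ENNReal.ofReal (dens μ n q)).toReal :=
      ENNReal.summable_toReal (by rw [hq3]; simp)
    simpa [ENNReal.toReal_ofReal (dens_nonneg _ _ _)] using this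
  · by_contra hcon
    push Not at hcon
    simp [hcon] at hq3

end Run7.h542.Spec
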