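import Mathlib
import Pool.Agent.Run7.h542.SpecMain

set_option autoImplicit false
open MeasureTheory Matrix
open scoped BigOperators ENNReal

namespace Run7.h542.Spec

variable {d : ℕ}

lemma ic_add (m n : Fin d → ℤ) : ic (m + n) = ic m + ic n := by
  funext i; simp [ic]

/-- the real matrix -/
noncomputable def rmat (R : Matrix (Fin d) (Fin d) ℤ) : Matrix (Fin d) (Fin d) ℝ :=
  R.map (Int.castRingHom ℝ)

lemma ic_mulVec (R : Matrix (Fin d) (Fin d) ℤ) (b : Fin d → ℤ) :
    ic (R *ᵥ b) = rmat R *ᵥ ic b := by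
  funext i
  simp [ic, rmat, Matrix.mulVec, dotProduct]

lemma rmat_pow (R : Matrix (Fin d) (Fin d) ℤ) (k : ℕ) : rmat (R ^ k) = rmat R ^ k := by
  unfold rmat
  exact map_pow (Int.castRingHom ℝ).mapMatrix R k

lemma rmat_det (R : Matrix (Fin d) (Fin d) ℤ) : (rmat R).det = (R.det : ℝ) := by
  unfold rmat
  exact ((Int.castRingHom ℝ).map_det R).symm

/-- counting function of the words whose piece contains the point -/
noncomputable def K (R : Matrix (Fin d) (Fin d) ℤ) (B : Finset (Fin d → ℤ))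
    (T : Set (Fin d → ℝ)) : ℕ → (Fin d → ℝ) → ℝ≥0∞
  | 0 => T.indicator 1
  | k + 1 => fun x => ∑ b ∈ B, K R B T k (rmat R *ᵥ x - ic b)

variable (R : Matrix (Fin d) (Fin d) ℤ) (B : Finset (Fin d → ℤ)) (T : Set (Fin d → ℝ))

lemma measurable_K (hT : MeasurableSet T) (k : ℕ) : Measurable (K R B T k) := by
  induction k with
  | zero => exact measurable_one.indicator hT
  | succ k ih =>
    exact Finset.measurable_sum _ fun b _ =>
      ih.comp ((measurable_mulVec (rmat R)).sub_const _)

theorem structure_k (μ : Measure (Fin d → ℝ)) (hdet : R.det ≠ 0) (hB : B.Nonempty)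
    (hμ : μ = ∑ b ∈ B, ((B.card : ℝ≥0∞)⁻¹) • μ.map (fun x => (rmat R)⁻¹ *ᵥ (x + ic b))) (k : ℕ) :
    ∃ (ι : Type) (_ : Fintype ι) (_ : DecidableEq ι) (D : ι → (Fin d → ℤ)) (i₀ : ι),
      Fintype.card ι = B.card ^ k ∧
      μ.map (fun x => (rmat R) ^ k *ᵥ x)
        = (((B.card : ℝ≥0∞) ^ k)⁻¹) • ∑ i, μ.map (fun x => x + ic (D i)) ∧
      (∀ i, i ≠ i₀ → toLex (D i) < toLex (D i₀)) ∧
      ∀ x, K R B T k x = ∑ i, T.indicator 1 ((rmat R) ^ k *ᵥ x - ic (D i)) := by
  classical
  induction k with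
  | zero =>
    refine ⟨Unit, inferInstance, inferInstance, fun _ => 0, (), by simp, ?_, ?_, ?_⟩
    · have h0 : ic (0 : Fin d → ℤ) = 0 := by funext i; simp [ic]
      simp [h0]
    · intro i hi
      exact absurd rfl hi
    · intro x
      have h0 : ic (0 : Fin d → ℤ) = 0 := by funext i; simp [ic]
      simp [h0, K]
  | succ k ih =>
    obtain ⟨ι, hft, hdec, D, i₀, hcard, hmap, hmax, hK⟩ := ih
    obtain ⟨bs, hbs, hbmax⟩ := Finset.exists_max_image B (fun b => toLex ((R ^ k) *ᵥ b)) hB
    have hinj : ∀ b b' : Fin d → ℤ, (R ^ k) *ᵥ b = (R ^ k) *ᵥ b' → b = b' := by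
      intro b b' h
      have h1 : (R ^ k) *ᵥ (b - b') = 0 := by rw [Matrix.mulVec_sub, h, sub_self]
      have h2 : (R ^ k).det ≠ 0 := by rw [Matrix.det_pow]; exact pow_ne_zero _ hdet
      have := Matrix.eq_zero_of_mulVec_eq_zero h2 h1
      exact sub_eq_zero.1 this
    refine ⟨ι × B, inferInstance, inferInstance, fun p => D p.1 + (R ^ k) *ᵥ (p.2 : Fin d → ℤ),
      (i₀, ⟨bs, hbs⟩), ?_, ?_, ?_, ?_⟩
    · rw [Fintype.card_prod, hcard, Fintype.card_coe, pow_succ]
    · have hAm := measurable_mulVec (rmat R ^ (k + 1))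
      ext s hs
      rw [Measure.map_apply hAm hs]
      conv_lhs => rw [hμ]
      rw [Measure.finsetSum_apply, Measure.smul_apply, Measure.finsetSum_apply,
        Fintype.sum_prod_type, Finset.sum_comm, smul_eq_mul, Finset.mul_sum, ← Finset.sum_coe_sort]
      apply Finset.sum_congr rfl
      intro b _
      have hφm : Measurable (fun x : Fin d → ℝ => (rmat R)⁻¹ *ᵥ (x + ic (b : Fin d → ℤ))) :=
        (measurable_mulVec _).comp (measurable_shift _)
      rw [Measure.smul_apply, Measure.map_apply hφm (hAm hs), smul_eq_mul]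
      have hset : (fun x : Fin d → ℝ => (rmat R)⁻¹ *ᵥ (x + ic (b : Fin d → ℤ))) ⁻¹'
          ((fun x => rmat R ^ (k + 1) *ᵥ x) ⁻¹' s)
          = (fun x => rmat R ^ k *ᵥ x) ⁻¹'
            ((fun y => y + ic ((R ^ k) *ᵥ (b : Fin d → ℤ))) ⁻¹' s) := by
        ext x
        simp only [Set.mem_preimage]
        have hu : IsUnit (rmat R).det := by
          rw [rmat_det]
          exact isUnit_iff_ne_zero.2 (by exact_mod_cast hdet)
        rw [Matrix.mulVec_mulVec, pow_succ, Matrix.mul_assoc, Matrix.mul_nonsing_inv _ hu,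
          Matrix.mul_one, Matrix.mulVec_add, ic_mulVec, rmat_pow]
      rw [hset, ← Measure.map_apply (measurable_mulVec (rmat R ^ k)) (measurable_shift _ hs), hmap,
        Measure.smul_apply, Measure.finsetSum_apply, smul_eq_mul, ← mul_assoc]
      congr 1
      · rw [pow_succ, ENNReal.mul_inv (by right; simp) (by left; simp), mul_comm]
      · apply Finset.sum_congr rfl
        intro i _
        rw [Measure.map_apply (measurable_shift _) (measurable_shift _ hs),
          Measure.map_apply (measurable_shift _) hs]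
        congr 1
        ext x
        simp only [Set.mem_preimage, ic_add, add_assoc]
    · rintro ⟨i, b, hb⟩ hne
      have hle : toLex ((R ^ k) *ᵥ b) ≤ toLex ((R ^ k) *ᵥ bs) := hbmax b hb
      show toLex (D i) + toLex ((R ^ k) *ᵥ b) < toLex (D i₀) + toLex ((R ^ k) *ᵥ bs)
      by_cases hi : i = i₀
      · subst hi
        have hbb : b ≠ bs := by
          rintro rfl
          exact hne rfl
        have : toLex ((R ^ k) *ᵥ b) ≠ toLex ((R ^ k) *ᵥ bs) := by
          intro h
          exact hbb (hinj _ _ (toLex.injective h))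
        exact add_lt_add_of_le_of_lt le_rfl (lt_of_le_of_ne hle this)
      · exact add_lt_add_of_lt_of_le (hmax i hi) hle
    · intro x
      show ∑ b ∈ B, K R B T k (rmat R *ᵥ x - ic b) = _
      rw [Fintype.sum_prod_type, Finset.sum_comm, ← Finset.sum_coe_sort]
      apply Finset.sum_congr rfl
      intro b _
      rw [hK]
      apply Finset.sum_congr rfl
      intro i _
      congr 1
      rw [Matrix.mulVec_sub, Matrix.mulVec_mulVec, ← pow_succ, ic_add, ic_mulVec, rmat_pow]
      abel

lemma count_bound (hT : IsCompact T) : ∃ M : ℕ, ∀ (ι : Type) (_ : Fintype ι)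
    (D : ι → (Fin d → ℤ)), Function.Injective D → ∀ y : Fin d → ℝ,
      ∑ i, T.indicator (1 : (Fin d → ℝ) → ℝ≥0∞) (y - ic (D i)) ≤ (M : ℝ≥0∞) := by
  classical
  obtain ⟨C₀, hC₀⟩ := hT.isBounded.exists_norm_le
  obtain ⟨C, hC⟩ := exists_nat_ge C₀
  refine ⟨(2 * C + 1) ^ d, ?_⟩
  intro ι _ D hD y
  set S := Finset.univ.filter (fun i => y - ic (D i) ∈ T) with hS
  have h1 : ∑ i, T.indicator (1 : (Fin d → ℝ) → ℝ≥0∞) (y - ic (D i)) = (S.card : ℝ≥0∞) := by
    rw [Finset.card_filter, Nat.cast_sum]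
    apply Finset.sum_congr rfl
    intro i _
    by_cases h : y - ic (D i) ∈ T
    · rw [Set.indicator_of_mem h, if_pos h]; simp
    · rw [Set.indicator_of_notMem h, if_neg h]; simp
  rw [h1]
  have h2 : S.image D ⊆ Fintype.piFinset (fun j => Finset.Icc (⌈y j⌉ - C) (⌊y j⌋ + C)) := by
    intro z hz
    obtain ⟨i, hi, rfl⟩ := Finset.mem_image.1 hz
    have hi' : y - ic (D i) ∈ T := (Finset.mem_filter.1 hi).2
    rw [Fintype.mem_piFinset]
    intro j
    have h3 := (norm_le_pi_norm (y - ic (D i)) j).trans ((hC₀ _ hi').trans hC)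
    rw [Real.norm_eq_abs, abs_le] at h3
    have h4 : (y - ic (D i)) j = y j - (D i j : ℝ) := rfl
    rw [h4] at h3
    rw [Finset.mem_Icc]
    constructor
    · have : ⌈y j⌉ ≤ D i j + C := by
        apply Int.ceil_le.2
        push_cast
        linarith [h3.2]
      linarith
    · have : D i j - C ≤ ⌊y j⌋ := by
        apply Int.le_floor.2
        push_cast
        linarith [h3.1]
      linarith
  have h3 : S.card ≤ (2 * C + 1) ^ d := by
    rw [← Finset.card_image_of_injective S hD]
    refine (Finset.card_le_card h2).trans ?_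
    rw [Fintype.card_piFinset]
    calc ∏ j : Fin d, (Finset.Icc (⌈y j⌉ - (C : ℤ)) (⌊y j⌋ + C)).card
        ≤ ∏ _j : Fin d, (2 * C + 1) := by
          apply Finset.prod_le_prod'
          intro j _
          rw [Int.card_Icc]
          have := Int.floor_le_ceil (y j)
          omega
      _ = (2 * C + 1) ^ d := by simp
  exact_mod_cast h3

end Run7.h542.Spec
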