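import Mathlib
import Pool.Agent.Run7.h542.SpecIter

set_option autoImplicit false
open MeasureTheory Matrix
open scoped BigOperators ENNReal

namespace Run7.h542.Spec

variable {d : ℕ}

/-- If the counting functions are uniformly bounded, the pieces do not overlap. -/
theorem no_overlap (R : Matrix (Fin d) (Fin d) ℤ) (B : Finset (Fin d → ℤ)) (T : Set (Fin d → ℝ))
    (μ : Measure (Fin d → ℝ)) [IsProbabilityMeasure μ] (hdet : R.det ≠ 0) (hB : B.Nonempty)
    (hμ : μ = ∑ b ∈ B, ((B.card : ℝ≥0∞)⁻¹) • μ.map (fun x => (rmat R)⁻¹ *ᵥ (x + ic b)))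
    (hT : IsCompact T) (hTeq : T = ⋃ b ∈ B, (fun x => (rmat R)⁻¹ *ᵥ (x + ic b)) '' T)
    (M : ℕ) (hM : ∀ k x, K R B T k x ≤ (M : ℝ≥0∞)) :
    ∀ b ∈ B, ∀ b' ∈ B, b ≠ b' →
      μ ((fun x => (rmat R)⁻¹ *ᵥ (x + ic b)) '' T ∩ (fun x => (rmat R)⁻¹ *ᵥ (x + ic b')) '' T)
        = 0 := by
  classical
  have hu : IsUnit (rmat R).det := by
    rw [rmat_det]
    exact isUnit_iff_ne_zero.2 (by exact_mod_cast hdet)
  set φ : (Fin d → ℤ) → (Fin d → ℝ) → (Fin d → ℝ) :=
    fun b x => (rmat R)⁻¹ *ᵥ (x + ic b) with hφ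
  have hφm : ∀ b, Measurable (φ b) := fun b => (measurable_mulVec _).comp (measurable_shift _)
  have hAφ : ∀ b x, rmat R *ᵥ (φ b x) = x + ic b := by
    intro b x
    simp only [hφ]
    rw [Matrix.mulVec_mulVec, Matrix.mul_nonsing_inv _ hu, Matrix.one_mulVec]
  have hφA : ∀ b x, φ b (rmat R *ᵥ x - ic b) = x := by
    intro b x
    simp only [hφ]
    rw [sub_add_cancel, Matrix.mulVec_mulVec, Matrix.nonsing_inv_mul _ hu, Matrix.one_mulVec]
  have hmem : ∀ b x, x ∈ φ b '' T ↔ rmat R *ᵥ x - ic b ∈ T := by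
    intro b x
    constructor
    · rintro ⟨t, ht, rfl⟩
      rw [hAφ, add_sub_cancel_right]; exact ht
    · intro h
      exact ⟨_, h, hφA b x⟩
  have hTm : MeasurableSet T := hT.isClosed.measurableSet
  have hKm := measurable_K R B T hTm
  -- monotonicity in k
  have hmono1 : ∀ k x, K R B T k x ≤ K R B T (k + 1) x := by
    intro k
    induction k with
    | zero =>
      intro x
      show T.indicator 1 x ≤ ∑ b ∈ B, T.indicator 1 (rmat R *ᵥ x - ic b)
      by_cases hx : x ∈ T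
      · rw [Set.indicator_of_mem hx]
        rw [hTeq] at hx
        simp only [Set.mem_iUnion] at hx
        obtain ⟨b, hb, hxb⟩ := hx
        have h1 := (hmem b x).1 hxb
        calc (1 : (Fin d → ℝ) → ℝ≥0∞) x = T.indicator 1 (rmat R *ᵥ x - ic b) := by
              rw [Set.indicator_of_mem h1]; rfl
          _ ≤ _ := Finset.single_le_sum
              (f := fun b => T.indicator (1 : (Fin d → ℝ) → ℝ≥0∞) (rmat R *ᵥ x - ic b))
              (fun _ _ => zero_le) hb
      · rw [Set.indicator_of_notMem hx]; exact zero_le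
    | succ k ih =>
      intro x
      show ∑ b ∈ B, K R B T k (rmat R *ᵥ x - ic b) ≤ ∑ b ∈ B, K R B T (k + 1) (rmat R *ᵥ x - ic b)
      exact Finset.sum_le_sum fun b _ => ih _
  have hmono0 : ∀ k x, T.indicator 1 x ≤ K R B T k x := by
    intro k x
    induction k with
    | zero => exact le_rfl
    | succ k ih => exact ih.trans (hmono1 k x)
  -- the limit function
  set Ks : (Fin d → ℝ) → ℝ≥0∞ := fun x => ⨆ k, K R B T k x with hKs
  have hKsm : Measurable Ks := Measurable.iSup hKm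
  have hKsM : ∀ x, Ks x ≤ M := fun x => iSup_le fun k => hM k x
  set cfun : (Fin d → ℤ) → (Fin d → ℝ) → ℝ≥0∞ :=
    fun b x => ∑ b' ∈ B.erase b, T.indicator 1 (x + ic b - ic b') with hcfun
  have hcm : ∀ b, Measurable (cfun b) := by
    intro b
    refine Finset.measurable_sum _ fun b' _ => ?_
    exact (measurable_one.indicator hTm).comp ((measurable_id.add_const _).sub_const _)
  have hstep : ∀ b ∈ B, ∀ x, Ks x + cfun b x ≤ Ks (φ b x) := by
    intro b hb x
    have h1 : ∀ k, K R B T k x + cfun b x ≤ Ks (φ b x) := by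
      intro k
      refine le_trans ?_ (le_iSup (fun k => K R B T k (φ b x)) (k + 1))
      show _ ≤ ∑ b' ∈ B, K R B T k (rmat R *ᵥ (φ b x) - ic b')
      rw [← Finset.add_sum_erase B _ hb, hAφ, add_sub_cancel_right]
      exact add_le_add le_rfl (Finset.sum_le_sum fun b' _ => hmono0 k _)
    simp only [hKs]
    rw [ENNReal.iSup_add]
    exact iSup_le h1
  -- integrate
  have hNpos : (B.card : ℝ≥0∞) ≠ 0 := by
    simp [hB.ne_empty]
  have hint : ∫⁻ x, Ks x ∂μ = ∑ b ∈ B, (B.card : ℝ≥0∞)⁻¹ * ∫⁻ x, Ks (φ b x) ∂μ := by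
    conv_lhs => rw [hμ]
    rw [lintegral_finsetSum_measure]
    apply Finset.sum_congr rfl
    intro b _
    rw [lintegral_smul_measure, lintegral_map hKsm (hφm b), smul_eq_mul]
  have hfinite : ∫⁻ x, Ks x ∂μ ≠ ⊤ := by
    have : ∫⁻ x, Ks x ∂μ ≤ ∫⁻ x, (M : ℝ≥0∞) ∂μ := lintegral_mono hKsM
    rw [lintegral_const, measure_univ, mul_one] at this
    exact ne_top_of_le_ne_top (by simp) this
  have hint2 : ∫⁻ x, Ks x ∂μ + ∑ b ∈ B, (B.card : ℝ≥0∞)⁻¹ * ∫⁻ x, cfun b x ∂μ
      ≤ ∫⁻ x, Ks x ∂μ := by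
    calc ∫⁻ x, Ks x ∂μ + ∑ b ∈ B, (B.card : ℝ≥0∞)⁻¹ * ∫⁻ x, cfun b x ∂μ
        = ∑ b ∈ B, (B.card : ℝ≥0∞)⁻¹ * (∫⁻ x, (Ks x + cfun b x) ∂μ) := by
          simp_rw [lintegral_add_left hKsm, mul_add]
          rw [Finset.sum_add_distrib, Finset.sum_const, nsmul_eq_mul, ← mul_assoc,
            ENNReal.mul_inv_cancel hNpos (by simp), one_mul]
      _ ≤ ∑ b ∈ B, (B.card : ℝ≥0∞)⁻¹ * ∫⁻ x, Ks (φ b x) ∂μ :=
          Finset.sum_le_sum fun b hb => mul_le_mul_right (lintegral_mono (hstep b hb)) _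
      _ = _ := hint.symm
  have hzero : ∑ b ∈ B, (B.card : ℝ≥0∞)⁻¹ * ∫⁻ x, cfun b x ∂μ = 0 := by
    have h0 : ∫⁻ x, Ks x ∂μ + ∑ b ∈ B, (B.card : ℝ≥0∞)⁻¹ * ∫⁻ x, cfun b x ∂μ
      ≤ ∫⁻ x, Ks x ∂μ + 0 := by rw [add_zero]; exact hint2
    exact le_antisymm ((ENNReal.add_le_add_iff_left hfinite).1 h0) zero_le
  have hz : ∀ b ∈ B, ∀ b' ∈ B, b ≠ b' → μ {x | x + ic b - ic b' ∈ T} = 0 := by
    intro b hb b' hb' hne
    have h1 := (Finset.sum_eq_zero_iff.1 hzero) b hb
    rcases mul_eq_zero.1 h1 with h | h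
    · exact absurd h (by simp)
    · have h2 : μ {x | x + ic b - ic b' ∈ T} ≤ ∫⁻ x, cfun b x ∂μ := by
        have hms : MeasurableSet {x : Fin d → ℝ | x + ic b - ic b' ∈ T} :=
          ((measurable_id.add_const _).sub_const _) hTm
        rw [← lintegral_indicator_one hms]
        apply lintegral_mono
        intro x
        refine le_trans ?_ (Finset.single_le_sum
          (f := fun b' => T.indicator (1 : (Fin d → ℝ) → ℝ≥0∞) (x + ic b - ic b'))
          (fun _ _ => zero_le) (Finset.mem_erase.2 ⟨hne.symm, hb'⟩))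
        by_cases hx : x + ic b - ic b' ∈ T
        · rw [Set.indicator_of_mem (show x ∈ {x | x + ic b - ic b' ∈ T} from hx)]
          simp only
          rw [Set.indicator_of_mem hx]
          rfl
        · rw [Set.indicator_of_notMem (show x ∉ {x | x + ic b - ic b' ∈ T} from hx)]
          exact zero_le
      rw [h] at h2
      exact le_antisymm h2 zero_le
  intro b hb b' hb' hne
  have hTc : ∀ b, MeasurableSet (φ b '' T) := by
    intro b
    have : φ b '' T = (fun x => rmat R *ᵥ x - ic b) ⁻¹' T := by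
      ext x; exact hmem b x
    rw [this]
    exact ((measurable_mulVec _).sub_const _) hTm
  have hS : MeasurableSet (φ b '' T ∩ φ b' '' T) := (hTc b).inter (hTc b')
  rw [hμ, Measure.finsetSum_apply]
  apply Finset.sum_eq_zero
  intro c hc
  rw [Measure.smul_apply, Measure.map_apply (hφm c) hS, smul_eq_mul]
  have hsub : μ (φ c ⁻¹' (φ b '' T ∩ φ b' '' T)) = 0 := by
    by_cases hcb : c = b
    · have hcb' : c ≠ b' := by rw [hcb]; exact hne
      refine measure_mono_null ?_ (hz c hc b' hb' hcb')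
      rintro x ⟨_, h2⟩
      have := (hmem b' _).1 h2
      rw [hAφ] at this
      exact this
    · refine measure_mono_null ?_ (hz c hc b hb hcb)
      rintro x ⟨h1, _⟩
      have := (hmem b _).1 h1
      rw [hAφ] at this
      exact this
  rw [hsub, mul_zero]

end Run7.h542.Spec
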